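import Pool.Agent.MP_154433_an.t6.Spec
import Pool.Agent.MP_154433_an.t3s.Vdc
import Pool.Agent.MP_154433_an.t3s.Shift
import Pool.Agent.MP_154433_an.t3s.Asm

/-! Two maps from uniform twisted averages, part 1 (packed). -/

section PkAsm

/-! Assembly of the rows. -/

set_option autoImplicit false
set_option linter.unusedVariables false
set_option warn.classDefReducibility false

open MeasureTheory ProbabilityTheory Filter Topology Function
open scoped BigOperators ComplexConjugate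

noncomputable section

namespace T6

open Pool.Agent.MP_154433_an hiding BM
open T3S (B1 MB1 PW AsInv Erg Bd Near Gr yw nu nb)
open T4S (Gm Spr)
open T4x (Fd Nice)

/-- all rows of the deterministic part -/
structure Rows : Prop where
  vb : VBR
  qb : QBR
  scale : ScaleR
  da : DAR
  dm : DMR
  zf : ZFR
  gcsB : GcsBR
  gcsD : GcsDR
  link : LinkR
  zero : ZeroR
  mono : MonoR
  nb : NBR
  nulInv : NulInvR
  conc : ConcR
  kill : KillR
  wie : WieR
  mxa : MXaR
  mxb : MXbR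
  c1 : C1R
  c2 : C2R
  pl : PLR
  v1 : V1R
  v2 : V2R
  liftA : LiftAR
  liftB : LiftBR
  lb : LbR
  cl : ClR
  intr : IntR
  g3 : G3R
  g4 : G4R
  g5 : G5R
  key : KeyR
  g0 : G0R
  own : OwnR
  forr : ForR
  hullr : HullR
  topr : TopR
  sq : SqR
  st : StR
  near : NearR
  endr : EndR

/-- what is taken from the earlier directories -/
structure Old : Prop where
  fd : Fd
  gf : T4x.Gf
  top : T4x.TopS
  perm : T4S.PermS
  gvn : T4S.GvnS
  act : T4S.ActS
  endr : T4S.EndS
  cls : T4S.ClsS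
  spr : T4S.SprS
  shift : T3S.ShiftS
  nest : T3S.NestS
  apx : T3S.ApxS
  vdc : T3S.VdcS
  ub : T3S.UbS
  ae : T3S.AeS
  nrm : T3S.NormS
  erg : T3S.ErgS
  cov : CovZ

theorem detOf (R : Rows) (O : Old) {ν ν' : ℕ → ℕ → ℝ} (h1 : PW ν) (h2 : PW ν') (e1 : Erg ν)
    (e2 : Erg ν') (s1 : Spr ν) (s2 : Spr ν') (hi : AsInv ν') (hu : UWW (df ν ν'))
    (hq : SQ (df ν ν')) (hs : StL (df ν ν')) (X : Sy) (f g : X.X → ℂ) (hf : MB X f)
    (hg : MB X g) : Vn X (rr 0) (rr 1) (df ν ν') f g := by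
  have F := O.fd
  have vb := R.vb F
  have qb := R.qb O.perm
  have sc := R.scale O.perm qb
  have da := R.da F
  have zf := R.zf F qb da (R.dm O.shift da)
  have gb := R.gcsB qb
  have gd := R.gcsD O.shift qb da gb
  have lk := R.link F
  have mo := R.mono F vb qb lk gb
  have nb := R.nb F vb qb da zf gd (R.zero F O.nest da lk) mo
  have ni := R.nulInv F O.perm qb sc
  have cc := R.conc F vb qb zf gd mo ni
  have ki := R.kill vb qb da zf gd
  have wi := R.wie O.apx
  have m2 : MX ν' := R.mxa O.vdc O.gvn qb ν' h2 hi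
  have m1 : MX ν := R.mxb ν ν' m2 hu
  have bd : Bd (df ν ν') := T3S.Asm.bd_sub h1 h2
  have hy : Hy ν ν' :=
    ⟨bd, R.v1 vb qb zf ki ν h1 (R.c1 vb qb da wi ν h1 m1),
      R.v1 vb qb zf ki ν' h2 (R.c1 vb qb da wi ν' h2 m2),
      R.v2 vb qb zf ki ν h1 (R.c2 vb qb da wi ν ν' h1 h2 hi m1 hq),
      R.v2 vb qb zf ki ν' h2 (R.c2 vb qb da wi ν' ν' h2 h2 hi m2 (R.near.sq0 ν')),
      R.pl vb qb da zf _ bd hs⟩
  have la := R.liftA F
  have lb := R.liftB F vb la
  have lt := R.lb F vb qb ni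
  have cl := R.cl F vb zf
  have g3 := R.g3 F vb zf nb (R.intr F vb zf nb cc)
  have g5 := R.g5 F vb zf nb la lb lt cl (R.g4 F vb zf nb cc la lb lt cl g3)
  have ky := R.key F vb
  have g0 := R.g0 O.gvn vb qb mo
  refine R.topr F O.gf O.top vb ν ν' h1 h2 e1 e2 s1 s2 (fun Y hY => ?_) X f g hf hg
  obtain ⟨B, hB⟩ := g5 ν ν' hy _ _ R.near.tw.1 Y hY
  obtain ⟨B', hB'⟩ := g5 ν ν' hy _ _ R.near.tw.2 Y hY
  exact R.hullr F vb (R.own F vb ky g0) (R.forr F vb ky g0) ν ν' h1 h2 hi Y B B' hY hB hB'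

theorem mainOf (R : Rows) (O : Old) : MainS := by
  intro σ hσ ha hg hU Ω _ P _ E hE hind hP
  have h0 : ∀ n, 0 ≤ σ n := fun n => (hσ n).1
  have hg1 := R.near.gr σ h0 hg
  have hW := T3S.Asm.wt_tendsto h0 hg1
  filter_upwards [hU Ω P E hE hind hP, R.sq O.ub (R.wie O.apx) σ hσ hg Ω P E hE hind hP,
    R.st O.ub O.apx O.cov σ hσ hg1 Ω P E hE hind hP, O.ae σ hσ Ω P E hE hind hP hg1,
    O.cls σ hσ Ω P E hE hind hP hg1] with ω u1 u2 u3 u4 u5 X _ μ _ T f hT hC hf
  obtain ⟨a1, a2, a3, a4, a5⟩ := O.nrm.1 σ _ h0 hW u4.1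
  have hi := O.nrm.2.2.2 σ h0 ha hW
  have e2 : Erg (nb σ) := O.erg.1 _ a2 hi
  have e1 : Erg (nu fun m => ω ∈ E m) := O.erg.2 _ _ e2 (O.nrm.2.1 _ _ a4 u4.1)
  obtain ⟨s1, s2⟩ := O.spr _ _ _ a2 hi a4 u5
  have a4' : Near (yw σ fun m => ω ∈ E m) (df (nu fun m => ω ∈ E m) (nb σ)) := by
    refine a4.congr fun M => Finset.sum_congr rfl fun d _ => abs_sub_comm _ _
  refine O.endr σ _ h0 ha hW a5 2 X μ T hT hC
    (R.endr O.act _ (fun Y f g hf hg => ?_) a3 X μ T hT hC) f hf
  exact (R.vb O.fd).near Y _ _ _ _ f g a4' hf hg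
    (detOf R O a1 a2 e1 e2 s1 s2 hi (R.near.uw _ _ a4 u1) (R.near.sq _ _ a4 u2)
      (R.near.st _ _ a4 u3) Y f g hf hg)

end T6

end

end PkAsm

section PkVB

/-! Row VB: calculus of the weighted double averages. -/

set_option autoImplicit false
set_option linter.unusedVariables false
set_option warn.classDefReducibility false

open MeasureTheory ProbabilityTheory Filter Topology Function
open scoped BigOperators ComplexConjugate

noncomputable section

namespace T6

open Pool.Agent.MP_154433_an hiding BM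
open T3S (B1 MB1 PW AsInv Erg Bd Near Gr yw dif CZ)
open T4S (Gm Act ddX QX ln Spr Concl)
open Fib27 (BM)
open T3x (nul pull gen)
open T4x (Fac Emb Inv Nice Pair Star KK Fd)

namespace VB

variable {X : Sy} {a b : Gm 2} {κ κ' : ℕ → ℝ} {M : ℕ} {f f' g g' c : X.X → ℂ}

/-- the weighted double average -/
def av (X : Sy) (a b : Gm 2) (κ : ℕ → ℝ) (M : ℕ) (f g : X.X → ℂ) (x : X.X) : ℂ :=
  ∑ d ∈ Finset.range M, (κ d : ℂ) * (f (X.A ((d : ℤ) • a) x) * g (X.A ((d : ℤ) • b) x))

lemma nn_eq : NN X a b κ M f g = ∫ x, ‖av X a b κ M f g x‖ ∂X.μ := rfl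

lemma tz_ae (v : Gm 2) (h : f =ᵐ[X.μ] f') :
    (fun x => f (X.A v x)) =ᵐ[X.μ] fun x => f' (X.A v x) :=
  (X.mp v).quasiMeasurePreserving.ae_eq_comp h

lemma tz_int (v : Gm 2) (h : Integrable g X.μ) : Integrable (fun x => g (X.A v x)) X.μ :=
  (X.mp v).integrable_comp_of_integrable h

lemma av_int (hf : MB X f) (hg : Integrable g X.μ) : Integrable (av X a b κ M f g) X.μ :=
  integrable_finsetSum _ fun d _ => ((tz_int _ hg).bdd_mul (c := 1)
    ((act X).tz hf _).1.aestronglyMeasurable (Eventually.of_forall fun x => hf.2 _)).const_mul _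

lemma mint (hf : MB X f) : Integrable f X.μ := hf.integrable _

lemma le_of {u v w : X.X → ℂ} (hv : Integrable v X.μ) (hw : Integrable w X.μ)
    (h : ∀ x, u x = v x + w x) :
    ∫ x, ‖u x‖ ∂X.μ ≤ ∫ x, ‖v x‖ ∂X.μ + ∫ x, ‖w x‖ ∂X.μ := by
  rw [← integral_add hv.norm hw.norm]
  exact integral_mono_of_nonneg (Eventually.of_forall fun x => norm_nonneg _) (hv.norm.add hw.norm)
    (Eventually.of_forall fun x => (congrArg norm (h x)).trans_le (norm_add_le _ _))

lemma nn0 : 0 ≤ NN X a b κ M f g := integral_nonneg fun _ => norm_nonneg _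

lemma add' (hf : MB X f) (hg : Integrable g X.μ) (hg' : Integrable g' X.μ) :
    NN X a b κ M f (fun x => g x + g' x) ≤ NN X a b κ M f g + NN X a b κ M f g' :=
  le_of (av_int hf hg) (av_int hf hg') fun x => by
    simp only [mul_add, Finset.sum_add_distrib]

lemma smul' (c : ℂ) : NN X a b κ M f (fun x => c * g x) = ‖c‖ * NN X a b κ M f g := by
  rw [nn_eq, nn_eq, ← integral_const_mul]
  refine integral_congr_ae (Eventually.of_forall fun x => ?_)
  simp only [av]
  rw [← norm_mul, Finset.mul_sum]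
  exact congrArg _ (Finset.sum_congr rfl fun d _ => by ring)

lemma bound (hf : MB X f) (hg : Integrable g X.μ) :
    NN X a b κ M f g ≤ (∑ d ∈ Finset.range M, |κ d|) * ∫ x, ‖g x‖ ∂X.μ := by
  have i : ∀ d : ℕ, Integrable (fun x => |κ d| * ‖g (X.A ((d : ℤ) • b) x)‖) X.μ :=
    fun d => (tz_int _ hg).norm.const_mul _
  have e : (∑ d ∈ Finset.range M, |κ d|) * ∫ x, ‖g x‖ ∂X.μ =
      ∫ x, ∑ d ∈ Finset.range M, |κ d| * ‖g (X.A ((d : ℤ) • b) x)‖ ∂X.μ := by
    rw [integral_finsetSum _ fun d _ => i d, Finset.sum_mul]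
    refine Finset.sum_congr rfl fun d _ => ?_
    rw [integral_const_mul, (act X).integral _ (f := fun x => ‖g x‖) hg.norm.1]
  rw [e]
  refine integral_mono_of_nonneg (Eventually.of_forall fun x => norm_nonneg _)
    (integrable_finsetSum _ fun d _ => i d) (Eventually.of_forall fun x => ?_)
  refine (norm_sum_le _ _).trans (Finset.sum_le_sum fun d _ => ?_)
  rw [norm_mul, norm_mul, Complex.norm_real, Real.norm_eq_abs]
  exact mul_le_mul_of_nonneg_left (mul_le_of_le_one_left (norm_nonneg _) (hf.2 _)) (abs_nonneg _)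

lemma lip' (hf : MB X f) (hg : Integrable g X.μ) (hg' : Integrable g' X.μ) :
    NN X a b κ M f g ≤ NN X a b κ M f g' +
      (∑ d ∈ Finset.range M, |κ d|) * ∫ x, ‖g x - g' x‖ ∂X.μ := by
  have h := add' (a := a) (b := b) (κ := κ) (M := M) hf hg' (hg.sub hg')
  simp only [Pi.sub_apply, add_sub_cancel] at h
  exact h.trans (add_le_add le_rfl (bound hf (hg.sub hg')))

lemma tri' (hf : MB X f) (hg : MB X g) :
    NN X a b κ M f g ≤ NN X a b κ' M f g + NN X a b (fun d => κ d - κ' d) M f g :=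
  le_of (av_int hf (hg.integrable _)) (av_int hf (hg.integrable _)) fun x => by
    simp only [← Finset.sum_add_distrib]
    exact Finset.sum_congr rfl fun d _ => by push_cast; ring

lemma sub' (hf : MB X f) (hg : MB X g) :
    NN X a b (fun d => κ d - κ' d) M f g ≤ NN X a b κ M f g + NN X a b κ' M f g := by
  have h := le_of (u := av X a b (fun d => κ d - κ' d) M f g)
    (av_int (a := a) (b := b) (κ := κ) (M := M) hf (hg.integrable _))
    (av_int (a := a) (b := b) (κ := κ') (M := M) hf (hg.integrable _)).neg fun x => by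
      simp only [av, Pi.neg_apply, ← sub_eq_add_neg, ← Finset.sum_sub_distrib]
      exact Finset.sum_congr rfl fun d _ => by push_cast; ring
  simpa only [Pi.neg_apply, norm_neg, nn_eq] using h

/-- the shifts that keep `c` -/
def stab (X : Sy) (c : X.X → ℂ) : AddSubgroup (Gm 2) where
  carrier := {v | (fun x => c (X.A v x)) =ᵐ[X.μ] c}
  zero_mem' := by
    show (fun x => c (X.A 0 x)) =ᵐ[X.μ] c
    exact EventuallyEq.of_eq (funext fun x => congrArg c ((act X).zero x))
  add_mem' := fun {v w} hv hw => (EventuallyEq.of_eq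
    (funext fun x => congrArg c ((act X).add v w x))).trans ((tz_ae w hv).trans hw)
  neg_mem' := fun {v} hv => (tz_ae (-v) hv).symm.trans (Eventually.of_forall fun x => by
    show c (X.A v (X.A (-v) x)) = c x
    rw [← (act X).add, add_neg_cancel, (act X).zero])

lemma ivz' {u : Gm 2} (n : ℤ) (h : IvF X u c) : IvF X (n • u) c :=
  ⟨h.1, (stab X c).zsmul_mem h.2 n⟩

lemma move' (h : IvF X (b - a) c) :
    NN X a b κ M f (fun x => c x * g x) = NN X a b κ M (fun x => f x * c x) g := by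
  have e : ∀ d : ℕ, ∀ᵐ x ∂X.μ, c (X.A ((d : ℤ) • b) x) = c (X.A ((d : ℤ) • a) x) := fun d => by
    filter_upwards [tz_ae ((d : ℤ) • a) (ivz' d h).2] with x hx
    rw [← hx, ← (act X).add, smul_sub, sub_add_cancel]
  refine integral_congr_ae ?_
  filter_upwards [ae_all_iff.2 e] with x hx
  exact congrArg _ (Finset.sum_congr rfl fun d _ => by rw [hx d]; ring)

variable {w w' : ℕ → ℕ → ℝ}

lemma vadd (hf : MB X f) (hg : Integrable g X.μ) (hg' : Integrable g' X.μ)
    (h : Vn X a b w f g) (h' : Vn X a b w f g') : Vn X a b w f fun x => g x + g' x :=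
  squeeze_zero (fun _ => nn0) (fun _ => add' hf hg hg') (by simpa using h.add h')

lemma vsmul (c : ℂ) (h : Vn X a b w f g) : Vn X a b w f fun x => c * g x := by
  simpa only [Vn, smul', mul_zero] using h.const_mul ‖c‖

lemma span' {T : Set (X.X → ℂ)} (hw : Bd w) (hf : MB X f) (hg : Integrable g X.μ)
    (hT : ∀ φ ∈ T, Integrable φ X.μ ∧ Vn X a b w f φ)
    (h : ∀ ε : ℝ, 0 < ε → ∃ φ ∈ Submodule.span ℂ T, ∫ x, ‖g x - φ x‖ ∂X.μ ≤ ε) :
    Vn X a b w f g := by
  have key : ∀ φ ∈ Submodule.span ℂ T, Integrable φ X.μ ∧ Vn X a b w f φ := fun φ hφ => by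
    induction hφ using Submodule.span_induction with
    | mem φ h => exact hT φ h
    | zero => exact ⟨integrable_zero _ _ _, by simp [Vn, NN]⟩
    | add φ ψ _ _ h1 h2 => exact ⟨h1.1.add h2.1, vadd hf h1.1 h2.1 h1.2 h2.2⟩
    | smul c φ _ h1 => exact ⟨h1.1.smul c, vsmul c h1.2⟩
  refine Metric.tendsto_nhds.2 fun ε hε => ?_
  obtain ⟨φ, hφ, e⟩ := h (ε / 6) (by positivity)
  filter_upwards [hw, (key φ hφ).2.eventually (gt_mem_nhds (half_pos hε))] with M h1 h2
  rw [Real.dist_0_eq_abs, abs_of_nonneg nn0]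
  have h3 := lip' (a := a) (b := b) (κ := w M) (M := M) hf hg (key φ hφ).1
  have h4 := mul_le_mul h1 e (integral_nonneg fun _ => norm_nonneg _) (by norm_num)
  linarith

lemma near' (hw : Near w w') (hf : MB X f) (hg : MB X g) (h : Vn X a b w' f g) :
    Vn X a b w f g := by
  have i : ∫ x, ‖g x‖ ∂X.μ ≤ 1 := by
    simpa using integral_mono (hg.integrable X.μ).norm (integrable_const (1 : ℝ)) hg.2
  refine squeeze_zero (fun _ => nn0) (fun M => (tri' (κ' := w' M) hf hg).trans
    (add_le_add le_rfl ((bound hf (hg.integrable _)).trans (mul_le_of_le_one_right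
      (Finset.sum_nonneg fun _ _ => abs_nonneg _) i)))) (by simpa using h.add hw)

lemma mb_half (hg : MB X g) (hg' : MB X g') : MB X fun x => (2⁻¹ : ℂ) * (g x - g' x) := by
  refine ⟨(hg.1.sub hg'.1).const_mul _, fun x => ?_⟩
  have := norm_sub_le (g x) (g' x)
  have := hg.2 x
  have := hg'.2 x
  rw [norm_mul, norm_inv, Complex.norm_ofNat]
  linarith

lemma split' {β : X.X → ℂ} (hf : MB X f) (hg : MB X g) (hg' : MB X g') (hβ : MB X β)
    (h1 : Vn X a b w f fun x => g' x * β x)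
    (h2 : Vn X a b w f fun x => (2⁻¹ : ℂ) * (g x - g' x) * β x) :
    Vn X a b w f fun x => g x * β x := by
  have h := vadd hf ((hg'.mul hβ).integrable _)
    ((((mb_half hg hg').mul hβ).integrable _).const_mul 2) h1 (vsmul 2 h2)
  exact (congrArg _ (funext fun x => by ring)).mp h

end VB

open VB in
theorem vb : VBR := fun F =>
  { swap := fun X a b κ M f g => by simp only [NN, mul_comm (f _)]
    nonneg := fun _ _ _ _ _ _ _ => nn0
    congr := fun X a b κ M f f' g g' h h' => by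
      refine integral_congr_ae ?_
      filter_upwards [ae_all_iff.2 fun d : ℕ => tz_ae ((d : ℤ) • a) h,
        ae_all_iff.2 fun d : ℕ => tz_ae ((d : ℤ) • b) h'] with x h1 h2
      exact congrArg _ (Finset.sum_congr rfl fun d _ => by rw [h1 d, h2 d])
    sub := fun _ _ _ _ _ _ _ _ => sub'
    tri := fun _ _ _ _ _ _ _ _ => tri'
    lip := fun _ _ _ _ _ _ _ _ => lip'
    smul := fun _ _ _ _ _ _ _ => smul'
    add := fun _ _ _ _ _ _ _ _ => add'
    move := fun _ _ _ _ _ _ _ _ => move'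
    span := fun _ _ _ _ _ _ _ => span'
    near := fun _ _ _ _ _ _ _ => near'
    split := fun _ _ _ _ _ _ _ _ => split'
    ver := fun X Y G hY hG => by
      obtain ⟨G', m, b, e⟩ := F.a.rep Y X.μ (X.μ[G | Y]) 1 zero_le_one
        stronglyMeasurable_condExp.aestronglyMeasurable
        (ae_bdd_norm_condExp_of_ae_bdd_norm (Eventually.of_forall hG.2))
      exact ⟨G', ⟨⟨m.mono hY.le le_rfl, b⟩, e.symm⟩, m⟩
    half := fun X Y G G' hY hG hV => by
      refine ⟨mb_half hG hV.1, ?_⟩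
      have e1 := condExp_smul (μ := X.μ) (2⁻¹ : ℂ) (G - G') Y
      have e2 := condExp_sub (mint hG) (mint hV.1) Y
      have e3 := (condExp_congr_ae (m := Y) hV.2).trans
        (condExp_condExp_of_le (μ := X.μ) (f := G) le_rfl hY.le)
      refine EventuallyEq.trans e1 ?_
      filter_upwards [e2, e3] with x h2 h3
      simp only [Pi.smul_apply, h2, Pi.sub_apply, h3, sub_self, smul_zero, Pi.zero_apply]
    fle := fun X Y Y' hY hY' h A hA => by
      have mA : Measurable[Y] (A.indicator fun _ => (1 : ℂ)) := measurable_const.indicator hA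
      obtain ⟨c, hc, e⟩ := (h _ ⟨mA.mono hY.le le_rfl, fun x => by
        by_cases hx : x ∈ A <;> simp [hx]⟩ mA).1
      have k := (F.a.mem Y' X.μ hY'.le A).2 ⟨hY.le A hA, c ⁻¹' {1},
        hc.measurable (measurableSet_singleton _), by
          filter_upwards [e] with x hx
          by_cases hA : x ∈ A
          · rw [Set.indicator_of_mem hA] at hx
            exact propext ⟨fun _ => hx.symm, fun _ => hA⟩
          · rw [Set.indicator_of_notMem hA] at hx
            exact propext ⟨fun h => (hA h).elim, fun h => (zero_ne_one (hx.trans h)).elim⟩⟩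
      rwa [sup_eq_left.2 hY'.nl] at k
    ivf := fun X u c hc => by
      have k := F.t.inv_iff X {u} c hc.1.aestronglyMeasurable
      exact ⟨fun h => ⟨k.2 fun v hv => hv ▸ h.2, 1, Eventually.of_forall hc.2⟩,
        fun h => ⟨hc, k.1 h.1 u rfl⟩⟩
    ivz := fun _ _ _ => ivz' }

end T6

end

end PkVB

section PkQB

/-! Row QB: calculus of the box functionals. -/

set_option autoImplicit false
set_option linter.unusedVariables false

open MeasureTheory ProbabilityTheory Filter Topology Function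
open scoped BigOperators ComplexConjugate

noncomputable section

namespace T6

open Pool.Agent.MP_154433_an hiding BM
open T3S (B1 MB1)
open T4S (Gm Act ddX QX ln)

namespace QB

lemma nil (X : Sy) (H : ℕ) (g : X.X → ℂ) : QE X [] H g = (∫ x, g x ∂X.μ).re := rfl

lemma cons (X : Sy) (u : Gm 2) (L : List (Gm 2)) (H : ℕ) (g : X.X → ℂ) :
    QE X (u :: L) H g = 𝔼 h : Fin H, 𝔼 h' : Fin H,
      QE X L H (ddX X.A ((((h' : ℕ) : ℤ) - ((h : ℕ) : ℤ)) • u) g) :=
  T4S.QX_ln X.μ X.A u H _ g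

lemma av (X : Sy) (u : Gm 2) (H : ℕ) {g : X.X → ℂ} (hg : MB X g) :
    MB X fun x => 𝔼 h : Fin H, g (X.A (((h : ℕ) : ℤ) • u) x) :=
  ⟨T3S.meas_exp _ fun h _ => ((act X).tz hg _).1,
    fun x => T3S.norm_exp_le_of zero_le_one fun h _ => hg.2 _⟩

lemma one (X : Sy) (u : Gm 2) (H : ℕ) {g : X.X → ℂ} (hg : MB X g) :
    QE X [u] H g = ∫ x, ‖𝔼 h : Fin H, g (X.A (((h : ℕ) : ℤ) • u) x)‖ ^ 2 ∂X.μ := by
  have hi : ∀ h h' : Fin H, MB X fun x =>
      g (X.A (((h' : ℕ) : ℤ) • u) x) * conj (g (X.A (((h : ℕ) : ℤ) • u) x)) := fun h h' =>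
    ((act X).tz hg _).mul ((act X).tz hg _).cj
  rw [← Complex.ofReal_re (∫ x, _ ∂X.μ), ← integral_complex_ofReal]
  simp only [T3S.Vdc.sq_exp]
  rw [T3S.integral_exp _ fun h _ => MB1.integrable ⟨T3S.meas_exp _ fun h' _ => (hi h h').1,
    fun x => T3S.norm_exp_le_of zero_le_one fun h' _ => (hi h h').2 x⟩ X.μ, T3S.re_exp, cons]
  refine Finset.expect_congr rfl fun h _ => ?_
  rw [T3S.integral_exp _ fun h' _ => (hi h h').integrable X.μ, T3S.re_exp]
  refine Finset.expect_congr rfl fun h' _ => ?_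
  rw [nil, ← (act X).integral (((h : ℕ) : ℤ) • u) ((act X).dd hg _).1.aestronglyMeasurable]
  simp only [ddX, ← (act X).add, sub_smul, sub_add_cancel]

lemma jen {ι : Type} [Fintype ι] [Nonempty ι] (a : ι → ℝ) : (𝔼 i, a i) ^ 2 ≤ 𝔼 i, a i ^ 2 := by
  simpa using Finset.expect_mul_sq_le_sq_mul_sq Finset.univ a fun _ => 1

lemma sq_int (X : Sy) {G : X.X → ℂ} (hG : MB X G) :
    (∫ x, G x ∂X.μ).re ^ 2 ≤ ∫ x, ‖G x‖ ^ 2 ∂X.μ := by
  have i1 := (hG.integrable X.μ).norm
  have i2 : Integrable (fun x => ‖G x‖ ^ 2) X.μ := by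
    simpa only [norm_mul, RCLike.norm_conj, sq] using ((hG.mul hG.cj).integrable X.μ).norm
  obtain ⟨c, hc⟩ : ∃ c, c = ∫ x, ‖G x‖ ∂X.μ := ⟨_, rfl⟩
  have h1 : |(∫ x, G x ∂X.μ).re| ≤ c :=
    (Complex.abs_re_le_norm _).trans (hc ▸ norm_integral_le_integral_norm _)
  have h2 : ∫ x, (2 * c * ‖G x‖ - c ^ 2) ∂X.μ ≤ ∫ x, ‖G x‖ ^ 2 ∂X.μ :=
    integral_mono ((i1.const_mul _).sub (integrable_const _)) i2 fun x => by
      nlinarith [sq_nonneg (‖G x‖ - c)]
  rw [integral_sub (i1.const_mul _) (integrable_const _), integral_const_mul, ← hc,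
    integral_const, probReal_univ, one_smul] at h2
  have h3 := pow_le_pow_left₀ (abs_nonneg _) h1 2
  rw [sq_abs] at h3
  linarith

lemma mono' (X : Sy) (u : Gm 2) (L : List (Gm 2)) (H : ℕ) (hH : 1 ≤ H) {g : X.X → ℂ}
    (hg : MB X g) : QE X L H g ^ 2 ≤ QE X (L ++ [u]) H g := by
  have : Nonempty (Fin H) := ⟨⟨0, hH⟩⟩
  induction L generalizing g with
  | nil =>
    rw [List.nil_append, one X u H hg, nil]
    refine le_trans (le_of_eq ?_) (sq_int X (av X u H hg))
    rw [T3S.integral_exp _ fun h _ => ((act X).tz hg _).integrable X.μ]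
    simp only [(act X).integral _ hg.1.aestronglyMeasurable, Fintype.expect_const]
  | cons v L ih =>
    rw [List.cons_append, cons, cons]
    refine (jen _).trans (Finset.expect_le_expect fun h _ => ?_)
    exact (jen _).trans (Finset.expect_le_expect fun h' _ => ih ((act X).dd hg _))

lemma elc' (X : Sy) (Φ : ℕ → (X.X → ℂ) → (X.X → ℂ) → ℝ) (Ψ : (X.X → ℂ) → (X.X → ℂ) → ℝ)
    (F : X.X → ℂ) (ε K : ℝ) (H : ℕ) (hH : 1 ≤ H) (L : List (Gm 2)) (j : ℕ)
    (h : ∀ f g, MB X f → g ∈ Der X F (j + L.length) → ∀ᶠ M in atTop, Φ M f g ≤ ε + K * Ψ f g)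
    (f g : X.X → ℂ) (hf : MB X f) (hg : g ∈ Der X F j) :
    ∀ᶠ M in atTop, EL X H L (Φ M) f g ≤ ε + K * EL X H L Ψ f g := by
  have : Nonempty (Fin H) := ⟨⟨0, hH⟩⟩
  induction L generalizing j f g with
  | nil => exact h f g hf hg
  | cons u L ih =>
    have h' : ∀ f g, MB X f → g ∈ Der X F (j + 1 + L.length) →
        ∀ᶠ M in atTop, Φ M f g ≤ ε + K * Ψ f g := by
      rw [add_assoc, add_comm 1]; exact h
    filter_upwards [eventually_all.2 fun a : Fin H => eventually_all.2 fun a' : Fin H =>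
      ih (j + 1) h' _ _ ((act X).dd hf ((((a' : ℕ) : ℤ) - ((a : ℕ) : ℤ)) • u))
        ⟨(((a' : ℕ) : ℤ) - ((a : ℕ) : ℤ)) • u, g, hg, rfl⟩] with M hM
    simp only [EL]
    refine (Finset.expect_le_expect fun a _ => Finset.expect_le_expect fun a' _ =>
      hM a a').trans (le_of_eq ?_)
    simp only [Finset.expect_add_distrib, Fintype.expect_const, Finset.mul_expect]

end QB

open QB in
theorem qb : QBR := by
  intro hP
  have perm : ∀ X (L L' : List (Gm 2)) H g, L.Perm L' → QE X L H g = QE X L' H g :=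
    fun X L L' H g h => hP 2 X.X X.μ X.A (act X) _ _ (h.map _) g
  refine ⟨fun X L H g g' h => ?_, perm, fun X u L H g => ?_, fun X L H g hL hg => ?_,
    fun X L H g hg => ?_, fun X L H g v hg => (act X).QX_tz _ v hg, fun X L H g => ?_,
    fun X L L' H f g => ?_, fun X L L' H f g => ?_, fun X u L H g hH hg => ?_,
    fun X Φ Ψ F ε K H L hH hF h f hf => ?_, fun X F k G hF hG => ?_, fun n ε hε => ?_⟩
  · induction L generalizing g g' with
    | nil => rw [nil, nil, integral_congr_ae h]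
    | cons u L ih =>
      rw [cons, cons]
      refine Finset.expect_congr rfl fun a _ => Finset.expect_congr rfl fun a' _ => ih _ _ ?_
      filter_upwards [h, ((act X).mp ((((a' : ℕ) : ℤ) - ((a : ℕ) : ℤ)) • u)
        ).quasiMeasurePreserving.ae h] with x h1 h2
      simp only [ddX, h1, h2]
  · rw [cons, cons, Finset.expect_comm]
    refine Finset.expect_congr rfl fun a _ => Finset.expect_congr rfl fun a' _ => ?_
    rw [smul_neg, ← neg_smul, neg_sub]
  · induction L generalizing g with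
    | nil => exact absurd rfl hL
    | cons u L ih =>
      rcases eq_or_ne L [] with rfl | h
      · rw [one X u H hg]
        exact integral_nonneg fun _ => by positivity
      · rw [cons]
        exact Finset.expect_nonneg fun a _ => Finset.expect_nonneg fun a' _ =>
          ih _ h ((act X).dd hg _)
  · induction L generalizing g with
    | nil =>
      rw [nil]
      refine (Complex.re_le_norm _).trans ?_
      simpa using norm_integral_le_of_norm_le_const (μ := X.μ) (Eventually.of_forall hg.2)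
    | cons u L ih =>
      rw [cons]
      exact T3S.exp_le_of_le zero_le_one fun a _ => T3S.exp_le_of_le zero_le_one fun a' _ =>
        ih _ ((act X).dd hg _)
  · induction L generalizing g with
    | nil => rw [nil, nil, integral_conj, Complex.conj_re]
    | cons u L ih =>
      rw [cons, cons]
      refine Finset.expect_congr rfl fun a _ => Finset.expect_congr rfl fun a' _ => ?_
      rw [← ih (ddX _ _ g)]
      congr 1
      funext x
      simp only [ddX, map_mul]
  · induction L generalizing f g with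
    | nil => rfl
    | cons u L ih =>
      rw [List.cons_append, cons]
      exact Finset.expect_congr rfl fun a _ => Finset.expect_congr rfl fun a' _ => ih _ _
  · induction L generalizing f g with
    | nil => rfl
    | cons u L ih =>
      rw [List.cons_append, cons]
      exact Finset.expect_congr rfl fun a _ => Finset.expect_congr rfl fun a' _ => ih _ _
  · rw [← perm X _ _ H g (List.perm_append_singleton u L)]
    exact mono' X u L H hH hg
  · exact elc' X Φ Ψ F ε K H hH L 0 (by rwa [zero_add]) f F hf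
      ⟨0, funext fun x => by rw [(act X).zero]⟩
  · induction k generalizing G with
    | zero =>
      obtain ⟨w, rfl⟩ := hG
      exact ⟨(act X).tz hF w, fun v => ⟨w + v, funext fun x => by rw [(act X).add]⟩⟩
    | succ k ih =>
      obtain ⟨w, G', h1, rfl⟩ := hG
      refine ⟨(act X).dd (ih G' h1).1 w, fun v => ⟨w, _, (ih G' h1).2 v, funext fun x => ?_⟩⟩
      simp only [ddX, (act X).comm v]
  · obtain ⟨m, hm⟩ : ∃ m, 2 ^ n = m + 1 := ⟨2 ^ n - 1, by have := Nat.one_le_two_pow (n := n); omega⟩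
    refine ⟨1 / ε ^ m, by positivity, fun x y hy h => ?_⟩
    have h0 : 0 ≤ 1 / ε ^ m * y := by positivity
    rcases le_or_gt x ε with h1 | h1
    · linarith
    · have h2 : x * ε ^ m ≤ y := by
        rw [hm, pow_succ'] at h
        exact (mul_le_mul_of_nonneg_left (pow_le_pow_left₀ hε.le h1.le m) (hε.trans h1).le).trans h
      have h3 : x ≤ 1 / ε ^ m * y := by
        rwa [one_div, ← div_eq_inv_mul, le_div_iff₀ (by positivity)]
      linarith

end T6

end

end PkQB

section PkScale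

/-! Row Scale: long boxes are below boxes of given lengths. -/

set_option autoImplicit false
set_option linter.unusedVariables false
set_option warn.classDefReducibility false

open MeasureTheory ProbabilityTheory Filter Topology Function
open scoped BigOperators ComplexConjugate InnerProductSpace

noncomputable section

namespace T6

open Pool.Agent.MP_154433_an hiding BM
open T3S (B1 MB1)
open T4S (Gm Act ddX QX ln Fam)

namespace Scale

variable {l : ℕ} {X : Type} [MeasurableSpace X] {μ : Measure X} {A : Gm l → X → X}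

/-- composition with one map of the action -/
def V (hA : Act μ A) (v : Gm l) : Lp ℂ 2 μ →ₗᵢ[ℂ] Lp ℂ 2 μ :=
  Lp.compMeasurePreservingₗᵢ ℂ (A v) (hA.mp v)

lemma V_ae (hA : Act μ A) (v : Gm l) (f : Lp ℂ 2 μ) :
    (V hA v f : X → ℂ) =ᵐ[μ] fun x => f (A v x) :=
  Lp.coeFn_compMeasurePreserving f (hA.mp v)

lemma V_add (hA : Act μ A) (v w : Gm l) (f : Lp ℂ 2 μ) : V hA (v + w) f = V hA w (V hA v f) := by
  refine Lp.ext ?_
  have h1 := (hA.mp w).quasiMeasurePreserving.ae_eq_comp (V_ae hA v f)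
  filter_upwards [V_ae hA (v + w) f, V_ae hA w (V hA v f), h1] with x e1 e2 e3
  rw [e1, e2, hA.add]
  exact e3.symm

/-- the average over a family of steps -/
def av (hA : Act μ A) (F : Fam l) (f : Lp ℂ 2 μ) : Lp ℂ 2 μ :=
  ((Fintype.card F.ι : ℂ))⁻¹ • ∑ h : F.ι, V hA (F.a h) f

lemma inner_V (hA : Act μ A) {g : X → ℂ} (hg : MB1 g) {G : Lp ℂ 2 μ} (hG : (G : X → ℂ) =ᵐ[μ] g)
    (v w : Gm l) : ⟪V hA v G, V hA w G⟫_ℂ = ∫ x, ddX A (w - v) g x ∂μ := by
  rw [← hA.integral v (hA.dd hg (w - v)).1.aestronglyMeasurable, L2.inner_def]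
  refine integral_congr_ae ?_
  have h1 := (hA.mp v).quasiMeasurePreserving.ae_eq_comp hG
  have h2 := (hA.mp w).quasiMeasurePreserving.ae_eq_comp hG
  filter_upwards [V_ae hA v G, V_ae hA w G, h1, h2] with x e1 e2 e3 e4
  simp only [Function.comp_apply] at e3 e4
  rw [e1, e2, e3, e4, ddX, ← hA.add, sub_add_cancel]
  simp

lemma QX_eq (hA : Act μ A) {g : X → ℂ} (hg : MB1 g) {G : Lp ℂ 2 μ} (hG : (G : X → ℂ) =ᵐ[μ] g)
    (F : Fam l) : QX μ A [F] g = ‖av hA F G‖ ^ 2 := by
  rw [← @inner_self_eq_norm_sq ℂ, av, inner_smul_left, inner_smul_right, sum_inner]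
  simp only [inner_sum, inner_V hA hg hG, QX, Fintype.expect_eq_sum_div_card]
  rw [← Finset.sum_div, div_div, ← mul_assoc]
  have : conj ((Fintype.card F.ι : ℂ))⁻¹ * ((Fintype.card F.ι : ℂ))⁻¹ =
      ((((Fintype.card F.ι : ℝ) * (Fintype.card F.ι : ℝ))⁻¹ : ℝ) : ℂ) := by
    rw [map_inv₀, Complex.conj_natCast]
    push_cast
    rw [mul_inv]
  rw [this, RCLike.re_to_complex, Complex.re_ofReal_mul, div_eq_inv_mul]
  simp only [Complex.re_sum]

lemma shift_le {E : Type} [SeminormedAddCommGroup E] {F : ℕ → E} (hF : ∀ n, ‖F n‖ ≤ 1) (H k : ℕ) :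
    ‖∑ h ∈ Finset.range H, F h - ∑ h ∈ Finset.range H, F (k + h)‖ ≤ 2 * k := by
  have e1 := Finset.sum_range_add F k H
  have e2 := Finset.sum_range_add F H k
  rw [add_comm H k, e1] at e2
  have e3 : ∑ h ∈ Finset.range H, F h - ∑ h ∈ Finset.range H, F (k + h) =
      ∑ h ∈ Finset.range k, F h - ∑ h ∈ Finset.range k, F (H + h) := by
    rw [sub_eq_sub_iff_add_eq_add, ← e2]
  have b : ∀ G : ℕ → E, (∀ n, ‖G n‖ ≤ 1) → ‖∑ h ∈ Finset.range k, G h‖ ≤ k := fun G hG =>
    (norm_sum_le _ _).trans ((Finset.sum_le_sum fun n _ => hG n).trans (by simp))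
  rw [e3]
  refine (norm_sub_le _ _).trans ?_
  linarith [b F hF, b (fun h => F (H + h)) fun n => hF _]

lemma norm_av (hA : Act μ A) (u : Gm l) (G : Lp ℂ 2 μ) (H : ℕ) : ‖av hA (ln u H) G‖ =
    ‖∑ h ∈ Finset.range H, V hA (((h : ℕ) : ℤ) • u) G‖ / H := by
  have h2 : av hA (ln u H) G =
      ((Fintype.card (Fin H) : ℂ))⁻¹ • ∑ h : Fin H, V hA (((h : ℕ) : ℤ) • u) G := rfl
  rw [h2, Finset.sum_range, Fintype.card_fin, norm_smul, norm_inv, Complex.norm_natCast,
    div_eq_inv_mul]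

lemma one [IsProbabilityMeasure μ] (hA : Act μ A) (u : Gm l) {H K : ℕ} (hH : 1 ≤ H) (hK : 1 ≤ K)
    {g : X → ℂ} (hg : MB1 g) : QX μ A [ln u H] g ≤ QX μ A [ln u K] g + 4 * K / H := by
  have hm : MemLp g 2 μ := MemLp.of_bound hg.1.aestronglyMeasurable 1 (ae_of_all _ hg.2)
  have hG : ((hm.toLp g : Lp ℂ 2 μ) : X → ℂ) =ᵐ[μ] g := hm.coeFn_toLp
  have hn : ‖hm.toLp g‖ ≤ 1 := by
    have := Lp.norm_le_of_ae_bound (f := hm.toLp g) zero_le_one (by
      filter_upwards [hG] with x hx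
      rw [hx]
      exact hg.2 x)
    simpa [measureUnivNNReal] using this
  rw [QX_eq hA hg hG, QX_eq hA hg hG, norm_av, norm_av]
  generalize hm.toLp g = G at hn
  obtain ⟨F, hF⟩ : ∃ F : ℕ → Lp ℂ 2 μ, F = fun h : ℕ => V hA (((h : ℕ) : ℤ) • u) G := ⟨_, rfl⟩
  have hF' : ∀ h : ℕ, V hA (((h : ℕ) : ℤ) • u) G = F h := fun h => by rw [hF]
  simp only [hF']
  have h1 : ∀ n, ‖F n‖ ≤ 1 := fun n => by rw [← hF', LinearIsometry.norm_map]; exact hn
  have b : ∀ k : ℕ, ‖∑ h ∈ Finset.range k, F h‖ ≤ k := fun k =>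
    (norm_sum_le _ _).trans ((Finset.sum_le_sum fun n _ => h1 n).trans (by simp))
  have hH0 : (0 : ℝ) < H := by exact_mod_cast hH
  have hK0 : (0 : ℝ) < K := by exact_mod_cast hK
  have h2 : ‖∑ k ∈ Finset.range K, ∑ h ∈ Finset.range H, F (k + h)‖ ≤
      H * ‖∑ k ∈ Finset.range K, F k‖ := by
    rw [Finset.sum_comm]
    refine (norm_sum_le _ _).trans ((Finset.sum_le_sum (g := fun _ =>
      ‖∑ k ∈ Finset.range K, F k‖) fun h _ => le_of_eq ?_).trans (by simp))
    rw [← (V hA (((h : ℕ) : ℤ) • u)).norm_map (∑ k ∈ Finset.range K, F k), map_sum]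
    congr 1
    refine Finset.sum_congr rfl fun k _ => ?_
    rw [← hF', ← hF', ← V_add, Nat.cast_add, add_smul]
  have h3 : ‖∑ k ∈ Finset.range K, (∑ h ∈ Finset.range H, F h -
      ∑ h ∈ Finset.range H, F (k + h))‖ ≤ K * (2 * K) := by
    refine (norm_sum_le _ _).trans ((Finset.sum_le_sum (g := fun _ => 2 * (K : ℝ))
      fun k hk => (shift_le h1 H k).trans ?_).trans (by simp))
    have : (k : ℝ) ≤ K := by exact_mod_cast (Finset.mem_range.1 hk).le
    linarith
  have h4 : (K : ℝ) * ‖∑ h ∈ Finset.range H, F h‖ ≤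
      H * ‖∑ k ∈ Finset.range K, F k‖ + K * (2 * K) := by
    have e : (K : ℝ) * ‖∑ h ∈ Finset.range H, F h‖ =
        ‖∑ k ∈ Finset.range K, ∑ h ∈ Finset.range H, F (k + h) +
          ∑ k ∈ Finset.range K, (∑ h ∈ Finset.range H, F h -
            ∑ h ∈ Finset.range H, F (k + h))‖ := by
      rw [← Finset.sum_add_distrib]
      simp only [add_sub_cancel, Finset.sum_const, Finset.card_range]
      rw [← Nat.cast_smul_eq_nsmul ℝ, norm_smul, Real.norm_natCast]
    rw [e]
    exact (norm_add_le _ _).trans (add_le_add h2 h3)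
  have h5 : ‖∑ h ∈ Finset.range H, F h‖ / H ≤ ‖∑ k ∈ Finset.range K, F k‖ / K + 2 * K / H := by
    rw [div_add_div _ _ hK0.ne' hH0.ne', div_le_div_iff₀ hH0 (by positivity)]
    nlinarith [mul_le_mul_of_nonneg_right h4 hH0.le]
  have h6 : ‖∑ h ∈ Finset.range H, F h‖ / H ≤ 1 := (div_le_one hH0).2 (b H)
  have h7 : ‖∑ h ∈ Finset.range K, F h‖ / K ≤ 1 := (div_le_one hK0).2 (b K)
  have h8 : 0 ≤ ‖∑ h ∈ Finset.range H, F h‖ / H := by positivity
  have h9 : 0 ≤ ‖∑ h ∈ Finset.range K, F h‖ / K := by positivity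
  have h10 : 0 ≤ 2 * (K : ℝ) / H := by positivity
  have e : 4 * (K : ℝ) / H = 2 * (2 * K / H) := by ring
  rw [e]
  generalize ‖∑ h ∈ Finset.range H, F h‖ / H = a at *
  generalize ‖∑ h ∈ Finset.range K, F h‖ / K = c at *
  generalize 2 * (K : ℝ) / H = t at *
  nlinarith

lemma exp_le_add {ι : Type} [Fintype ι] {a b : ι → ℝ} {ε : ℝ} (hε : 0 ≤ ε)
    (h : ∀ i, a i ≤ b i + ε) : 𝔼 i, a i ≤ (𝔼 i, b i) + ε := by
  rcases isEmpty_or_nonempty ι with hι | hι
  · simp [hε]
  · calc 𝔼 i, a i ≤ 𝔼 i, (b i + ε) := Finset.expect_le_expect fun i _ => h i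
      _ = (𝔼 i, b i) + ε := by
        rw [Finset.expect_add_distrib, Finset.expect_const Finset.univ_nonempty]

lemma last [IsProbabilityMeasure μ] (hA : Act μ A) (u : Gm l) {H K : ℕ} (hH : 1 ≤ H) (hK : 1 ≤ K)
    (L : List (Fam l)) : ∀ g : X → ℂ, MB1 g →
      QX μ A (L ++ [ln u H]) g ≤ QX μ A (L ++ [ln u K]) g + 4 * K / H := by
  induction L with
  | nil => intro g hg; exact one hA u hH hK hg
  | cons F L ih =>
    intro g hg
    simp only [List.cons_append, QX]
    exact exp_le_add (by positivity) fun h => exp_le_add (by positivity) fun h' =>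
      ih _ (hA.dd hg _)

lemma all (hP : T4S.PermS) [IsProbabilityMeasure μ] (hA : Act μ A) {H : ℕ} (hH : 1 ≤ H)
    {g : X → ℂ} (hg : MB1 g) (L : List (Gm l × ℕ)) : (∀ p ∈ L, 1 ≤ p.2) → ∀ L0 : List (Fam l),
      QX μ A (L0 ++ L.map fun p => ln p.1 H) g ≤
        QX μ A (L0 ++ L.map fun p => ln p.1 p.2) g + 4 * ((L.map Prod.snd).sum : ℕ) / H := by
  induction L with
  | nil => intro _ L0; simp
  | cons p L ih =>
    intro h L0
    have h1 := last hA p.1 hH (h p List.mem_cons_self) (L0 ++ L.map fun p => ln p.1 H) g hg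
    have h2 := ih (fun q hq => h q (List.mem_cons_of_mem _ hq)) (L0 ++ [ln p.1 p.2])
    have pm : ∀ F : Fam l, QX μ A ((L0 ++ L.map fun p => ln p.1 H) ++ [F]) g =
        QX μ A (L0 ++ F :: L.map fun p => ln p.1 H) g := fun F =>
      hP l X μ A hA _ _ (by
        rw [List.append_assoc]
        exact List.Perm.append_left _ (List.perm_append_singleton _ _)) g
    rw [pm, pm] at h1
    simp only [List.append_assoc, List.singleton_append] at h2
    simp only [List.map_cons, List.sum_cons, Nat.cast_add, mul_add, add_div]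
    linarith

end Scale

theorem scale : ScaleR := by
  intro hP _ X L g hg hL ε hε
  have ht : Tendsto (fun H : ℕ => 4 * (((L.map Prod.snd).sum : ℕ) : ℝ) / H) atTop (𝓝 0) :=
    tendsto_const_div_atTop_nhds_zero_nat _
  filter_upwards [ht.eventually (gt_mem_nhds hε), eventually_ge_atTop 1] with H h1 h2
  have h := Scale.all hP (act X) h2 hg L hL []
  simp only [List.nil_append] at h
  simp only [QE, QL, List.map_map]
  exact h.trans (by linarith)

end T6

end

end PkScale

section PkDA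

/-! Row DA: calculus of the dual functions. -/

set_option autoImplicit false
set_option linter.unusedVariables false
set_option warn.classDefReducibility false

open MeasureTheory ProbabilityTheory Filter Topology Function
open scoped BigOperators ComplexConjugate

noncomputable section

namespace T6

open Pool.Agent.MP_154433_an hiding BM
open T3S (B1 MB1 dif CZ conj_exp norm_exp_le_of norm_prod_le_one meas_exp)
open T4S (Gm Act)
open T4x (Emb Fd)

namespace DA

variable {X : Sy} {L : List (Gm 2)}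

lemma blk_MB {k : ℕ} (u : Fin k → Gm 2) (H : ℕ) {β : Fin k → (Fin k → ℤ) → X.X → ℂ}
    (hβ : ∀ i τ, MB X (β i τ)) : MB X (blk X u H β) :=
  ⟨meas_exp _ fun h _ => meas_exp _ fun h' _ =>
    Finset.measurable_prod _ fun i _ => ((act X).tz (hβ _ _) _).1,
    fun x => norm_exp_le_of zero_le_one fun h _ => norm_exp_le_of zero_le_one fun h' _ =>
      norm_prod_le_one _ fun i _ => (hβ _ _).2 _⟩

lemma cx_MB {H0 : ℕ} {v : X.X → ℂ} (hv : v ∈ CX X L H0) : MB X v := by
  refine convexHull_min ?_ MB1.convex hv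
  rintro _ ⟨H, β, -, hβ, rfl⟩
  exact blk_MB _ _ hβ

lemma mb_const {c : ℂ} (hc : ‖c‖ ≤ 1) : MB X fun _ => c := ⟨measurable_const, fun _ => hc⟩

lemma CX_map {H0 : ℕ} (T : (X.X → ℂ) →ₗ[ℝ] (X.X → ℂ))
    (h : ∀ (H : ℕ) (β : Fin L.length → (Fin L.length → ℤ) → X.X → ℂ), (∀ i τ, MB X (β i τ)) →
      ∃ β' : Fin L.length → (Fin L.length → ℤ) → X.X → ℂ, (∀ i τ, MB X (β' i τ)) ∧
        T (blk X L.get H β) = blk X L.get H β')
    {u : X.X → ℂ} (hu : u ∈ CX X L H0) : T u ∈ CX X L H0 := by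
  have hc : Convex ℝ (T ⁻¹' CX X L H0) := (convex_convexHull ℝ _).linear_preimage T
  refine convexHull_min ?_ hc hu
  rintro _ ⟨H, β, h1, h2, rfl⟩
  obtain ⟨β', h3, h4⟩ := h H β h2
  exact subset_convexHull ℝ _ ⟨H, β', h1, h3, h4⟩

lemma DD_map (T : (X.X → ℂ) →ₗ[ℝ] (X.X → ℂ))
    (h : ∀ (H : ℕ) (β : Fin L.length → (Fin L.length → ℤ) → X.X → ℂ), (∀ i τ, MB X (β i τ)) →
      ∃ β' : Fin L.length → (Fin L.length → ℤ) → X.X → ℂ, (∀ i τ, MB X (β' i τ)) ∧
        T (blk X L.get H β) = blk X L.get H β')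
    (h1 : ∀ D, MB X D → MB X (T D))
    (h2 : ∀ D u, MB X D → MB X u → ∫ x, ‖T D x - T u x‖ ∂X.μ ≤ ∫ x, ‖D x - u x‖ ∂X.μ)
    {D : X.X → ℂ} (hD : D ∈ DD X L) : T D ∈ DD X L := by
  refine ⟨h1 D hD.1, fun H0 ε hε => ?_⟩
  obtain ⟨u, hu, hε'⟩ := hD.2 H0 ε hε
  exact ⟨T u, CX_map T h hu, (h2 D u hD.1 (cx_MB hu)).trans hε'⟩

lemma DD_tz (v : Gm 2) {D : X.X → ℂ} (hD : D ∈ DD X L) : (fun x => D (X.A v x)) ∈ DD X L := by
  refine DD_map (LinearMap.funLeft ℝ ℂ (X.A v)) (fun H β hβ => ?_)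
    (fun D hD => (act X).tz hD v) (fun D u hD hu => ?_) hD
  · refine ⟨fun i τ y => β i τ (X.A v y), fun i τ => (act X).tz (hβ i τ) v, ?_⟩
    funext x
    simp only [LinearMap.funLeft_apply, blk, (act X).comm v]
  · exact ((act X).integral v (f := fun x => ‖D x - u x‖)
      (hD.1.sub hu.1).norm.aestronglyMeasurable).le

/-- pointwise conjugation -/
def cjL (Y : Type) : (Y → ℂ) →ₗ[ℝ] (Y → ℂ) where
  toFun u := fun x => conj (u x)
  map_add' u w := by funext x; simp
  map_smul' c u := by funext x; simp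

/-- pointwise multiplication by a constant -/
def mlL (Y : Type) (c : ℂ) : (Y → ℂ) →ₗ[ℝ] (Y → ℂ) where
  toFun u := fun x => c * u x
  map_add' u w := by funext x; simp [mul_add]
  map_smul' a u := by funext x; simp [mul_left_comm]

lemma DD_cj {D : X.X → ℂ} (hD : D ∈ DD X L) : (fun x => conj (D x)) ∈ DD X L := by
  refine DD_map (cjL X.X) (fun H β hβ => ?_) (fun D hD => hD.cj) (fun D u hD hu => ?_) hD
  · refine ⟨fun i τ y => conj (β i τ y), fun i τ => (hβ i τ).cj, ?_⟩
    funext x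
    change conj (blk X L.get H β x) = _
    simp only [blk, conj_exp, map_prod]
  · refine le_of_eq (integral_congr_ae (Eventually.of_forall fun x => ?_))
    change ‖conj (D x) - conj (u x)‖ = ‖D x - u x‖
    rw [← map_sub, RCLike.norm_conj]

lemma DD_ml (hL : L ≠ []) {c : ℂ} (hc : ‖c‖ ≤ 1) {D : X.X → ℂ} (hD : D ∈ DD X L) :
    (fun x => c * D x) ∈ DD X L := by
  have i0 : Fin L.length := ⟨0, List.length_pos_iff.2 hL⟩
  refine DD_map (mlL X.X c) (fun H β hβ => ?_) (fun D hD => (mb_const hc).mul hD)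
    (fun D u hD hu => ?_) hD
  · refine ⟨fun i τ y => (if i = i0 then c else 1) * β i τ y, fun i τ => ?_, ?_⟩
    · refine (mb_const ?_).mul (hβ i τ)
      split_ifs
      · exact hc
      · simp
    · funext x
      change c * blk X L.get H β x = _
      simp only [blk, Finset.mul_expect, Finset.prod_mul_distrib, Finset.prod_ite_eq',
        Finset.mem_univ, if_true]
  · refine integral_mono_of_nonneg (Eventually.of_forall fun x => norm_nonneg _)
      ((hD.integrable X.μ).sub (hu.integrable X.μ)).norm (Eventually.of_forall fun x => ?_)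
    change ‖c * D x - c * u x‖ ≤ ‖D x - u x‖
    rw [← mul_sub, norm_mul]
    exact mul_le_of_le_one_left (norm_nonneg _) hc

lemma DD_cvx : Convex ℝ (DD X L) := by
  intro D hD E hE a b ha hb hab
  refine ⟨MB1.convex hD.1 hE.1 ha hb hab, fun H0 ε hε => ?_⟩
  obtain ⟨u, hu, hu'⟩ := hD.2 H0 ε hε
  obtain ⟨w, hw, hw'⟩ := hE.2 H0 ε hε
  refine ⟨a • u + b • w, convex_convexHull ℝ _ hu hw ha hb hab, ?_⟩
  have i1 : Integrable (fun x => ‖D x - u x‖) X.μ :=
    ((hD.1.integrable X.μ).sub ((cx_MB hu).integrable X.μ)).norm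
  have i2 : Integrable (fun x => ‖E x - w x‖) X.μ :=
    ((hE.1.integrable X.μ).sub ((cx_MB hw).integrable X.μ)).norm
  calc _ ≤ ∫ x, (a * ‖D x - u x‖ + b * ‖E x - w x‖) ∂X.μ := by
        refine integral_mono_of_nonneg (Eventually.of_forall fun x => norm_nonneg _)
          ((i1.const_mul _).add (i2.const_mul _)) (Eventually.of_forall fun x => ?_)
        have e : (a • D + b • E) x - (a • u + b • w) x = a • (D x - u x) + b • (E x - w x) := by
          simp only [Pi.add_apply, Pi.smul_apply, smul_sub]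
          abel
        change ‖(a • D + b • E) x - (a • u + b • w) x‖ ≤ _
        rw [e]
        refine (norm_add_le _ _).trans (le_of_eq ?_)
        simp only [norm_smul, Real.norm_eq_abs, abs_of_nonneg ha, abs_of_nonneg hb]
    _ = a * ∫ x, ‖D x - u x‖ ∂X.μ + b * ∫ x, ‖E x - w x‖ ∂X.μ := by
        rw [integral_add (i1.const_mul _) (i2.const_mul _), integral_const_mul,
          integral_const_mul]
    _ ≤ a * ε + b * ε :=
        add_le_add (mul_le_mul_of_nonneg_left hu' ha) (mul_le_mul_of_nonneg_left hw' hb)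
    _ = ε := by rw [← add_mul, hab, one_mul]

lemma DD_one : (fun _ => (1 : ℂ)) ∈ DD X L := by
  refine ⟨mb_const (by simp), fun H0 ε hε => ⟨blk X L.get (H0 + 1) fun _ _ _ => 1,
    subset_convexHull ℝ _ ⟨H0 + 1, _, Nat.le_succ _, fun i τ => mb_const (by simp), rfl⟩, ?_⟩⟩
  simp only [blk, Finset.prod_const_one, Fintype.expect_const, sub_self, norm_zero, integral_zero]
  exact hε.le

lemma ivz {u : Gm 2} {c : X.X → ℂ} (h : IvF X u c) (n : ℤ) :
    (fun x => c (X.A (n • u) x)) =ᵐ[X.μ] c := by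
  have st : ∀ n : ℤ, (fun x => c (X.A ((n + 1) • u) x)) =ᵐ[X.μ] fun x => c (X.A (n • u) x) := by
    intro n
    filter_upwards [((act X).mp (n • u)).quasiMeasurePreserving.ae h.2] with x hx
    rw [add_smul, one_smul, add_comm, (act X).add]
    exact hx
  induction n using Int.induction_on with
  | zero => exact Eventually.of_forall fun x => by simp only [zero_smul, (act X).zero]
  | succ n ih => exact (st n).trans ih
  | pred n ih =>
    have e := st (-(n : ℤ) - 1)
    rw [sub_add_cancel] at e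
    exact e.symm.trans ih

lemma DD_inv {u : Gm 2} {c : X.X → ℂ} (h : IvF X u c) : c ∈ DD X (u :: L) := by
  let i0 : Fin (u :: L).length := ⟨0, Nat.succ_pos _⟩
  refine ⟨h.1, fun H0 ε hε => ⟨blk X (u :: L).get (H0 + 1) fun i _ y => if i = i0 then c y else 1,
    subset_convexHull ℝ _ ⟨H0 + 1, _, Nat.le_succ _, fun i τ => ?_, rfl⟩, ?_⟩⟩
  · by_cases hi : i = i0
    · simpa only [hi, if_true] using h.1
    · simpa only [hi, if_false] using mb_const (X := X) (c := 1) (by simp)
  · have h0 : (fun x => ‖c x - blk X (u :: L).get (H0 + 1)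
        (fun i _ y => if i = i0 then c y else 1) x‖) =ᵐ[X.μ] 0 := by
      filter_upwards [ae_all_iff.2 (ivz h)] with x hx
      have e : (u :: L).get i0 = u := rfl
      simp only [blk, Finset.prod_ite_eq', Finset.mem_univ, if_true, e, hx, Fintype.expect_const,
        sub_self, norm_zero, Pi.zero_apply]
    rw [integral_congr_ae h0]
    simpa using hε.le

lemma CX_pb (F : Fd) {X' : Sy} {p : X'.X → X.X} (hp : Emb X' X p) {H0 : ℕ} {v : X.X → ℂ}
    (hv : v ∈ CX X L H0) : ∃ v' ∈ CX X' L H0, v' =ᵐ[X'.μ] fun x => v (p x) := by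
  refine convexHull_min (t := {v | ∃ v' ∈ CX X' L H0, v' =ᵐ[X'.μ] fun x => v (p x)}) ?_ ?_ hv
  · rintro _ ⟨H, β, h1, hβ, rfl⟩
    refine ⟨blk X' L.get H fun i τ y => β i τ (p y), subset_convexHull ℝ _ ⟨H, _, h1,
      fun i τ => ⟨(hβ i τ).1.comp hp.mp.measurable, fun y => (hβ i τ).2 _⟩, rfl⟩, ?_⟩
    have e : ∀ z : Fin L.length × (Fin L.length → ℤ) × Gm 2, ∀ᵐ x ∂X'.μ,
        β z.1 z.2.1 (p (X'.A z.2.2 x)) = β z.1 z.2.1 (X.A z.2.2 (p x)) := fun z =>
      F.a.keq_fun X.ms X'.μ X.μ _ _ (β z.1 z.2.1) (hp.mp.comp (X'.mp z.2.2))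
        ((X.mp z.2.2).comp hp.mp) (hp.eqv z.2.2) (hβ _ _).1.aestronglyMeasurable
    filter_upwards [ae_all_iff.2 e] with x hx
    simp only [blk]
    exact Finset.expect_congr rfl fun h _ => Finset.expect_congr rfl fun h' _ =>
      Finset.prod_congr rfl fun i _ => hx (i, _, _)
  · rintro u ⟨u', hu, eu⟩ w ⟨w', hw, ew⟩ a b ha hb hab
    refine ⟨a • u' + b • w', convex_convexHull ℝ _ hu hw ha hb hab, ?_⟩
    filter_upwards [eu, ew] with x h1 h2
    simp only [Pi.add_apply, Pi.smul_apply, h1, h2]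

lemma DD_pb (F : Fd) {X' : Sy} {p : X'.X → X.X} (hp : Emb X' X p) {D : X.X → ℂ}
    (hD : D ∈ DD X L) : (fun x => D (p x)) ∈ DD X' L := by
  refine ⟨⟨hD.1.1.comp hp.mp.measurable, fun y => hD.1.2 _⟩, fun H0 ε hε => ?_⟩
  obtain ⟨v, hv, h1⟩ := hD.2 H0 ε hε
  obtain ⟨v', hv', e⟩ := CX_pb F hp hv
  refine ⟨v', hv', le_trans (le_of_eq ?_) h1⟩
  have m : AEStronglyMeasurable (fun x => ‖D x - v x‖) (X'.μ.map p) := by
    rw [hp.mp.map_eq]; exact (hD.1.1.sub (cx_MB hv).1).norm.aestronglyMeasurable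
  have e2 := integral_map hp.mp.measurable.aemeasurable m
  rw [hp.mp.map_eq] at e2
  rw [e2]
  refine integral_congr_ae ?_
  filter_upwards [e] with x hx
  rw [hx]

lemma CX_orb {b : Gm 2} {H0 : ℕ} {v : X.X → ℂ} (x : X.X) (hL : ∀ i, L.get i = b)
    (hv : v ∈ CX X L H0) :
    (fun n : ℤ => v (X.A (n • b) x)) ∈ CZ (fun _ : Fin L.length => (1 : ℤ)) H0 := by
  have hc : Convex ℝ ((LinearMap.funLeft ℝ ℂ fun n : ℤ => X.A (n • b) x) ⁻¹'
      CZ (fun _ : Fin L.length => (1 : ℤ)) H0) := (convex_convexHull ℝ _).linear_preimage _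
  refine convexHull_min ?_ hc hv
  rintro _ ⟨H, β, h1, hβ, rfl⟩
  refine subset_convexHull ℝ _ ⟨H, fun i τ m => β i τ (X.A (m • b) x), h1,
    fun i τ m => (hβ i τ).2 _, ?_⟩
  funext n
  simp only [LinearMap.funLeft_apply, blk, T3S.blk, T3S.sh, hL, one_mul, ← (act X).add,
    ← add_smul, add_comm]

end DA

open DA in
theorem da : DAR := fun F =>
  { cx := fun X L H0 v hv => cx_MB hv
    anti := fun X L H0 H1 h => convexHull_mono fun v ⟨H, β, h1, h2, h3⟩ =>
      ⟨H, β, h.trans h1, h2, h3⟩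
    one := fun X L => DD_one
    smul := fun X L D c hL hc hD => DD_ml hL hc hD
    cvx := fun X L => DD_cvx
    cj := fun X L D hD => DD_cj hD
    tz := fun X L D v hD => DD_tz v hD
    inv := fun X u L c h => DD_inv h
    pb := fun X' X p L D hp hD => DD_pb F hp hD
    orb := fun X L b H0 v x hL hv => CX_orb x hL hv }

end T6

end

end PkDA

section PkDM

/-! Row DM: products of dual functions are dual functions. -/

set_option autoImplicit false
set_option linter.unusedVariables false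
set_option warn.classDefReducibility false

open MeasureTheory ProbabilityTheory Filter Topology Function
open scoped BigOperators ComplexConjugate

noncomputable section

namespace T6

open Pool.Agent.MP_154433_an hiding BM
open T3S (B1 MB1 dif norm_exp_le_of norm_prod_le_one)
open T4S (Gm Act)

namespace DM

lemma exp_mem {α ι : Type} [Fintype ι] [Nonempty ι] {s : Set (α → ℂ)} (hs : Convex ℝ s)
    {f : ι → α → ℂ} (hf : ∀ i, f i ∈ s) : (fun x => 𝔼 i, f i x) ∈ s := by
  have h0 : (Fintype.card ι : ℝ) ≠ 0 := by exact_mod_cast Fintype.card_ne_zero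
  have h := hs.sum_mem (t := Finset.univ) (w := fun _ : ι => (Fintype.card ι : ℝ)⁻¹) (z := f)
    (fun _ _ => by positivity) (by simp [h0]) fun i _ => hf i
  convert h using 1
  funext x
  simp only [Fintype.expect_eq_sum_div_card, Finset.sum_apply, Pi.smul_apply, Complex.real_smul,
    ← Finset.mul_sum]
  push_cast
  ring

lemma shift {k H H' : ℕ} (hH : 1 ≤ H') {Ψ : (Fin k → ℤ) → ℂ} (hΨ : B1 Ψ) (h h' : Fin k → Fin H) :
    ‖(𝔼 g : Fin k → Fin H', 𝔼 g' : Fin k → Fin H', Ψ (dif g g')) -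
      𝔼 g : Fin k → Fin H', 𝔼 g' : Fin k → Fin H', Ψ (dif g g' + dif h h')‖ ≤ 2 * k * H / H' := by
  rw [← Finset.expect_sub_distrib]
  refine norm_exp_le_of (by positivity) fun g _ => ?_
  have h1 := T3S.Shift.box (M := H) hH k (fun τ => Ψ fun j => τ j - ((g j : ℕ) : ℤ)) (hΨ.comp _)
    (dif h h') fun j => by
      have := (h j).2
      have := (h' j).2
      rw [dif, abs_le]
      omega
  have e : ∀ g' : Fin k → Fin H',
      (fun j => ((g' j : ℕ) : ℤ) + dif h h' j - ((g j : ℕ) : ℤ)) = dif g g' + dif h h' := fun g' =>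
    funext fun j => by
      simp only [dif, Pi.add_apply]
      ring
  simp only [e] at h1
  rw [norm_sub_rev]
  exact h1

lemma comm4 {A B : Type} [Fintype A] [Fintype B] (F : A → A → B → B → ℂ) :
    𝔼 a, 𝔼 a', 𝔼 b, 𝔼 b', F a a' b b' = 𝔼 b, 𝔼 b', 𝔼 a, 𝔼 a', F a a' b b' := by
  have e : ∀ G : A → B → B → ℂ, 𝔼 a, 𝔼 b, 𝔼 b', G a b b' = 𝔼 b, 𝔼 b', 𝔼 a, G a b b' := fun G => by
    rw [Finset.expect_comm]
    exact Finset.expect_congr rfl fun b _ => Finset.expect_comm _ _ _
  simp only [e]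

variable {X : Sy} {L : List (Gm 2)}

lemma two {H0 H H' : ℕ} (h0 : H0 ≤ H) (hH : 1 ≤ H')
    {β β' : Fin L.length → (Fin L.length → ℤ) → X.X → ℂ} (hβ : ∀ i τ, MB X (β i τ))
    (hβ' : ∀ i τ, MB X (β' i τ)) : ∃ w ∈ CX X L H0, ∀ x,
      ‖blk X L.get H β x * blk X L.get H' β' x - w x‖ ≤ 2 * L.length * H / H' := by
  have : Nonempty (Fin H') := ⟨⟨0, hH⟩⟩
  refine ⟨fun x => 𝔼 g : Fin L.length → Fin H', 𝔼 g' : Fin L.length → Fin H', blk X L.get H
    (fun i ρ y => β i ρ y * β' i (update (dif g g') i 0 + ρ) (X.A (dif g g' i • L.get i) y)) x,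
    exp_mem (convex_convexHull ℝ _) fun g => exp_mem (convex_convexHull ℝ _) fun g' =>
      subset_convexHull ℝ _ ⟨H, _, h0, fun i ρ => (hβ i ρ).mul ((act X).tz (hβ' i _) _), rfl⟩,
    fun x => ?_⟩
  have e : (𝔼 g : Fin L.length → Fin H', 𝔼 g' : Fin L.length → Fin H', blk X L.get H
      (fun i ρ y => β i ρ y * β' i (update (dif g g') i 0 + ρ) (X.A (dif g g' i • L.get i) y)) x) =
      𝔼 h : Fin L.length → Fin H, 𝔼 h' : Fin L.length → Fin H,
        (∏ i, β i (update (dif h h') i 0) (X.A (dif h h' i • L.get i) x)) *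
        𝔼 g : Fin L.length → Fin H', 𝔼 g' : Fin L.length → Fin H',
          ∏ i, β' i (update (dif g g' + dif h h') i 0)
            (X.A ((dif g g' + dif h h') i • L.get i) x) := by
    simp only [blk, Finset.mul_expect]
    rw [comm4]
    refine Finset.expect_congr rfl fun h _ => Finset.expect_congr rfl fun h' _ =>
      Finset.expect_congr rfl fun g _ => Finset.expect_congr rfl fun g' _ => ?_
    rw [← Finset.prod_mul_distrib]
    refine Finset.prod_congr rfl fun i _ => ?_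
    rw [Pi.add_apply, add_smul, (act X).add, ← Function.update_add, add_zero]
  beta_reduce
  rw [e, blk, Finset.expect_mul, ← Finset.expect_sub_distrib]
  refine norm_exp_le_of (by positivity) fun h _ => ?_
  rw [Finset.expect_mul, ← Finset.expect_sub_distrib]
  refine norm_exp_le_of (by positivity) fun h' _ => ?_
  rw [← mul_sub, norm_mul]
  refine (mul_le_of_le_one_left (norm_nonneg _)
    (norm_prod_le_one _ fun i _ => (hβ _ _).2 _)).trans ?_
  exact shift hH (Ψ := fun σ => ∏ i, β' i (update σ i 0) (X.A (σ i • L.get i) x))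
    (fun σ => norm_prod_le_one _ fun i _ => (hβ' _ _).2 _) h h'

lemma mix {p p' w w' : ℂ} {a b η : ℝ} (ha : 0 ≤ a) (hb : 0 ≤ b) (hab : a + b = 1)
    (h : ‖p - w‖ ≤ η) (h' : ‖p' - w'‖ ≤ η) : ‖(a • p + b • p') - (a • w + b • w')‖ ≤ η := by
  have e : (a • p + b • p') - (a • w + b • w') = a • (p - w) + b • (p' - w') := by
    simp only [smul_sub]
    abel
  rw [e]
  refine (norm_add_le _ _).trans ?_
  simp only [norm_smul, Real.norm_eq_abs, abs_of_nonneg ha, abs_of_nonneg hb]
  calc _ ≤ a * η + b * η := by gcongr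
    _ = η := by rw [← add_mul, hab, one_mul]

lemma key (hA : DA) {H0 : ℕ} {η : ℝ} (hη : 0 < η) {v : X.X → ℂ} (hv : v ∈ CX X L H0) :
    ∃ H1, ∀ v' ∈ CX X L H1, ∃ w ∈ CX X L H0, ∀ x, ‖v x * v' x - w x‖ ≤ η := by
  refine convexHull_min (t := {v : X.X → ℂ |
    ∃ H1, ∀ v' ∈ CX X L H1, ∃ w ∈ CX X L H0, ∀ x, ‖v x * v' x - w x‖ ≤ η}) ?_ ?_ hv
  · rintro _ ⟨H, β, h0, hβ, rfl⟩
    obtain ⟨N, hN⟩ := exists_nat_ge (2 * L.length * H / η)
    refine ⟨N + 1, fun v' hv' => ?_⟩
    refine convexHull_min (t := {v' : X.X → ℂ |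
      ∃ w ∈ CX X L H0, ∀ x, ‖blk X L.get H β x * v' x - w x‖ ≤ η}) ?_ ?_ hv'
    · rintro _ ⟨H', β', h1, hβ', rfl⟩
      obtain ⟨w, hw, h⟩ := two h0 (le_trans (Nat.le_add_left 1 N) h1) hβ hβ'
      refine ⟨w, hw, fun x => (h x).trans ?_⟩
      have h2 : (N : ℝ) + 1 ≤ H' := by exact_mod_cast h1
      have h3 : (0 : ℝ) ≤ N := Nat.cast_nonneg N
      rw [div_le_iff₀ hη] at hN
      rw [div_le_iff₀ (by linarith)]
      nlinarith
    · rintro p ⟨w, hw, h⟩ p' ⟨w', hw', h'⟩ a b ha hb hab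
      refine ⟨a • w + b • w', convex_convexHull ℝ _ hw hw' ha hb hab, fun x => ?_⟩
      have := mix ha hb hab (h x) (h' x)
      simpa only [Pi.add_apply, Pi.smul_apply, mul_add, mul_smul_comm] using this
  · rintro p ⟨H1, h⟩ p' ⟨H2, h'⟩ a b ha hb hab
    refine ⟨max H1 H2, fun v' hv' => ?_⟩
    obtain ⟨w, hw, h1⟩ := h v' (hA.anti X L _ _ (le_max_left _ _) hv')
    obtain ⟨w', hw', h2⟩ := h' v' (hA.anti X L _ _ (le_max_right _ _) hv')
    refine ⟨a • w + b • w', convex_convexHull ℝ _ hw hw' ha hb hab, fun x => ?_⟩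
    have := mix ha hb hab (h1 x) (h2 x)
    simpa only [Pi.add_apply, Pi.smul_apply, add_mul, smul_mul_assoc] using this

end DM

theorem dm : DMR := by
  intro _ hA X L D D' hD hD'
  refine ⟨hD.1.mul hD'.1, fun H0 ε hε => ?_⟩
  have h3 : 0 < ε / 3 := by positivity
  obtain ⟨v, hv, h1⟩ := hD.2 H0 _ h3
  obtain ⟨H1, h⟩ := DM.key hA h3 hv
  obtain ⟨v', hv', h2⟩ := hD'.2 H1 _ h3
  obtain ⟨w, hw, h4⟩ := h v' hv'
  refine ⟨w, hw, ?_⟩
  have m := hA.cx X L _ v hv
  have m' := hA.cx X L _ v' hv'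
  have i1 : Integrable (fun x => ‖D x - v x‖) X.μ :=
    ((hD.1.integrable X.μ).sub (m.integrable X.μ)).norm
  have i2 : Integrable (fun x => ‖D' x - v' x‖) X.μ :=
    ((hD'.1.integrable X.μ).sub (m'.integrable X.μ)).norm
  calc _ ≤ ∫ x, (‖D x - v x‖ + ‖D' x - v' x‖ + ε / 3) ∂X.μ := by
        refine integral_mono_of_nonneg (Eventually.of_forall fun x => norm_nonneg _)
          ((i1.add i2).add (integrable_const _)) (Eventually.of_forall fun x => ?_)
        have e : D x * D' x - w x =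
            (D x - v x) * D' x + v x * (D' x - v' x) + (v x * v' x - w x) := by ring
        change ‖D x * D' x - w x‖ ≤ ‖D x - v x‖ + ‖D' x - v' x‖ + ε / 3
        rw [e]
        refine norm_add₃_le.trans (add_le_add (add_le_add ?_ ?_) (h4 x))
        · rw [norm_mul]
          exact mul_le_of_le_one_right (norm_nonneg _) (hD'.1.2 x)
        · rw [norm_mul]
          exact mul_le_of_le_one_left (norm_nonneg _) (m.2 x)
    _ = ∫ x, ‖D x - v x‖ ∂X.μ + ∫ x, ‖D' x - v' x‖ ∂X.μ + ε / 3 := by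
        rw [integral_add (f := fun x => ‖D x - v x‖ + ‖D' x - v' x‖) (i1.add i2)
          (integrable_const _), integral_add i1 i2, integral_const,
          probReal_univ, one_smul]
    _ ≤ ε := by linarith

end T6

end

end PkDM

section PkZF

/-! The factor generated by the dual functions. -/

set_option autoImplicit false
set_option linter.unusedVariables false

open MeasureTheory ProbabilityTheory Filter Topology Function
open scoped BigOperators ComplexConjugate

noncomputable section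

namespace T6

open Pool.Agent.MP_154433_an hiding BM
open T3S (B1 MB1)
open T4S (Gm Act ddX)
open Fib27 (BM)
open T3x (nul pull gen)
open T4x (Fac Emb Fd)

namespace ZFa

theorem gen_le (X : Sy) (L : List (Gm 2)) : gen (DD X L) id ≤ X.ms :=
  iSup₂_le fun _ hD => hD.1.1.comap_le

theorem comap_le {X' X : Sy} {p : X'.X → X.X} (hp : MeasurePreserving p X'.μ X.μ)
    {L : List (Gm 2)} (h : ∀ D ∈ DD X L, (fun x => D (p x)) ∈ DD X' L) :
    (ZL X L).comap p ≤ ZL X' L := by
  rw [ZL, MeasurableSpace.comap_sup]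
  refine sup_le_sup ?_ ?_
  · simp only [gen, MeasurableSpace.comap_iSup, MeasurableSpace.comap_comp]
    exact iSup₂_le fun D hD => le_iSup₂_of_le (fun x => D (p x)) (h D hD) le_rfl
  · rw [nul, MeasurableSpace.comap_generateFrom]
    refine MeasurableSpace.generateFrom_mono ?_
    rintro _ ⟨A, hA, rfl⟩
    exact ⟨hp.measurable hA.1, hp.preimage_null hA.2⟩

theorem dd (X : Sy) (L : List (Gm 2)) (D : X.X → ℂ) (hD : D ∈ DD X L) : InZ X L D := by
  have h : Measurable[ZL X L] D :=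
    Measurable.of_comap_le (le_sup_of_le_left (le_iSup₂_of_le D hD le_rfl))
  exact ⟨hD.1, h.stronglyMeasurable.aestronglyMeasurable, 1, Eventually.of_forall hD.1.2⟩

/-- the span consists of multiples of dual functions -/
theorem span (a : DA) (X : Sy) {L : List (Gm 2)} (hL : L ≠ []) {φ : X.X → ℂ}
    (h : φ ∈ Submodule.span ℂ (DD X L)) :
    ∃ K : ℝ, 0 < K ∧ ∃ D ∈ DD X L, φ = fun x => K * D x := by
  induction h using Submodule.span_induction with
  | mem D hD => exact ⟨1, one_pos, D, hD, by simp⟩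
  | zero => exact ⟨1, one_pos, _, a.smul X L _ 0 hL (by simp) (a.one X L), by funext x; simp⟩
  | add f g _ _ hf hg =>
    obtain ⟨K, hK, D, hD, rfl⟩ := hf
    obtain ⟨K', hK', D', hD', rfl⟩ := hg
    have h0 : 0 < K + K' := add_pos hK hK'
    refine ⟨K + K', h0, _, a.cvx X L hD hD' (a := K / (K + K')) (b := K' / (K + K'))
      (by positivity) (by positivity) (by field_simp), ?_⟩
    funext x
    have h1 : (K : ℂ) + K' ≠ 0 := by exact_mod_cast h0.ne'
    simp only [Pi.add_apply, Pi.smul_apply, Complex.real_smul]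
    push_cast
    field_simp
  | smul c f _ hf =>
    obtain ⟨K, hK, D, hD, rfl⟩ := hf
    have h0 : 0 < ‖c‖ + 1 := by positivity
    refine ⟨K * (‖c‖ + 1), by positivity, _, a.smul X L D (c / ((‖c‖ + 1 : ℝ) : ℂ)) hL ?_ hD, ?_⟩
    · rw [norm_div, Complex.norm_real, Real.norm_of_nonneg h0.le, div_le_one h0]
      linarith
    · funext x
      have h1 : ((‖c‖ + 1 : ℝ) : ℂ) ≠ 0 := by exact_mod_cast h0.ne'
      simp only [Pi.smul_apply, smul_eq_mul]
      rw [Complex.ofReal_mul]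
      field_simp

theorem intg {X : Sy} {f g : X.X → ℂ} (hf : MB X f) (hg : MB X g) (K : ℝ) :
    Integrable (fun x => ‖f x - K * g x‖) X.μ :=
  ((hf.integrable X.μ).sub ((hg.integrable X.μ).const_mul _)).norm

theorem shift {X : Sy} {f g : X.X → ℂ} (hf : MB X f) (hg : MB X g) (K : ℝ) (v : Gm 2) :
    ∫ x, ‖f (X.A v x) - K * g (X.A v x)‖ ∂X.μ = ∫ x, ‖f x - K * g x‖ ∂X.μ :=
  (act X).integral v (intg hf hg K).aestronglyMeasurable

theorem bdd {X : Sy} {L : List (Gm 2)} : ∀ φ ∈ DD X L, φ ∈ T3x.Bdd X.X :=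
  fun _ h => ⟨h.1.1, 1, h.1.2⟩

theorem apx (F : Fd) (a : DA) (m : DM) (X : Sy) {L : List (Gm 2)} (hL : L ≠ []) {f : X.X → ℂ}
    (hf : InZ X L f) {ε : ℝ} (hε : 0 < ε) :
    ∃ K : ℝ, 0 ≤ K ∧ ∃ D ∈ DD X L, ∫ x, ‖f x - K * D x‖ ∂X.μ ≤ ε := by
  have h2 : ∀ {g : X.X → ℂ}, MB X g → MemLp g 2 X.μ := fun hg =>
    MemLp.of_bound hg.1.aestronglyMeasurable 1 (Eventually.of_forall hg.2)
  obtain ⟨φ, hφ, h1⟩ := F.d.apx X.μ (DD X L) bdd ⟨_, a.one X L, EventuallyEq.rfl⟩
    (fun φ h φ' h' => ⟨_, m X L φ φ' h h', EventuallyEq.rfl⟩)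
    (fun φ h => ⟨_, a.cj X L φ h, EventuallyEq.rfl⟩) f (h2 hf.1) hf.2.1 (ε ^ 2) (by positivity)
  obtain ⟨K, hK, D, hD, rfl⟩ := span a X hL hφ
  refine ⟨K, hK.le, D, hD, ?_⟩
  have h3 : Integrable (fun x => ‖f x - K * D x‖ ^ 2) X.μ :=
    ((h2 hf.1).sub ((h2 hD.1).const_mul (K : ℂ))).norm.integrable_sq
  calc _ ≤ ∫ x, (ε / 2 + (2 * ε)⁻¹ * ‖f x - K * D x‖ ^ 2) ∂X.μ := by
        refine integral_mono (intg hf.1 hD.1 K) ((integrable_const _).add (h3.const_mul _))
          fun x => ?_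
        have h4 := mul_nonneg (inv_pos.2 (mul_pos two_pos hε)).le
          (sq_nonneg (‖f x - K * D x‖ - ε))
        have h5 : (2 * ε)⁻¹ * (‖f x - K * D x‖ - ε) ^ 2 =
            ε / 2 + (2 * ε)⁻¹ * ‖f x - K * D x‖ ^ 2 - ‖f x - K * D x‖ := by
          field_simp
          ring
        simp only
        linarith
    _ = ε / 2 + (2 * ε)⁻¹ * ∫ x, ‖f x - K * D x‖ ^ 2 ∂X.μ := by
        rw [integral_add (integrable_const _) (h3.const_mul _), integral_const_mul]
        simp
    _ ≤ ε / 2 + (2 * ε)⁻¹ * ε ^ 2 := by gcongr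
    _ = ε := by field_simp; ring

end ZFa

open ZFa in
theorem zf : ZFR := by
  intro F q a m
  have fac : ∀ (X : Sy) L, Fac X (ZL X L) := fun X L =>
    ⟨sup_le (gen_le X L) (F.a.nul_le _), le_sup_right,
      fun n => comap_le (X.mp n) fun D hD => a.tz X L D n hD⟩
  refine ⟨fac, dd, fun X L => dd X L _ (a.one X L),
    fun X L f g hf hg => ⟨hf.1.mul hg.1, hf.2.mul hg.2⟩, fun X L f hf => ⟨hf.1.cj, hf.2.conj⟩,
    fun X L f v hf => ⟨(act X).tz hf.1 v, F.t.bm X _ v f (fac X L) hf.2⟩,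
    fun X u L c hc => dd X _ _ (a.inv X u L c hc), fun X' X p L f hp hf => ?_,
    fun X L g hg h => ?_, fun X L f k hL hf => ⟨fun G hG => (q.der X f k G hf.1 hG).1, ?_⟩⟩
  · refine ⟨⟨hf.1.1.comp hp.mp.measurable, hf.1.2.comp _⟩,
      (F.a.bm_comp _ X'.μ X.μ p f hp.mp hf.2).mono (sup_le ?_ le_sup_right)⟩
    exact comap_le hp.mp fun D hD => a.pb X' X p L D hp hD
  · exact F.d.perp X.μ (DD X L) bdd ⟨_, a.one X L, EventuallyEq.rfl⟩
      (fun φ h φ' h' => ⟨_, m X L φ φ' h h', EventuallyEq.rfl⟩)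
      (fun φ h => ⟨_, a.cj X L φ h, EventuallyEq.rfl⟩) g (hg.integrable X.μ) h
  · induction k with
    | zero =>
      intro ε hε
      obtain ⟨K, hK, D, hD, h⟩ := apx F a m X hL hf hε
      refine ⟨K, hK, ?_⟩
      rintro _ ⟨v, rfl⟩
      exact ⟨_, a.tz X L D v hD, (shift hf.1 hD.1 K v).trans_le h⟩
    | succ k ih =>
      intro ε hε
      obtain ⟨K, hK, h1⟩ := ih (ε / 2) (by positivity)
      obtain ⟨K', hK', h2⟩ := ih (ε / 2 / (K + 1)) (by positivity)
      refine ⟨K * K', mul_nonneg hK hK', ?_⟩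
      rintro _ ⟨v, G, hG, rfl⟩
      obtain ⟨D, hD, e1⟩ := h1 G hG
      obtain ⟨D', hD', e2⟩ := h2 G hG
      have mG := (q.der X f k G hf.1 hG).1
      have mD := m X L _ _ (a.tz X L D v hD) (a.cj X L D' hD')
      refine ⟨_, mD, ?_⟩
      have i1 := intg ((act X).tz mG v) ((act X).tz hD.1 v) K
      have i2 := (intg mG hD'.1 K').const_mul K
      calc _ ≤ ∫ x, (‖G (X.A v x) - K * D (X.A v x)‖ + K * ‖G x - K' * D' x‖) ∂X.μ := by
            refine integral_mono (intg ((act X).dd mG v) mD.1 _) (i1.add i2) fun x => ?_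
            have e : ddX X.A v G x - ((K * K' : ℝ) : ℂ) * (D (X.A v x) * conj (D' x)) =
                (G (X.A v x) - K * D (X.A v x)) * conj (G x) +
                  K * (D (X.A v x) * conj (G x - K' * D' x)) := by
              simp only [ddX, map_sub, map_mul, Complex.conj_ofReal]
              push_cast
              ring
            simp only
            rw [e]
            refine (norm_add_le _ _).trans (add_le_add ?_ ?_)
            · rw [norm_mul, Complex.norm_conj]
              exact mul_le_of_le_one_right (norm_nonneg _) (mG.2 x)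
            · rw [norm_mul, norm_mul, Complex.norm_conj, Complex.norm_real, Real.norm_of_nonneg hK]
              exact mul_le_mul_of_nonneg_left
                (mul_le_of_le_one_left (norm_nonneg _) (hD.1.2 _)) hK
        _ ≤ ε / 2 + K * (ε / 2 / (K + 1)) := by
            rw [integral_add i1 i2, integral_const_mul, shift mG hD.1]
            gcongr
        _ ≤ ε := by
            have : K * (ε / 2 / (K + 1)) ≤ ε / 2 := by
              rw [← mul_div_assoc, div_le_iff₀ (by positivity)]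
              nlinarith
            linarith

end T6

end

end PkZF
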