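import Pool.Agent.MP_154433_an.t6.Spec
import Pool.Agent.MP_154433_an.t3s.Gcs
import Pool.Agent.MP_154433_an.t3s.Zero
import Pool.Agent.MP_154433_an.t3s.Four

/-! Two maps from uniform twisted averages, part 2 (packed). -/

section PkGcsB

/-! Row GcsB: the Cauchy-Schwarz bound for one block. -/

set_option autoImplicit false
set_option linter.unusedVariables false
set_option warn.classDefReducibility false

open MeasureTheory ProbabilityTheory Filter Topology Function
open scoped BigOperators ComplexConjugate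

noncomputable section

namespace T6

open Pool.Agent.MP_154433_an hiding BM
open T3S (B1 MB1 dif norm_exp_le norm_exp_le_of meas_exp integral_exp re_exp conj_exp exp_le_of_le)
open T4S (Gm Act ddX QX ln)
open T3S.Gcs (pow_exp_le exp_cons)

namespace GcsB

variable {l : ℕ} {X : Type} [MeasurableSpace X] {μ : Measure X} [IsProbabilityMeasure μ]
  {A : Gm l → X → X} {H : ℕ}

/-- the total shift -/
def tot {k : ℕ} (u : Fin k → Gm l) (h : Fin k → Fin H) : Gm l := ∑ i, ((h i : ℕ) : ℤ) • u i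

/-- the multilinear form -/
def Lam (μ : Measure X) (A : Gm l → X → X) {k : ℕ} (u : Fin k → Gm l) (Ψ : X → ℂ)
    (B : Fin k → (Fin k → Fin H) → X → ℂ) : ℂ :=
  𝔼 h : Fin k → Fin H, ∫ x, Ψ (A (tot u h) x) * ∏ i, B i h x ∂μ

lemma tot_cons {k : ℕ} (u : Fin (k + 1) → Gm l) (a : Fin H) (t : Fin k → Fin H) :
    tot u (Fin.cons a t) = ((a : ℕ) : ℤ) • u 0 + tot (fun j => u j.succ) t := by
  simp only [tot, Fin.sum_univ_succ, Fin.cons_zero, Fin.cons_succ]

lemma cs {f : X → ℂ} (hf : MB1 f) : (∫ x, ‖f x‖ ∂μ) ^ 2 ≤ (∫ x, f x * conj (f x) ∂μ).re := by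
  have m : AEStronglyMeasurable (fun x => ‖f x‖) μ := hf.1.norm.aestronglyMeasurable
  have h2 : MemLp (fun x => ‖f x‖) 2 μ :=
    MemLp.of_bound m 1 (Eventually.of_forall fun x => by simpa using hf.2 x)
  have h3 := variance_nonneg (fun x => ‖f x‖) μ
  rw [variance_eq_sub h2] at h3
  have h4 : ∫ x, f x * conj (f x) ∂μ = ((∫ x, ‖f x‖ ^ 2 ∂μ : ℝ) : ℂ) := by
    rw [← integral_complex_ofReal]
    exact integral_congr_ae (Eventually.of_forall fun x => by
      simp only [Complex.mul_conj, Complex.normSq_eq_norm_sq])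
  rw [h4, Complex.ofReal_re]
  exact sub_nonneg.1 h3

/-- the new function -/
def nΨ (A : Gm l → X → X) (v : Gm l) (Ψ : X → ℂ) (a a' : Fin H) (y : X) : ℂ :=
  ddX A ((((a' : ℕ) : ℤ) - ((a : ℕ) : ℤ)) • v) Ψ (A (((a : ℕ) : ℤ) • v) y)

/-- the new factors -/
def nB {k : ℕ} (B : Fin (k + 1) → (Fin (k + 1) → Fin H) → X → ℂ) (a a' : Fin H) (j : Fin k)
    (t : Fin k → Fin H) (x : X) : ℂ :=
  B j.succ (Fin.cons a' t) x * conj (B j.succ (Fin.cons a t) x)

lemma step (hA : Act μ A) (hH : 1 ≤ H) {k : ℕ} (u : Fin (k + 1) → Gm l) {Ψ : X → ℂ} (hΨ : MB1 Ψ)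
    {B : Fin (k + 1) → (Fin (k + 1) → Fin H) → X → ℂ} (hB : ∀ i h, MB1 (B i h))
    (hI : ∀ i h a, B i (update h i a) = B i h) :
    ‖Lam μ A u Ψ B‖ ^ 2 ≤ 𝔼 a : Fin H, 𝔼 a' : Fin H,
      (Lam μ A (fun j => u j.succ) (nΨ A (u 0) Ψ a a') (nB B a a')).re := by
  have a0 : Fin H := ⟨0, hH⟩
  have : Nonempty (Fin H) := ⟨a0⟩
  set G : (Fin k → Fin H) → Fin H → X → ℂ := fun t a x =>
    Ψ (A (tot u (Fin.cons a t)) x) * ∏ j : Fin k, B j.succ (Fin.cons a t) x with hG
  have mG : ∀ t a, MB1 (G t a) := fun t a =>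
    (hA.tz hΨ _).mul (T3S.MB1.prod _ fun j _ => hB _ _)
  set F : (Fin k → Fin H) → X → ℂ := fun t x => 𝔼 a, G t a x with hF
  have mF : ∀ t, MB1 (F t) := fun t =>
    ⟨meas_exp _ fun a _ => (mG t a).1, fun x => norm_exp_le_of zero_le_one fun a _ => (mG t a).2 x⟩
  have e1 : Lam μ A u Ψ B = 𝔼 t, ∫ x, B 0 (Fin.cons a0 t) x * F t x ∂μ := by
    rw [Lam, exp_cons, Finset.expect_comm]
    refine Finset.expect_congr rfl fun t _ => ?_
    simp only [hF, Finset.mul_expect]
    rw [integral_exp _ fun a _ => ((hB _ _).mul (mG t a)).integrable μ]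
    refine Finset.expect_congr rfl fun a _ => ?_
    refine integral_congr_ae (Eventually.of_forall fun x => ?_)
    have e : B 0 (Fin.cons a t) = B 0 (Fin.cons a0 t) := by
      rw [← hI 0 (Fin.cons a0 t) a, Fin.update_cons_zero]
    simp only [hG, Fin.prod_univ_succ, e]
    ring
  have h1 : ‖Lam μ A u Ψ B‖ ≤ 𝔼 t, ∫ x, ‖F t x‖ ∂μ := by
    rw [e1]
    refine (norm_exp_le _ _).trans (Finset.expect_le_expect fun t _ => ?_)
    refine (norm_integral_le_integral_norm _).trans (integral_mono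
      (((hB _ _).mul (mF t)).integrable μ).norm ((mF t).integrable μ).norm fun x => ?_)
    simp only [norm_mul]
    exact mul_le_of_le_one_left (norm_nonneg _) ((hB _ _).2 x)
  have h2 : (𝔼 t, ∫ x, ‖F t x‖ ∂μ) ^ 2 ≤ 𝔼 t, (∫ x, F t x * conj (F t x) ∂μ).re :=
    (pow_exp_le _ (fun t => integral_nonneg fun x => norm_nonneg _) 2).trans
      (Finset.expect_le_expect fun t _ => cs (mF t))
  refine (pow_le_pow_left₀ (norm_nonneg _) h1 2).trans (h2.trans (le_of_eq ?_))
  have e2 : ∀ t, ∫ x, F t x * conj (F t x) ∂μ =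
      𝔼 a : Fin H, 𝔼 a' : Fin H, ∫ x, G t a' x * conj (G t a x) ∂μ := fun t => by
    have e : ∀ x, F t x * conj (F t x) = 𝔼 a, 𝔼 a', G t a' x * conj (G t a x) := fun x => by
      simp only [hF]
      rw [conj_exp, Finset.mul_expect]
      exact Finset.expect_congr rfl fun a _ => Finset.expect_mul _ _ _
    have m1 : ∀ a, MB1 fun x => 𝔼 a', G t a' x * conj (G t a x) := fun a =>
      ⟨meas_exp _ fun a' _ => ((mG t a').mul (mG t a).cj).1,
        fun x => norm_exp_le_of zero_le_one fun a' _ => ((mG t a').mul (mG t a).cj).2 x⟩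
    simp only [e]
    rw [integral_exp _ fun a _ => (m1 a).integrable μ]
    exact Finset.expect_congr rfl fun a _ =>
      integral_exp _ fun a' _ => ((mG t a').mul (mG t a).cj).integrable μ
  simp only [e2, Lam, re_exp]
  rw [Finset.expect_comm]
  refine Finset.expect_congr rfl fun a _ => ?_
  rw [Finset.expect_comm]
  refine Finset.expect_congr rfl fun a' _ => Finset.expect_congr rfl fun t _ => ?_
  congr 2
  funext x
  simp only [hG, nΨ, nB, ddX, tot_cons, ← hA.add, map_mul, map_prod, Finset.prod_mul_distrib]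
  rw [sub_smul, ← add_assoc, sub_add_cancel]
  ring

lemma main (hA : Act μ A) (hH : 1 ≤ H) (k : ℕ) (u : Fin (k + 1) → Gm l) {Ψ : X → ℂ} (hΨ : MB1 Ψ)
    {B : Fin (k + 1) → (Fin (k + 1) → Fin H) → X → ℂ} (hB : ∀ i h, MB1 (B i h))
    (hI : ∀ i h a, B i (update h i a) = B i h) :
    ‖Lam μ A u Ψ B‖ ^ 2 ^ (k + 1) ≤ QX μ A ((List.ofFn u).map fun v => ln v H) Ψ := by
  have : Nonempty (Fin H) := ⟨⟨0, hH⟩⟩
  induction k generalizing Ψ with
  | zero =>
    have e : 2 ^ (0 + 1) = 2 := by norm_num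
    rw [e, List.ofFn_succ, List.map_cons, T4S.QX_ln]
    refine (step hA hH u hΨ hB hI).trans (le_of_eq ?_)
    refine Finset.expect_congr rfl fun a _ => Finset.expect_congr rfl fun a' _ => ?_
    rw [← hA.QX_tz _ (((a : ℕ) : ℤ) • u 0) (hA.dd hΨ _)]
    simp [Lam, tot, hA.zero, QX, nΨ]
  | succ k ih =>
    rw [pow_succ' 2 (k + 1), pow_mul, List.ofFn_succ, List.map_cons, T4S.QX_ln]
    have h1 : ‖Lam μ A u Ψ B‖ ^ 2 ≤ 𝔼 a : Fin H, 𝔼 a' : Fin H,
        ‖Lam μ A (fun j => u j.succ) (nΨ A (u 0) Ψ a a') (nB B a a')‖ :=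
      (step hA hH u hΨ hB hI).trans (Finset.expect_le_expect fun a _ =>
        Finset.expect_le_expect fun a' _ => Complex.re_le_norm _)
    refine (pow_le_pow_left₀ (sq_nonneg _) h1 _).trans ?_
    refine (pow_exp_le _ (fun a => Finset.expect_nonneg fun _ _ => norm_nonneg _) _).trans ?_
    refine Finset.expect_le_expect fun a _ => ?_
    refine (pow_exp_le _ (fun _ => norm_nonneg _) _).trans ?_
    refine Finset.expect_le_expect fun a' _ => ?_
    rw [← hA.QX_tz _ (((a : ℕ) : ℤ) • u 0) (hA.dd hΨ _)]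
    refine ih _ (hA.tz (hA.dd hΨ _) _) (fun j t => (hB _ _).mul (hB _ _).cj) fun j t b => ?_
    funext x
    simp only [nB, Fin.cons_update, hI]

lemma blk_le (hA : Act μ A) (hH : 1 ≤ H) (k : ℕ) (u : Fin (k + 1) → Gm l) {Ψ : X → ℂ}
    (hΨ : MB1 Ψ) {β : Fin (k + 1) → (Fin (k + 1) → ℤ) → X → ℂ} (hβ : ∀ i τ, MB1 (β i τ)) :
    ‖∫ x, Ψ x * 𝔼 h : Fin (k + 1) → Fin H, 𝔼 h' : Fin (k + 1) → Fin H,
      ∏ i, β i (update (dif h h') i 0) (A (dif h h' i • u i) x) ∂μ‖ ^ 2 ^ (k + 1) ≤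
      QX μ A ((List.ofFn u).map fun v => ln v H) Ψ := by
  have : Nonempty (Fin H) := ⟨⟨0, hH⟩⟩
  set B : (Fin (k + 1) → Fin H) → Fin (k + 1) → (Fin (k + 1) → Fin H) → X → ℂ := fun h' i h x =>
    β i (update (dif h h') i 0) (A (dif h h' i • u i + tot u h) x) with hB
  have mP : ∀ h h' : Fin (k + 1) → Fin H, MB1 fun x =>
      Ψ x * ∏ i, β i (update (dif h h') i 0) (A (dif h h' i • u i) x) := fun h h' =>
    hΨ.mul (T3S.MB1.prod _ fun i _ => hA.tz (hβ _ _) _)
  have e1 : ∫ x, Ψ x * 𝔼 h : Fin (k + 1) → Fin H, 𝔼 h' : Fin (k + 1) → Fin H,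
      ∏ i, β i (update (dif h h') i 0) (A (dif h h' i • u i) x) ∂μ =
      𝔼 h', Lam μ A u Ψ (B h') := by
    simp only [Finset.mul_expect, Lam]
    have m1 : ∀ h : Fin (k + 1) → Fin H, MB1 fun x => 𝔼 h' : Fin (k + 1) → Fin H,
        Ψ x * ∏ i, β i (update (dif h h') i 0) (A (dif h h' i • u i) x) := fun h =>
      ⟨meas_exp _ fun h' _ => (mP h h').1,
        fun x => norm_exp_le_of zero_le_one fun h' _ => (mP h h').2 x⟩
    rw [integral_exp _ fun h _ => (m1 h).integrable μ, Finset.expect_comm]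
    refine Finset.expect_congr rfl fun h _ => ?_
    rw [integral_exp _ fun h' _ => (mP h h').integrable μ]
    refine Finset.expect_congr rfl fun h' _ => ?_
    rw [← hA.integral (tot u h) (mP h h').1.aestronglyMeasurable]
    simp only [hB, hA.add]
  rw [e1]
  refine (pow_le_pow_left₀ (norm_nonneg _) (norm_exp_le _ _) _).trans ?_
  refine (pow_exp_le _ (fun _ => norm_nonneg _) _).trans ?_
  refine Finset.expect_le Finset.univ_nonempty fun h' _ => ?_
  refine main hA hH k u hΨ (fun i h => hA.tz (hβ _ _) _) fun i h a => ?_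
  have e2 : update (dif (update h i a) h') i 0 = update (dif h h') i 0 := by
    funext j
    by_cases hj : j = i
    · subst hj
      simp
    · simp [hj, dif]
  have e3 : ∀ g : Fin (k + 1) → Fin H, dif g h' i • u i + tot u g =
      ((h' i : ℕ) : ℤ) • u i + ∑ j ∈ Finset.univ.erase i, ((g j : ℕ) : ℤ) • u j := fun g => by
    rw [tot, ← Finset.add_sum_erase _ _ (Finset.mem_univ i), dif, sub_smul, ← add_assoc,
      sub_add_cancel]
  funext x
  simp only [hB, e2, e3]
  congr 3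
  exact Finset.sum_congr rfl fun j hj => by rw [update_of_ne (Finset.ne_of_mem_erase hj)]

end GcsB

theorem gcsB : GcsBR := by
  intro _ X L H Ψ β hL hH hΨ hβ
  cases L with
  | nil => exact absurd rfl hL
  | cons v L =>
    have h := GcsB.blk_le (act X) hH L.length (v :: L).get hΨ hβ
    rw [List.ofFn_get] at h
    exact h

end T6

end

end PkGcsB

section PkGcsD

/-! Row GcsD: the Cauchy-Schwarz bound for dual functions, at every length. -/

set_option autoImplicit false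
set_option linter.unusedVariables false
set_option warn.classDefReducibility false

open MeasureTheory ProbabilityTheory Filter Topology Function
open scoped BigOperators ComplexConjugate

noncomputable section

namespace T6

open Pool.Agent.MP_154433_an hiding BM
open T3S (B1 MB1 dif)
open T4S (Gm)

namespace GcsD

variable {X : Sy} {k : ℕ} {u : Fin k → Gm 2} {Ψ : X.X → ℂ}

/-- one term of the pairing with a block -/
def tm (X : Sy) (u : Fin k → Gm 2) (Ψ : X.X → ℂ) (β : Fin k → (Fin k → ℤ) → X.X → ℂ)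
    (τ : Fin k → ℤ) : ℂ := ∫ x, Ψ x * ∏ i, β i (update τ i 0) (X.A (τ i • u i) x) ∂X.μ

lemma mb {β : Fin k → (Fin k → ℤ) → X.X → ℂ} (hΨ : MB X Ψ) (hβ : ∀ i τ, MB X (β i τ))
    (τ : Fin k → ℤ) : MB X fun x => Ψ x * ∏ i, β i (update τ i 0) (X.A (τ i • u i) x) :=
  hΨ.mul (MB1.prod _ fun i _ => (act X).tz (hβ _ _) _)

lemma nrm {f : X.X → ℂ} (hf : MB X f) : ‖∫ x, f x ∂X.μ‖ ≤ 1 := by
  simpa using norm_integral_le_of_norm_le_const (μ := X.μ) (Eventually.of_forall hf.2)

lemma pair {β : Fin k → (Fin k → ℤ) → X.X → ℂ} (hΨ : MB X Ψ) (hβ : ∀ i τ, MB X (β i τ)) (H : ℕ) :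
    ∫ x, Ψ x * blk X u H β x ∂X.μ =
      𝔼 h : Fin k → Fin H, 𝔼 h' : Fin k → Fin H, tm X u Ψ β (dif h h') := by
  simp only [blk, Finset.mul_expect, tm]
  rw [T3S.integral_exp _ fun h _ => ?_]
  · exact Finset.expect_congr rfl fun h _ =>
      T3S.integral_exp _ fun h' _ => (mb hΨ hβ _).integrable _
  · exact MB1.integrable ⟨T3S.meas_exp _ fun h' _ => (mb hΨ hβ _).1, fun x =>
      T3S.norm_exp_le_of zero_le_one fun h' _ => (mb hΨ hβ _).2 x⟩ _

lemma long (hS : T3S.ShiftS) {H H' : ℕ} {ρ : ℝ} (hρ : 0 ≤ ρ) (hH : 1 ≤ H) (hH' : 1 ≤ H')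
    (hΨ : MB X Ψ) (hb : ∀ β : Fin k → (Fin k → ℤ) → X.X → ℂ, (∀ i τ, MB X (β i τ)) →
      ‖∫ x, Ψ x * blk X u H β x ∂X.μ‖ ≤ ρ) {β : Fin k → (Fin k → ℤ) → X.X → ℂ}
    (hβ : ∀ i τ, MB X (β i τ)) : ‖∫ x, Ψ x * blk X u H' β x ∂X.μ‖ ≤ ρ + 4 * k * H / H' := by
  have h1 := hS k H' H (tm X u Ψ β) hH' hH fun τ => nrm (mb hΨ hβ τ)
  rw [pair hΨ hβ]
  refine (norm_le_norm_add_norm_sub' _ _).trans (add_le_add ?_ h1)
  refine T3S.norm_exp_le_of hρ fun h _ => T3S.norm_exp_le_of hρ fun h' _ => ?_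
  have h2 : ∀ i s, MB X fun y => β i (update (dif h h') i 0 + s) (X.A (dif h h' i • u i) y) :=
    fun i s => (act X).tz (hβ _ _) _
  refine le_of_eq_of_le (congrArg _ ?_) (hb _ h2)
  rw [pair hΨ h2]
  refine Finset.expect_congr rfl fun v _ => Finset.expect_congr rfl fun v' _ => ?_
  simp only [tm, Pi.add_apply, add_smul, (act X).add, ← Function.update_add, add_zero]

end GcsD

theorem gcsD : GcsDR := by
  intro hS hQ hD hB X L H Ψ D hL hH hΨ hDD
  have q0 := hQ.nonneg X L H Ψ hL hΨ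
  have hn : 2 ^ L.length ≠ 0 := by positivity
  obtain ⟨ρ, hρ, e⟩ : ∃ ρ : ℝ, 0 ≤ ρ ∧ ρ ^ 2 ^ L.length = QE X L H Ψ :=
    ⟨_, Real.rpow_nonneg q0 _, Real.rpow_inv_natCast_pow q0 hn⟩
  rw [← e]
  refine pow_le_pow_left₀ (norm_nonneg _) (le_of_forall_pos_le_add fun ε hε => ?_) _
  obtain ⟨H0, hH0⟩ := exists_nat_gt (4 * L.length * H / (ε / 2))
  have p0 : (0 : ℝ) < H0 := lt_of_le_of_lt (by positivity) hH0
  obtain ⟨v, hv, hv'⟩ := hDD.2 H0 (ε / 2) (half_pos hε)
  have mv := hD.cx X L H0 v hv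
  have key : MB X v ∧ ‖∫ x, Ψ x * v x ∂X.μ‖ ≤ ρ + ε / 2 := by
    refine convexHull_min (t := {v | MB X v ∧ ‖∫ x, Ψ x * v x ∂X.μ‖ ≤ ρ + ε / 2}) ?_ ?_ hv
    · rintro _ ⟨H', β, h1, h2, rfl⟩
      have p1 : (H0 : ℝ) ≤ H' := by exact_mod_cast h1
      refine ⟨hD.cx X L H0 _ (subset_convexHull ℝ _ ⟨H', β, h1, h2, rfl⟩),
        (GcsD.long hS hρ hH (by exact_mod_cast p0.trans_le p1) hΨ (fun β hβ => ?_) h2).trans
          (add_le_add le_rfl ?_)⟩
      · exact (pow_le_pow_iff_left₀ (norm_nonneg _) hρ hn).1 (e ▸ hB X L H Ψ β hL hH hΨ hβ)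
      · rw [div_lt_iff₀ (half_pos hε)] at hH0
        rw [div_le_iff₀ (p0.trans_le p1)]
        nlinarith
    · intro f hf g hg a b ha hb hab
      refine ⟨MB1.convex hf.1 hg.1 ha hb hab, ?_⟩
      have e1 : ∫ x, Ψ x * (a • f + b • g) x ∂X.μ =
          a • ∫ x, Ψ x * f x ∂X.μ + b • ∫ x, Ψ x * g x ∂X.μ := by
        rw [← integral_smul, ← integral_smul]
        simp only [Pi.add_apply, Pi.smul_apply, mul_add, mul_smul_comm]
        exact integral_add (((hΨ.mul hf.1).integrable _).smul a)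
          (((hΨ.mul hg.1).integrable _).smul b)
      rw [e1]
      refine (norm_add_le _ _).trans ?_
      rw [norm_smul, norm_smul, Real.norm_of_nonneg ha, Real.norm_of_nonneg hb]
      have a1 := mul_le_mul_of_nonneg_left hf.2 ha
      have a2 := mul_le_mul_of_nonneg_left hg.2 hb
      have a3 : a * (ρ + ε / 2) + b * (ρ + ε / 2) = ρ + ε / 2 := by rw [← add_mul, hab, one_mul]
      linarith
  have i1 := (hΨ.mul hDD.1).integrable X.μ
  have i2 := (hΨ.mul mv).integrable X.μ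
  have d : ‖∫ x, Ψ x * D x ∂X.μ - ∫ x, Ψ x * v x ∂X.μ‖ ≤ ε / 2 := by
    rw [← integral_sub i1 i2]
    refine (norm_integral_le_of_norm_le ((hDD.1.integrable X.μ).sub (mv.integrable X.μ)).norm
      (Eventually.of_forall fun x => ?_)).trans hv'
    rw [← mul_sub, norm_mul]
    exact mul_le_of_le_one_left (norm_nonneg _) (hΨ.2 x)
  linarith [norm_le_norm_add_norm_sub' (∫ x, Ψ x * D x ∂X.μ) (∫ x, Ψ x * v x ∂X.μ), key.2]

end T6

end

end PkGcsD

section PkNulInv

/-! One direction of a box may be read through its invariant factor. -/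

set_option autoImplicit false
set_option linter.unusedVariables false
set_option warn.classDefReducibility false

open MeasureTheory ProbabilityTheory Filter Topology Function
open scoped BigOperators ComplexConjugate

noncomputable section

namespace T6

open Pool.Agent.MP_154433_an hiding BM
open T3S (B1 MB1 re_exp conj_exp meas_exp norm_exp_le_of)
open T4S (Gm Act ddX QX ln QX_ln Fam)
open T4x (Fac Fd Inv)

namespace NulInv

lemma app (X : Sy) (H : ℕ) (M : List (Fam 2)) (L : List (Gm 2)) (f g : X.X → ℂ) :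
    QX X.μ X.A ((L.map fun u => ln u H) ++ M) f =
      EL X H L (fun f' _ => QX X.μ X.A M f') f g := by
  induction L generalizing f g with
  | nil => rfl
  | cons u L ih =>
    rw [List.map_cons, List.cons_append, QX_ln]
    simp only [EL]
    exact Finset.expect_congr rfl fun h _ => Finset.expect_congr rfl fun h' _ => ih _ _

/-- the average along one line -/
def av (X : Sy) (u : Gm 2) (M : ℕ) (G : X.X → ℂ) (x : X.X) : ℂ :=
  𝔼 h : Fin M, G (X.A (((h : ℕ) : ℤ) • u) x)

lemma av_MB (X : Sy) (u : Gm 2) (M : ℕ) (G : X.X → ℂ) (hG : MB X G) : MB X (av X u M G) :=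
  ⟨meas_exp _ fun h _ => ((act X).tz hG _).1,
    fun x => norm_exp_le_of zero_le_one fun h _ => hG.2 _⟩

lemma av_eq (X : Sy) (u : Gm 2) (M : ℕ) (G : X.X → ℂ) (x : X.X) :
    av X u M G x = (M : ℂ)⁻¹ * ∑ n ∈ Finset.range M, G (X.Tz ((n : ℤ) • u) x) := by
  rw [av, Finset.expect_eq_sum_div_card, Finset.card_univ, Fintype.card_fin,
    ← Fin.sum_univ_eq_sum_range (fun n : ℕ => G (X.Tz ((n : ℤ) • u) x)) M, div_eq_inv_mul]

lemma one (X : Sy) (u : Gm 2) (M : ℕ) (G : X.X → ℂ) (hG : MB X G) :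
    QX X.μ X.A [ln u M] G = ∫ x, ‖av X u M G x‖ ^ 2 ∂X.μ := by
  have hA := act X
  have hm : ∀ h h' : Fin M, MB X fun x =>
      G (X.A (((h' : ℕ) : ℤ) • u) x) * conj (G (X.A (((h : ℕ) : ℤ) • u) x)) :=
    fun h h' => (hA.tz hG _).mul (hA.tz hG _).cj
  have e1 : ∀ h h' : Fin M,
      ∫ x, ddX X.A ((((h' : ℕ) : ℤ) - ((h : ℕ) : ℤ)) • u) G x ∂X.μ =
      ∫ x, G (X.A (((h' : ℕ) : ℤ) • u) x) * conj (G (X.A (((h : ℕ) : ℤ) • u) x)) ∂X.μ := by
    intro h h'
    rw [← hA.integral (((h : ℕ) : ℤ) • u) (hA.dd hG _).1.aestronglyMeasurable]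
    refine integral_congr_ae (Eventually.of_forall fun x => ?_)
    simp only [ddX]
    rw [← hA.add, ← add_smul, sub_add_cancel]
  have e2 : ∀ x, ((‖av X u M G x‖ ^ 2 : ℝ) : ℂ) = 𝔼 h : Fin M, 𝔼 h' : Fin M,
      G (X.A (((h' : ℕ) : ℤ) • u) x) * conj (G (X.A (((h : ℕ) : ℤ) • u) x)) := by
    intro x
    rw [Complex.ofReal_pow, ← Complex.mul_conj', av, conj_exp, Finset.mul_expect]
    exact Finset.expect_congr rfl fun h _ => Finset.expect_mul _ _ _
  rw [QX_ln]
  simp only [QX, e1]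
  have e3 : ((∫ x, ‖av X u M G x‖ ^ 2 ∂X.μ : ℝ) : ℂ) = 𝔼 h : Fin M, 𝔼 h' : Fin M,
      ∫ x, G (X.A (((h' : ℕ) : ℤ) • u) x) * conj (G (X.A (((h : ℕ) : ℤ) • u) x)) ∂X.μ := by
    rw [← integral_complex_ofReal]
    simp only [e2]
    rw [T3S.integral_exp]
    · exact Finset.expect_congr rfl fun h _ =>
        T3S.integral_exp _ fun h' _ => (hm h h').integrable X.μ
    · intro h _
      exact MB1.integrable ⟨meas_exp _ fun h' _ => (hm h h').1,
        fun x => norm_exp_le_of zero_le_one fun h' _ => (hm h h').2 x⟩ X.μ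
  rw [← Complex.ofReal_re (∫ x, ‖av X u M G x‖ ^ 2 ∂X.μ), e3, re_exp]
  exact Finset.expect_congr rfl fun h _ => (re_exp _ _).symm

lemma lim (F : Fd) (X : Sy) (u : Gm 2) (G : X.X → ℂ) (hG : MB X G) (ε : ℝ) (hε : 0 < ε) :
    ∀ᶠ M in atTop, QX X.μ X.A [ln u M] G ≤
      ε + 2 * ∫ x, ‖(X.μ[G | Inv X {u}]) x‖ ^ 2 ∂X.μ := by
  have h2 : MemLp G 2 X.μ :=
    MemLp.of_bound hG.1.aestronglyMeasurable 1 (Eventually.of_forall hG.2)
  have hc : MemLp (X.μ[G | Inv X {u}]) 2 X.μ := h2.condExp one_le_two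
  have ht := F.met X u G h2
  filter_upwards [ht.eventually (gt_mem_nhds (half_pos hε))] with M hM
  rw [one X u M G hG]
  have ha := av_MB X u M G hG
  have ha2 : MemLp (av X u M G) 2 X.μ :=
    MemLp.of_bound ha.1.aestronglyMeasurable 1 (Eventually.of_forall ha.2)
  have i1 : Integrable (fun x => ‖av X u M G x - (X.μ[G | Inv X {u}]) x‖ ^ 2) X.μ :=
    (memLp_two_iff_integrable_sq_norm (ha2.sub hc).1).1 (ha2.sub hc)
  have i2 : Integrable (fun x => ‖(X.μ[G | Inv X {u}]) x‖ ^ 2) X.μ :=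
    (memLp_two_iff_integrable_sq_norm hc.1).1 hc
  have i0 : Integrable (fun x => ‖av X u M G x‖ ^ 2) X.μ :=
    (memLp_two_iff_integrable_sq_norm ha2.1).1 ha2
  have le : ∫ x, ‖av X u M G x‖ ^ 2 ∂X.μ ≤
      ∫ x, (2 * ‖av X u M G x - (X.μ[G | Inv X {u}]) x‖ ^ 2 +
        2 * ‖(X.μ[G | Inv X {u}]) x‖ ^ 2) ∂X.μ := by
    refine integral_mono i0 ((i1.const_mul 2).add (i2.const_mul 2)) fun x => ?_
    have h := norm_le_norm_sub_add (av X u M G x) ((X.μ[G | Inv X {u}]) x)
    have h0 := norm_nonneg (av X u M G x)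
    have h3 := pow_le_pow_left₀ h0 h 2
    show ‖av X u M G x‖ ^ 2 ≤ _
    nlinarith [sq_nonneg (‖av X u M G x - (X.μ[G | Inv X {u}]) x‖ - ‖(X.μ[G | Inv X {u}]) x‖)]
  rw [integral_add (i1.const_mul 2) (i2.const_mul 2), integral_const_mul, integral_const_mul] at le
  simp only [← av_eq] at hM
  linarith

end NulInv

theorem nulInv : NulInvR := by
  intro F hP hQ hS X u L g hg h ε hε
  obtain ⟨H, hH, hE⟩ := h (ε / 8) (by positivity)
  have h1 := hQ.elc X (fun M f _ => QX X.μ X.A [ln u M] f)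
    (fun G _ => ∫ x, ‖(X.μ[G | Inv X {u}]) x‖ ^ 2 ∂X.μ) g (ε / 4) 2 H L hH hg
    (fun f g' hf _ => NulInv.lim F X u f hf _ (by positivity)) g hg
  obtain ⟨M, hM, hM1⟩ := (h1.and (eventually_ge_atTop 1)).exists
  have h2 := hS X ((u, M) :: L.map fun v => (v, H)) g hg (by
    intro p hp
    rcases List.mem_cons.1 hp with rfl | hp
    · exact hM1
    · obtain ⟨v, -, rfl⟩ := List.mem_map.1 hp
      exact hH) (ε / 2) (half_pos hε)
  obtain ⟨H', h3, h4⟩ := (h2.and (eventually_ge_atTop 1)).exists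
  refine ⟨H', h4, ?_⟩
  have e1 : ((u, M) :: L.map fun v => (v, H)).map Prod.fst = u :: L := by
    simp [List.map_map, Function.comp_def]
  have e2 : QL X ((u, M) :: L.map fun v => (v, H)) g =
      EL X H L (fun f _ => QX X.μ X.A [ln u M] f) g g := by
    rw [← NulInv.app X H [ln u M] L g g, QL]
    refine hP 2 X.X X.μ X.A (act X) _ _ ?_ g
    rw [List.map_cons, List.map_map]
    exact (List.perm_append_singleton _ _).symm
  rw [e1, e2] at h3
  linarith

end T6

end

end PkNulInv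

section PkConc

/-! Row Conc: a function dual to the box of `s = v + k u` that is null for `v, v, L` is null for
`u, L`. -/

set_option autoImplicit false
set_option linter.unusedVariables false
set_option warn.classDefReducibility false

open MeasureTheory ProbabilityTheory Filter Topology Function
open scoped BigOperators ComplexConjugate

noncomputable section

namespace T6

open Pool.Agent.MP_154433_an hiding BM
open T3S (B1 MB1 PW AsInv Erg Bd Near Gr yw dif CZ)
open T4S (Gm Act ddX QX ln Spr Concl)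
open Fib27 (BM)
open T3x (nul pull gen)
open T4x (Fac Emb Inv Nice Pair Star KK Fd)

namespace Conc

variable {X : Sy} {u : Gm 2} {c : X.X → ℂ}

lemma pull_ae (w : Gm 2) {f g : X.X → ℂ} (h : f =ᵐ[X.μ] g) :
    (fun x => f (X.A w x)) =ᵐ[X.μ] fun x => g (X.A w x) :=
  ((act X).mp w).quasiMeasurePreserving.ae_eq_comp h

lemma ivf_dd (h : IvF X u c) (w : Gm 2) : IvF X u (ddX X.A w c) := by
  refine ⟨(act X).dd h.1 w, ?_⟩
  filter_upwards [h.2, pull_ae w h.2] with x h1 h2
  simp only [ddX]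
  rw [(act X).comm w u x, h1, h2]

lemma dd_shift (hV : VB) (h : IvF X u c) (v : Gm 2) (k n : ℤ) :
    ddX X.A (n • (v + k • u)) c =ᵐ[X.μ] ddX X.A (n • v) c := by
  filter_upwards [pull_ae (n • v) (hV.ivz X u c (n * k) h).2] with x h1
  have e : n • (v + k • u) = (n * k) • u + n • v := by
    rw [smul_add, smul_smul, add_comm]
  simp only [ddX]
  rw [e, (act X).add, h1]

lemma qe_step (hV : VB) (hQ : QB) (v : Gm 2) (k : ℤ) (H : ℕ) {L L' : List (Gm 2)}
    (ih : ∀ c, IvF X u c → QE X L H c = QE X L' H c) (c : X.X → ℂ) (h : IvF X u c) :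
    QE X ((v + k • u) :: L) H c = QE X (v :: L') H c := by
  simp only [QE, List.map_cons, T4S.QX_ln]
  refine Finset.expect_congr rfl fun a _ => Finset.expect_congr rfl fun a' _ => ?_
  exact (hQ.congr X L H _ _ (dd_shift hV h v k _)).trans (ih _ (ivf_dd h _))

lemma el_swap (H : ℕ) (Φ : (X.X → ℂ) → ℝ) (L : List (Gm 2)) (f g f' : X.X → ℂ) :
    EL X H L (fun G _ => Φ G) f g = EL X H L (fun _ G => Φ G) f' f := by
  induction L generalizing f g f' with
  | nil => rfl
  | cons a L ih =>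
    simp only [EL]
    exact Finset.expect_congr rfl fun a _ => Finset.expect_congr rfl fun a' _ => ih _ _ _

lemma bm_of {f : X.X → ℂ} (h : MB X f) : BM X.μ X.ms f :=
  ⟨h.1.aestronglyMeasurable, 1, Eventually.of_forall h.2⟩

lemma sq_core {G G' D P : X.X → ℂ} (hG : MB X G) (hG' : MB X G') (hP : G' =ᵐ[X.μ] P)
    (e1 : ∫ x, P x * conj (G' x) ∂X.μ = ∫ x, G x * conj (G' x) ∂X.μ) (hD : MB X D) {K : ℝ}
    (hK : 0 ≤ K) : ∫ x, ‖P x‖ ^ 2 ∂X.μ ≤
      ∫ x, ‖G x - K * D x‖ ∂X.μ + K * ‖∫ x, conj (G' x) * D x ∂X.μ‖ := by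
  have e2 : ∫ x, P x * conj (G' x) ∂X.μ = ((∫ x, ‖P x‖ ^ 2 ∂X.μ : ℝ) : ℂ) := by
    rw [← integral_complex_ofReal]
    refine integral_congr_ae ?_
    filter_upwards [hP] with x hx
    rw [hx, Complex.mul_conj', Complex.ofReal_pow]
  have i1 : Integrable (fun x => conj (G' x) * D x) X.μ := (bm_of (hG'.cj.mul hD)).integrable
  have i0 : Integrable (fun x => G x - K * D x) X.μ :=
    (bm_of hG).integrable.sub ((bm_of hD).integrable.const_mul _)
  have i2 : Integrable (fun x => (G x - K * D x) * conj (G' x)) X.μ :=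
    (((bm_of hG).sub ((bm_of hD).cmul _)).mul (bm_of hG'.cj)).integrable
  have e3 : ∫ x, G x * conj (G' x) ∂X.μ =
      ∫ x, (G x - K * D x) * conj (G' x) ∂X.μ + K * ∫ x, conj (G' x) * D x ∂X.μ := by
    rw [← integral_const_mul, ← integral_add i2 (i1.const_mul _)]
    exact integral_congr_ae (Eventually.of_forall fun x => by ring)
  have e4 : ‖∫ x, (G x - K * D x) * conj (G' x) ∂X.μ‖ ≤ ∫ x, ‖G x - K * D x‖ ∂X.μ :=
    norm_integral_le_of_norm_le i0.norm (Eventually.of_forall fun x => by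
      rw [norm_mul]
      exact mul_le_of_le_one_right (norm_nonneg _) (hG'.cj.2 x))
  have e5 : ∫ x, ‖P x‖ ^ 2 ∂X.μ ≤ ‖∫ x, G x * conj (G' x) ∂X.μ‖ := by
    rw [← e1, e2, Complex.norm_real]
    exact le_abs_self _
  refine e5.trans ?_
  rw [e3]
  refine (norm_add_le _ _).trans (add_le_add e4 (le_of_eq ?_))
  rw [norm_mul, Complex.norm_real, Real.norm_of_nonneg hK]

lemma sq_le {Y : MeasurableSpace X.X} (hY : Y ≤ X.ms) {G G' D : X.X → ℂ} (hG : MB X G)
    (hV : Ver X Y G G') (hm : Measurable[Y] G') (hD : MB X D) {K : ℝ} (hK : 0 ≤ K) :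
    ∫ x, ‖(X.μ[G | Y]) x‖ ^ 2 ∂X.μ ≤
      ∫ x, ‖G x - K * D x‖ ∂X.μ + K * ‖∫ x, conj (G' x) * D x ∂X.μ‖ :=
  have b1 : BM X.μ Y G' :=
    ⟨hm.stronglyMeasurable.aestronglyMeasurable, 1, Eventually.of_forall hV.1.2⟩
  sq_core hG hV.1 hV.2 (Fib27.int_ce_mul hY (bm_of hG) b1.conj) hD hK

end Conc

open Conc

theorem conc : ConcR := by
  intro hF hV hQ hZ hG hM hN X s u v k L F hs e hn
  refine hN X u L F hs.1 fun ε hε => ?_
  have hY : Fac X (Inv X {u}) := hF.t.finv X {u}
  obtain ⟨K1, hK1, h1⟩ := (hZ.ua X [s, s] F L.length (by simp) hs).2 (ε / 3) (by positivity)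
  obtain ⟨K2, hK2, h2⟩ := hQ.pw 4 (ε / (3 * (K1 + 1))) (by positivity)
  obtain ⟨H, hH, h3⟩ := hn (ε / (3 * (K1 * K2 + 1))) (by positivity)
  refine ⟨H, hH, ?_⟩
  have key : ∀ f G, MB X f → G ∈ Der X F L.length → ∀ᶠ M : ℕ in atTop,
      ∫ x, ‖(X.μ[G | Inv X {u}]) x‖ ^ 2 ∂X.μ ≤ 2 * ε / 3 + K1 * K2 * QE X [v, v] H G := by
    intro f G _ hGm
    refine Eventually.of_forall fun _ => ?_
    have mG := (hQ.der X F _ G hs.1 hGm).1
    obtain ⟨D, hD, hD'⟩ := h1 G hGm
    obtain ⟨G', hG', hm⟩ := hV.ver X _ G hY mG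
    have iv : IvF X u G' := (hV.ivf X u G' hG'.1).2
      ⟨hm.stronglyMeasurable.aestronglyMeasurable, 1, Eventually.of_forall hG'.1.2⟩
    have a1 := hG X [s, s] H _ D (by simp) hH hG'.1.cj hD
    have a2 : QE X [s, s] H G' = QE X [v, v] H G' := by
      rw [e]
      exact qe_step hV hQ v k H (qe_step hV hQ v k H fun _ _ => rfl) G' iv
    rw [hQ.cj, a2] at a1
    have a3 := hM X _ [v, v] H G G' hY (by simp) hH mG hG'
    have a4 : ‖∫ x, conj (G' x) * D x ∂X.μ‖ ^ 2 ^ 4 ≤ QE X [v, v] H G := by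
      refine le_trans ?_ a3
      rw [show 2 ^ 4 = 2 ^ [s, s].length * 2 ^ [v, v].length from rfl, pow_mul]
      exact pow_le_pow_left₀ (by positivity) a1 _
    have a5 := h2 _ _ (hQ.nonneg X [v, v] H G (by simp) mG) a4
    have a6 := sq_le hY.le mG hG' hm hD.1 hK1
    have a7 : K1 * (ε / (3 * (K1 + 1))) ≤ ε / 3 := by
      rw [mul_div_assoc', div_le_div_iff₀ (by positivity) (by positivity)]
      nlinarith
    have a8 := mul_le_mul_of_nonneg_left a5 hK1
    nlinarith
  obtain ⟨_, b1⟩ := (hQ.elc X (fun _ _ G => ∫ x, ‖(X.μ[G | Inv X {u}]) x‖ ^ 2 ∂X.μ)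
    (fun _ G => QE X [v, v] H G) F (2 * ε / 3) (K1 * K2) H L hH hs.1 key F hs.1).exists
  rw [← hQ.app2 X L [v, v] H F F, hQ.perm X (L ++ [v, v]) (v :: v :: L) H F
    List.perm_append_comm] at b1
  rw [el_swap H (fun G => ∫ x, ‖(X.μ[G | Inv X {u}]) x‖ ^ 2 ∂X.μ) L F F F]
  have b2 : K1 * K2 * (ε / (3 * (K1 * K2 + 1))) ≤ ε / 3 := by
    have := mul_nonneg hK1 hK2
    rw [mul_div_assoc', div_le_div_iff₀ (by positivity) (by positivity)]
    nlinarith
  have b3 := mul_le_mul_of_nonneg_left h3 (mul_nonneg hK1 hK2)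
  linarith

end T6

end

end PkConc

section PkKill

/-! Row Kill: a factor that is dual to a box is removed by derivatives. -/

set_option autoImplicit false
set_option linter.unusedVariables false
set_option warn.classDefReducibility false

open MeasureTheory ProbabilityTheory Filter Topology Function
open scoped BigOperators ComplexConjugate

noncomputable section

namespace T6

open Pool.Agent.MP_154433_an hiding BM
open T3S (B1 MB1)
open T4S (Gm Act ddX QX ln)

namespace Kill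

variable (X : Sy) (a b : Gm 2) (κ : ℕ → ℝ) (M : ℕ)

def SS (f g : X.X → ℂ) (x : X.X) : ℂ :=
  ∑ d ∈ Finset.range M, (κ d : ℂ) * (f (X.A ((d : ℤ) • a) x) * g (X.A ((d : ℤ) • b) x))

def Ps (f0 f g : X.X → ℂ) (d : ℕ) (x : X.X) : ℂ :=
  f0 x * (f (X.A ((d : ℤ) • a) x) * g (X.A ((d : ℤ) • b) x))

variable {X}

lemma ps_mb {f0 f g : X.X → ℂ} (h0 : MB X f0) (hf : MB X f) (hg : MB X g) (d : ℕ) :
    MB X (Ps X a b f0 f g d) := h0.mul (((act X).tz hf _).mul ((act X).tz hg _))

lemma base {f0 f g : X.X → ℂ} (h0 : MB X f0) (hf : MB X f) (hg : MB X g) :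
    ∑ d ∈ Finset.range M, κ d * (∫ x, Ps X a b f0 f g d x ∂X.μ).re =
      (∫ x, f0 x * SS X a b κ M f g x ∂X.μ).re := by
  have h : ∫ x, f0 x * SS X a b κ M f g x ∂X.μ =
      ∑ d ∈ Finset.range M, (κ d : ℂ) * ∫ x, Ps X a b f0 f g d x ∂X.μ := by
    simp only [← integral_const_mul]
    rw [← integral_finset_sum _ fun d _ => ((ps_mb a b h0 hf hg d).integrable X.μ).const_mul _]
    refine integral_congr_ae (Eventually.of_forall fun x => ?_)
    simp only [SS, Ps, Finset.mul_sum]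
    exact Finset.sum_congr rfl fun d _ => by ring
  rw [h, Complex.re_sum]
  exact Finset.sum_congr rfl fun d _ => by simp

lemma ss_int {f g : X.X → ℂ} (hf : MB X f) (hg : MB X g) : Integrable (SS X a b κ M f g) X.μ :=
  integrable_finset_sum _ fun d _ =>
    ((((act X).tz hf _).mul ((act X).tz hg _)).integrable X.μ).const_mul _

lemma ss_meas {f g : X.X → ℂ} (hf : MB X f) (hg : MB X g) : Measurable (SS X a b κ M f g) :=
  Finset.measurable_sum _ fun d _ => (((act X).tz hf _).mul ((act X).tz hg _)).1.const_mul _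

lemma box (hκ : ∀ d, 0 ≤ κ d) (H : ℕ) (L : List (Gm 2)) : ∀ f0 f g : X.X → ℂ, MB X f0 → MB X f →
    MB X g → ∑ d ∈ Finset.range M, κ d * QE X L H (Ps X a b f0 f g d) ≤
      EL X H L (NN X a b κ M) f g := by
  induction L with
  | nil =>
    intro f0 f g h0 hf hg
    refine (base a b κ M h0 hf hg).le.trans ((Complex.re_le_norm _).trans
      ((norm_integral_le_integral_norm _).trans ?_))
    refine integral_mono_of_nonneg (Eventually.of_forall fun x => norm_nonneg _)
      (ss_int a b κ M hf hg).norm (Eventually.of_forall fun x => ?_)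
    show ‖f0 x * SS X a b κ M f g x‖ ≤ ‖SS X a b κ M f g x‖
    rw [norm_mul]
    exact mul_le_of_le_one_left (norm_nonneg _) (h0.2 x)
  | cons u L ih =>
    intro f0 f g h0 hf hg
    have e : ∀ (v : Gm 2) (d : ℕ), ddX X.A v (Ps X a b f0 f g d) =
        Ps X a b (ddX X.A v f0) (ddX X.A v f) (ddX X.A v g) d := fun v d => funext fun x => by
      simp only [ddX, Ps, map_mul, (act X).comm v]
      ring
    simp only [QE, List.map_cons, T4S.QX_ln, EL, e, Finset.mul_expect]
    rw [← Finset.expect_sum_comm]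
    refine Finset.expect_le_expect fun h _ => ?_
    rw [← Finset.expect_sum_comm]
    exact Finset.expect_le_expect fun h' _ =>
      ih _ _ _ ((act X).dd h0 _) ((act X).dd hf _) ((act X).dd hg _)

end Kill

open Kill in
theorem kill : KillR := by
  intro vb qb da zf gd X a b L n hL hn ε hε
  obtain ⟨K0, k0, hK0⟩ := (zf.ua X L n 0 hL hn).2 (ε / 2) (by positivity)
  obtain ⟨K1, k1, hK1⟩ := qb.pw L.length (ε / 2 / (K0 + 1)) (by positivity)
  refine ⟨K0 * K1, by positivity, fun f g H κ M hf hg hH hκ h1 => ?_⟩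
  have hgn : MB X fun x => g x * n x := hg.mul hn.1
  let S := SS X a b κ M f fun x => g x * n x
  have hS : Measurable S := ss_meas a b κ M hf hgn
  let f0 : X.X → ℂ := fun x => conj (S x) / (‖S x‖ : ℂ)
  have h0 : MB X f0 := by
    refine ⟨(Complex.continuous_conj.measurable.comp hS).div
      (Complex.measurable_ofReal.comp hS.norm), fun x => ?_⟩
    simp only [f0, norm_div, Complex.norm_conj, Complex.norm_real, norm_norm]
    exact div_self_le_one _
  have e1 : NN X a b κ M f (fun x => g x * n x) = (∫ x, f0 x * S x ∂X.μ).re := by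
    have : ∀ x, f0 x * S x = ((‖S x‖ : ℝ) : ℂ) := fun x => by
      by_cases h : S x = 0
      · simp [h]
      · have h' : ((‖S x‖ : ℝ) : ℂ) ≠ 0 := by simpa using h
        simp only [f0]
        rw [div_mul_eq_mul_div, Complex.conj_mul', div_eq_iff h', sq]
    simp only [this, integral_ofReal, integral_complex_ofReal, Complex.ofReal_re]
    rfl
  have e2 : ∀ d : ℕ, (∫ x, Ps X a b f0 f (fun x => g x * n x) d x ∂X.μ).re ≤
      ε + K0 * K1 * QE X L H (Ps X a b f0 f g d) := fun d => by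
    obtain ⟨D, hD, hd⟩ := hK0 _ ⟨(d : ℤ) • b, rfl⟩
    have hP := ps_mb a b h0 hf hg d
    have hn' := (act X).tz hn.1 ((d : ℤ) • b)
    have a1 := hK1 _ _ (qb.nonneg X L H _ hL hP) (gd X L H _ D hL hH hP hD)
    have i1 := (hP.mul hn').integrable X.μ
    have i2 := ((hP.mul hD.1).integrable X.μ).const_mul (K0 : ℂ)
    have a2 : ∫ x, Ps X a b f0 f (fun x => g x * n x) d x ∂X.μ =
        ∫ x, (Ps X a b f0 f g d x * n (X.A ((d : ℤ) • b) x) -
          K0 * (Ps X a b f0 f g d x * D x)) ∂X.μ + K0 * ∫ x, Ps X a b f0 f g d x * D x ∂X.μ := by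
      rw [integral_sub i1 i2, integral_const_mul, sub_add_cancel]
      exact integral_congr_ae (Eventually.of_forall fun x => by simp only [Ps]; ring)
    have a3 : ‖∫ x, (Ps X a b f0 f g d x * n (X.A ((d : ℤ) • b) x) -
        K0 * (Ps X a b f0 f g d x * D x)) ∂X.μ‖ ≤ ε / 2 := by
      refine (norm_integral_le_integral_norm _).trans (le_trans ?_ hd)
      refine integral_mono_of_nonneg (Eventually.of_forall fun x => norm_nonneg _)
        ((hn'.integrable X.μ).sub ((hD.1.integrable X.μ).const_mul _)).norm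
        (Eventually.of_forall fun x => ?_)
      show ‖_‖ ≤ ‖n (X.A ((d : ℤ) • b) x) - K0 * D x‖
      rw [show Ps X a b f0 f g d x * n (X.A ((d : ℤ) • b) x) - K0 * (Ps X a b f0 f g d x * D x) =
        Ps X a b f0 f g d x * (n (X.A ((d : ℤ) • b) x) - K0 * D x) by ring, norm_mul]
      exact mul_le_of_le_one_left (norm_nonneg _) (hP.2 x)
    have a4 : K0 * (ε / 2 / (K0 + 1)) ≤ ε / 2 := by
      rw [← mul_div_assoc, div_le_iff₀ (by positivity)]
      nlinarith
    refine (Complex.re_le_norm _).trans ?_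
    rw [a2]
    refine (norm_add_le _ _).trans ?_
    rw [norm_mul, Complex.norm_real, Real.norm_of_nonneg k0]
    have a5 := mul_le_mul_of_nonneg_left a1 k0
    nlinarith
  rw [e1, ← base a b κ M h0 hf hgn]
  refine (Finset.sum_le_sum fun d _ => mul_le_mul_of_nonneg_left (e2 d) (hκ d)).trans ?_
  have e3 := mul_le_mul_of_nonneg_left (box a b κ M hκ H L f0 f g h0 hf hg)
    (show 0 ≤ K0 * K1 by positivity)
  simp only [mul_add, Finset.sum_add_distrib, ← Finset.sum_mul, h1, one_mul]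
  refine add_le_add le_rfl (le_trans (le_of_eq ?_) e3)
  rw [Finset.mul_sum]
  exact Finset.sum_congr rfl fun d _ => by ring

end T6

end

end PkKill

section PkWie

/-! Row Wie: blocks in two equal directions are close to functions of bounded Wiener norm. -/

set_option autoImplicit false
set_option linter.unusedVariables false
set_option warn.classDefReducibility false

open MeasureTheory ProbabilityTheory Filter Topology Function
open scoped BigOperators ComplexConjugate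

noncomputable section

namespace T6

open Pool.Agent.MP_154433_an hiding BM
open T3S (B1 CZ ip Q Dual)

namespace Wie

variable {G : Type} [AddCommGroup G] [Fintype G]

theorem ip_sum (e : AddChar G ℂ → ℂ) (u : G → ℂ) :
    ip (fun x => ∑ χ, e χ * χ x) u = ∑ χ, e χ * conj (ip u χ) := by
  simp only [ip, Finset.sum_mul]
  rw [Finset.expect_sum_comm]
  refine Finset.sum_congr rfl fun χ _ => ?_
  rw [T3S.conj_exp, Finset.mul_expect]
  refine Finset.expect_congr rfl fun x _ => ?_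
  rw [map_mul, RCLike.conj_conj]
  ring

open Classical in
theorem ip_char (ψ χ : AddChar G ℂ) : ip ψ χ = if χ = ψ then 1 else 0 := by
  have : ip ψ χ = 𝔼 x, (ψ - χ) x := Finset.expect_congr rfl fun x _ => by
    rw [AddChar.sub_apply, AddChar.map_neg_eq_conj]
  rw [this, AddChar.expect_eq_ite]
  simp only [sub_eq_zero, eq_comm]

theorem coef (e : AddChar G ℂ → ℂ) (ψ : AddChar G ℂ) : ip (fun x => ∑ χ, e χ * χ x) ψ = e ψ := by
  classical
  rw [ip_sum]
  simp [ip_char, apply_ite conj]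

theorem pars (e : AddChar G ℂ → ℂ) : 𝔼 x, ‖∑ χ, e χ * χ x‖ ^ 2 = ∑ χ, ‖e χ‖ ^ 2 := by
  have h := congrArg Complex.re (ip_sum e fun x => ∑ χ, e χ * χ x)
  rw [ip, T3S.re_exp, Complex.re_sum] at h
  simpa only [coef, Complex.mul_conj, Complex.ofReal_re, Complex.normSq_eq_norm_sq] using h

theorem q1 (F : G → ℂ) : Q 1 F = ∑ χ : AddChar G ℂ, ‖ip F χ‖ ^ 2 * ‖ip F χ‖ ^ 2 := by
  classical
  rw [T3S.Four.Q1]
  simp only [sub_eq_zero, mul_ite, mul_one, mul_zero, Finset.sum_ite_eq, Finset.mem_univ, if_true,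
    T3S.Four.p]

theorem core {u : G → ℂ} {A s : ℝ} (hA : 1 ≤ A) (hs : 0 < s) (hu : Dual 1 A u) :
    ∃ c : AddChar G ℂ → ℂ, ∑ χ, ‖c χ‖ ≤ A / s ^ 3 ∧ 𝔼 x, ‖u x - ∑ χ, c χ * χ x‖ ≤ 2 * s := by
  classical
  have A0 : 0 < A := by linarith
  obtain ⟨η, hη⟩ : ∃ η, η = s ^ 3 / A := ⟨_, rfl⟩
  have η0 : 0 < η := by rw [hη]; positivity
  let c : AddChar G ℂ → ℂ := fun χ => if η ≤ ‖ip u χ‖ then ip u χ else 0
  let e : AddChar G ℂ → ℂ := fun χ => if η ≤ ‖ip u χ‖ then 0 else ip u χ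
  have c1 : ∑ χ, ‖c χ‖ ≤ η⁻¹ := by
    refine (Finset.sum_le_sum (g := fun χ => η⁻¹ * T3S.Four.p u χ) fun χ _ => ?_).trans ?_
    · simp only [c, T3S.Four.p]
      split_ifs with h
      · rw [le_inv_mul_iff₀ η0, sq]
        exact mul_le_mul_of_nonneg_right h (norm_nonneg _)
      · rw [norm_zero]; positivity
    · rw [← Finset.mul_sum]
      exact mul_le_of_le_one_right (by positivity) (T3S.Four.sum_le hu.1)
  have fe : ∀ x, u x - ∑ χ, c χ * χ x = ∑ χ, e χ * χ x := fun x => by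
    rw [T3S.Four.inv u x, ← Finset.sum_sub_distrib]
    refine Finset.sum_congr rfl fun χ _ => ?_
    simp only [c, e]
    split_ifs <;> ring
  refine ⟨c, c1.trans_eq (by rw [hη, inv_div]), ?_⟩
  obtain ⟨r, hr⟩ : ∃ r : ℝ, r = (1 + η⁻¹)⁻¹ := ⟨_, rfl⟩
  have r0 : 0 < r := by rw [hr]; positivity
  have gb : B1 fun x => ∑ χ, (r * e χ) * χ x := fun x => by
    simp only [mul_assoc]
    rw [← Finset.mul_sum, ← fe, norm_mul, Complex.norm_real, Real.norm_of_nonneg r0.le, hr,
      inv_mul_le_iff₀ (by positivity), mul_one]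
    refine (norm_sub_le _ _).trans (add_le_add (hu.1 x) ((norm_sum_le _ _).trans
      (le_trans (Finset.sum_le_sum fun χ _ => ?_) c1)))
    rw [norm_mul, χ.norm_apply, mul_one]
  have k := hu.2 _ gb
  obtain ⟨S, hS⟩ : ∃ S, S = ∑ χ, ‖e χ‖ ^ 2 := ⟨_, rfl⟩
  have S0 : 0 ≤ S := hS ▸ Finset.sum_nonneg fun _ _ => sq_nonneg _
  have k1 : ip (fun x => ∑ χ, (r * e χ) * χ x) u = ((r * S : ℝ) : ℂ) := by
    rw [ip_sum, hS, Finset.mul_sum, Complex.ofReal_sum]
    refine Finset.sum_congr rfl fun χ _ => ?_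
    simp only [e]
    split_ifs
    · simp
    · rw [mul_assoc, Complex.mul_conj, Complex.normSq_eq_norm_sq, Complex.ofReal_mul]
  have k2 : Q 1 (fun x => ∑ χ, (r * e χ) * χ x) ≤ r ^ 4 * η ^ 2 * S := by
    rw [q1, hS, Finset.mul_sum]
    refine Finset.sum_le_sum fun χ _ => ?_
    have a : ‖e χ‖ ≤ η := by
      simp only [e]
      split_ifs with h
      · rw [norm_zero]; exact η0.le
      · exact (not_le.1 h).le
    have b := pow_le_pow_left₀ (norm_nonneg _) a 2
    rw [coef, norm_mul, Complex.norm_real, Real.norm_of_nonneg r0.le]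
    have := mul_le_mul_of_nonneg_right b (show 0 ≤ r ^ 4 * ‖e χ‖ ^ 2 by positivity)
    linarith
  rw [k1, Complex.norm_real, Real.norm_of_nonneg (mul_nonneg r0.le S0)] at k
  have k3 : S ^ 4 ≤ A * η ^ 2 * S := le_of_mul_le_mul_left (by
    have := k.trans (mul_le_mul_of_nonneg_left k2 A0.le)
    norm_num at this
    linarith) (pow_pos r0 4)
  have k4 : A * η ^ 2 ≤ (s ^ 2) ^ 3 := by
    rw [hη, show A * (s ^ 3 / A) ^ 2 = (s ^ 2) ^ 3 / A by field_simp]
    exact div_le_self (by positivity) hA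
  have k5 : S ≤ s ^ 2 := by
    rcases S0.eq_or_lt with z | z
    · rw [← z]; positivity
    · refine le_of_pow_le_pow_left₀ three_ne_zero (sq_nonneg s) (le_trans ?_ k4)
      exact le_of_mul_le_mul_right (by linarith) z
  simp only [fe]
  calc _ ≤ 𝔼 x, (s + s⁻¹ * ‖∑ χ, e χ * χ x‖ ^ 2) := Finset.expect_le_expect fun x _ => by
        rw [← sub_le_iff_le_add', le_inv_mul_iff₀ hs]
        nlinarith [sq_nonneg (‖∑ χ, e χ * χ x‖ - s), norm_nonneg (∑ χ, e χ * χ x)]
    _ = s + s⁻¹ * S := by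
        rw [Finset.expect_add_distrib, Fintype.expect_const, ← Finset.mul_expect, pars, hS]
    _ ≤ 2 * s := by
        have := (inv_mul_le_iff₀ hs).2 (k5.trans_eq (sq s))
        linarith

theorem win {M d : ℕ} (hM : 1 ≤ M) (hd : d < M) {F : ZMod (6 * (M + 1)) → ℝ} (hF : ∀ x, 0 ≤ F x) :
    𝔼 j : Fin M, F (((j : ℕ) + d : ℕ) : ZMod (6 * (M + 1))) ≤ 12 * 𝔼 x, F x := by
  classical
  have m1 : (1 : ℝ) ≤ M := by exact_mod_cast hM
  have inj : Injective fun j : Fin M => (((j : ℕ) + d : ℕ) : ZMod (6 * (M + 1))) := fun i j h => by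
    have := (ZMod.natCast_eq_natCast_iff' _ _ _).1 h
    rw [Nat.mod_eq_of_lt (by omega), Nat.mod_eq_of_lt (by omega)] at this
    exact Fin.ext (by omega)
  have a : ∑ j : Fin M, F (((j : ℕ) + d : ℕ) : ZMod (6 * (M + 1))) ≤ ∑ x, F x :=
    (Finset.sum_image fun _ _ _ _ h => inj h).symm.trans_le
      (Finset.sum_le_sum_of_subset_of_nonneg (Finset.subset_univ _) fun x _ _ => hF x)
  have b : 0 ≤ ∑ x, F x := Finset.sum_nonneg fun x _ => hF x
  rw [Fintype.expect_eq_sum_div_card, Fintype.expect_eq_sum_div_card, Fintype.card_fin, ZMod.card,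
    ← mul_div_assoc, div_le_div_iff₀ (by linarith) (by positivity)]
  push_cast at a ⊢
  nlinarith [mul_le_mul_of_nonneg_right a (show (0 : ℝ) ≤ 6 * (M + 1) by positivity),
    mul_nonneg b (sub_nonneg.2 m1)]

end Wie

open Wie in
theorem wie : WieR := by
  intro hA ε hε
  refine ⟨(6 ^ 2) ^ 4 / (ε / 48) ^ 3, by positivity, ?_⟩
  filter_upwards [eventually_ge_atTop 1,
    tendsto_natCast_atTop_atTop.eventually_ge_atTop (32 / ε : ℝ)] with M h1 h2 v hv
  obtain ⟨u, hu, hv⟩ := hA 1 le_rfl (fun _ => 1) 2 6 (M + 1) (M ^ 2) (fun _ => one_ne_zero)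
    (fun _ => by norm_num) (Nat.one_le_pow _ _ h1) v hv
  obtain ⟨c, c1, c2⟩ := core (A := (6 ^ 2) ^ 4) (by norm_num) (show 0 < ε / 48 by positivity)
    (by simpa using hu)
  refine ⟨c, c1, fun d hd => ?_⟩
  have m1 : (1 : ℝ) ≤ M := by exact_mod_cast h1
  have a : (4 * ((1 : ℕ) + 1) * (M + 1 : ℕ) / (M ^ 2 : ℕ) : ℝ) ≤ ε / 2 := by
    rw [div_le_iff₀ hε] at h2
    push_cast
    rw [div_le_iff₀ (by positivity)]
    nlinarith [mul_le_mul_of_nonneg_left h2 (show (0 : ℝ) ≤ M by linarith)]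
  have b := win h1 hd (F := fun x => ‖u x - ∑ χ, c χ * χ x‖) fun _ => norm_nonneg _
  have : Nonempty (Fin M) := ⟨⟨0, h1⟩⟩
  calc _ ≤ 𝔼 j : Fin M, (ε / 2 + ‖u (((j : ℕ) + d : ℕ) : ZMod (6 * (M + 1))) -
        ∑ χ, c χ * χ (((j : ℕ) + d : ℕ) : ZMod (6 * (M + 1)))‖) :=
        Finset.expect_le_expect fun j _ => by
          have e := (hv (((j : ℕ) + d : ℕ) : ℤ) (by
            have := j.2
            rw [abs_of_nonneg (by positivity)]
            push_cast
            omega)).trans a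
          rw [Int.cast_natCast] at e
          exact (norm_sub_le_norm_sub_add_norm_sub _ _ _).trans (add_le_add e le_rfl)
    _ ≤ ε := by
        rw [Finset.expect_add_distrib, Fintype.expect_const]
        linarith

end T6

end

end PkWie

section PkLink

/-! The box functional along lines is a correlation with a block measurable in the factor. -/

set_option autoImplicit false
set_option linter.unusedVariables false
set_option warn.classDefReducibility false

open MeasureTheory ProbabilityTheory Filter Topology Function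
open scoped BigOperators ComplexConjugate

noncomputable section

namespace T6

open Pool.Agent.MP_154433_an hiding BM
open T3S (B1 MB1 dif norm_exp_le_of norm_prod_le_one meas_exp conj_exp re_exp)
open T4S (Gm Act ddX QX ln)
open T4x (Fac)

namespace Link

lemma exp_cons {n : ℕ} {α : Type} [Fintype α] (F : (Fin (n + 1) → α) → ℂ) :
    𝔼 h, F h = 𝔼 a, 𝔼 h : Fin n → α, F (Fin.cons a h) := by
  rw [← Finset.expect_product' _ _ fun a (h : Fin n → α) => F (Fin.cons a h),
    Finset.univ_product_univ]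
  exact (Fintype.expect_equiv (Fin.consEquiv fun _ => α) _ _ fun _ => rfl).symm

lemma dif_cons {n H : ℕ} (a a' : Fin H) (h h' : Fin n → Fin H) :
    dif (Fin.cons a h : Fin (n + 1) → Fin H) (Fin.cons a' h') =
      Fin.cons (((a' : ℕ) : ℤ) - ((a : ℕ) : ℤ)) (dif h h') := by
  funext j
  refine Fin.cases rfl (fun j => rfl) j

lemma blk_cons (X : Sy) {n : ℕ} (u : Fin (n + 1) → Gm 2) (H : ℕ) (g : X.X → ℂ)
    (γ : ℤ → Fin n → (Fin n → ℤ) → X.X → ℂ) (x : X.X) :
    blk X u H (Fin.cons (fun _ y => conj (g y))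
      fun j τ y => conj (γ (τ 0) j (Fin.tail τ) y)) x =
    𝔼 a : Fin H, 𝔼 a' : Fin H, conj (g (X.A ((((a' : ℕ) : ℤ) - ((a : ℕ) : ℤ)) • u 0) x) *
      blk X (Fin.tail u) H (γ (((a' : ℕ) : ℤ) - ((a : ℕ) : ℤ))) x) := by
  rw [blk, exp_cons]
  refine Finset.expect_congr rfl fun a _ => ?_
  simp only [exp_cons (α := Fin H)]
  rw [Finset.expect_comm]
  refine Finset.expect_congr rfl fun a' _ => ?_
  simp only [blk, Finset.mul_expect, conj_exp]
  refine Finset.expect_congr rfl fun h _ => Finset.expect_congr rfl fun h' _ => ?_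
  rw [Fin.prod_univ_succ, map_mul, map_prod, dif_cons]
  simp only [Fin.cons_zero, Fin.cons_succ, ← Fin.cons_update, Fin.tail_cons]
  rfl

lemma blk_MB (X : Sy) {k : ℕ} (u : Fin k → Gm 2) (H : ℕ)
    {β : Fin k → (Fin k → ℤ) → X.X → ℂ} (hβ : ∀ i τ, MB X (β i τ)) : MB X (blk X u H β) :=
  ⟨meas_exp _ fun h _ => meas_exp _ fun h' _ =>
    Finset.measurable_prod _ fun i _ => ((act X).tz (hβ _ _) _).1, fun x =>
    norm_exp_le_of zero_le_one fun h _ => norm_exp_le_of zero_le_one fun h' _ =>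
      norm_prod_le_one _ fun i _ => (hβ _ _).2 _⟩

lemma cjY {α : Type} {Y : MeasurableSpace α} {g : α → ℂ} (hg : Measurable[Y] g) :
    Measurable[Y] fun x => conj (g x) :=
  Complex.continuous_conj.measurable.comp hg

lemma ddY (X : Sy) {Y : MeasurableSpace X.X} (hY : Fac X Y) {g : X.X → ℂ}
    (hg : Measurable[Y] g) (v : Gm 2) : Measurable[Y] (ddX X.A v g) := by
  have h : Measurable[Y, Y] (X.A v) := measurable_iff_comap_le.2 (hY.inv v)
  exact (hg.comp h).mul (cjY hg)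

lemma main (X : Sy) (H n : ℕ) (P : (X.X → ℂ) → Prop) (P1 : ∀ g, P g → P fun x => conj (g x))
    (P2 : ∀ g v, P g → P (ddX X.A v g)) : ∀ (u : Fin n → Gm 2) (g : X.X → ℂ), MB X g → P g →
    ∃ β : Fin n → (Fin n → ℤ) → X.X → ℂ, (∀ i τ, MB X (β i τ) ∧ P (β i τ)) ∧
      QX X.μ X.A (List.ofFn fun i => ln (u i) H) g = (∫ x, g x * blk X u H β x ∂X.μ).re := by
  induction n with
  | zero => exact fun u g hg hP => ⟨Fin.elim0, fun i => i.elim0, by simp [QX, blk]⟩
  | succ n ih =>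
    intro u g hg hP
    choose γ h1 h2 using fun t : ℤ =>
      ih (Fin.tail u) _ ((act X).dd hg (t • u 0)) (P2 g (t • u 0) hP)
    refine ⟨Fin.cons (fun _ y => conj (g y)) fun j τ y => conj (γ (τ 0) j (Fin.tail τ) y),
      fun i τ => Fin.cases ⟨hg.cj, P1 _ hP⟩ (fun j => ⟨(h1 _ _ _).1.cj, P1 _ (h1 _ _ _).2⟩) i, ?_⟩
    have m : ∀ t : ℤ, MB X fun x => conj (ddX X.A (t • u 0) g x *
        blk X (Fin.tail u) H (γ t) x) := fun t =>
      (((act X).dd hg _).mul (blk_MB X _ H fun i τ => (h1 t i τ).1)).cj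
    have e : ∀ x (t : ℤ), g x * conj (g (X.A (t • u 0) x) * blk X (Fin.tail u) H (γ t) x) =
        conj (ddX X.A (t • u 0) g x * blk X (Fin.tail u) H (γ t) x) := fun x t => by
      simp only [ddX, map_mul, RCLike.conj_conj]
      ring
    rw [List.ofFn_succ, T4S.QX_ln]
    have h3 : ∀ t : ℤ, QX X.μ X.A (List.ofFn fun i : Fin n => ln (u i.succ) H)
        (ddX X.A (t • u 0) g) =
        (∫ x, ddX X.A (t • u 0) g x * blk X (Fin.tail u) H (γ t) x ∂X.μ).re := h2
    simp only [h3, blk_cons, Finset.mul_expect, e]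
    rw [T3S.integral_exp, re_exp]
    · refine Finset.expect_congr rfl fun a _ => ?_
      rw [T3S.integral_exp _ fun a' _ => (m _).integrable X.μ, re_exp]
      exact Finset.expect_congr rfl fun a' _ => by rw [integral_conj, Complex.conj_re]
    · exact fun a _ => MB1.integrable ⟨meas_exp _ fun a' _ => (m _).1,
        fun x => norm_exp_le_of zero_le_one fun a' _ => (m _).2 x⟩ X.μ

end Link

theorem link : LinkR := by
  intro _ X Y L H g hY hg hgY
  obtain ⟨β, h1, h2⟩ := Link.main X H L.length (fun g => Measurable[Y] g)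
    (fun g h => Link.cjY h) (fun g v h => Link.ddY X hY h v) L.get g hg hgY
  refine ⟨β, h1, ?_⟩
  rw [← h2, QE]
  congr 1
  conv_lhs => rw [← List.ofFn_get L, List.map_ofFn]
  rfl

end T6

end

end PkLink

section PkMono

/-! Row Mono: the box functional of a conditional expectation. -/

set_option autoImplicit false
set_option linter.unusedVariables false
set_option warn.classDefReducibility false

open MeasureTheory ProbabilityTheory Filter Topology Function
open scoped BigOperators ComplexConjugate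

noncomputable section

namespace T6

open Pool.Agent.MP_154433_an hiding BM
open T3S (B1 MB1 PW AsInv Erg Bd Near Gr yw dif CZ)
open T4S (Gm Act ddX QX ln Spr Concl)
open Fib27 (BM)
open T3x (nul pull gen)
open T4x (Fac Emb Inv Nice Pair Star KK Fd)

namespace Mono

theorem exp_meas {Ω ι : Type} [Fintype ι] {m : MeasurableSpace Ω} {f : ι → Ω → ℂ}
    (h : ∀ i, Measurable[m] (f i)) : Measurable[m] fun x => 𝔼 i, f i x := by
  simp only [Finset.expect_eq_sum_div_card]
  exact (Finset.measurable_sum _ fun i _ => h i).div_const _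

theorem exp_le {ι : Type} [Fintype ι] {f : ι → ℂ} (h : ∀ i, ‖f i‖ ≤ 1) : ‖𝔼 i, f i‖ ≤ 1 := by
  rw [Finset.expect_eq_sum_div_card, norm_div, Complex.norm_natCast]
  refine div_le_one_of_le₀ ((norm_sum_le _ _).trans ?_) (Nat.cast_nonneg _)
  simpa using Finset.sum_le_sum (s := Finset.univ) fun i _ => h i

theorem int_ce {Ω : Type} {Y : MeasurableSpace Ω} {m0 : MeasurableSpace Ω} (μ : Measure Ω)
    [IsProbabilityMeasure μ] (hY : Y ≤ m0) {G b : Ω → ℂ} (hG : Integrable G μ)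
    (hb : Measurable[Y] b) (h1 : ∀ x, ‖b x‖ ≤ 1) :
    ∫ x, (μ[G | Y]) x * b x ∂μ = ∫ x, G x * b x ∂μ := by
  have hi : Integrable (G * b) μ :=
    hG.mul_bdd (hb.mono hY le_rfl).aestronglyMeasurable (ae_of_all _ h1)
  have e := condExp_bilin_of_stronglyMeasurable_right (μ := μ) (ContinuousLinearMap.mul ℝ ℂ)
    hb.stronglyMeasurable hi hG
  exact (integral_congr_ae e).symm.trans (integral_condExp hY)

end Mono

theorem mono : MonoR := by
  intro F vb qb link gcs X Y L H G G' hY hL hH hG hG'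
  obtain ⟨g, hg, hm⟩ := vb.ver X Y G hY hG
  obtain ⟨β, hβ, e⟩ := link X Y L H g hY hg.1 hm
  have mb : Measurable[Y] (blk X L.get H β) :=
    Mono.exp_meas fun h => Mono.exp_meas fun h' => Finset.measurable_prod _ fun i _ =>
      (hβ i _).2.comp (Measurable.of_comap_le (hY.inv _))
  have b1 : ∀ x, ‖blk X L.get H β x‖ ≤ 1 := fun x =>
    Mono.exp_le fun h => Mono.exp_le fun h' => by
      rw [norm_prod]
      exact Finset.prod_le_one (fun i _ => norm_nonneg _) fun i _ => (hβ i _).1.2 _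
  have hi : Integrable G X.μ := Integrable.of_bound hG.1.aestronglyMeasurable 1 (ae_of_all _ hG.2)
  have e2 : ∫ x, g x * blk X L.get H β x ∂X.μ = ∫ x, G x * blk X L.get H β x ∂X.μ := by
    rw [← Mono.int_ce X.μ hY.le hi mb b1]
    refine integral_congr_ae ?_
    filter_upwards [hg.2] with x hx
    rw [hx]
  rw [qb.congr X L H G' g (hG'.2.trans hg.2.symm)]
  refine (pow_le_pow_left₀ (qb.nonneg X L H g hL hg.1) ?_ _).trans
    (gcs X L H G β hL hH hG fun i τ => (hβ i τ).1)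
  rw [e, e2]
  exact Complex.re_le_norm _

end T6

end

end PkMono

section PkZero

/-! A function orthogonal to all dual functions has small box averages. -/

set_option autoImplicit false
set_option linter.unusedVariables false
set_option warn.classDefReducibility false

open MeasureTheory ProbabilityTheory Filter Topology Function
open scoped BigOperators ComplexConjugate

noncomputable section

namespace T6

open Pool.Agent.MP_154433_an hiding BM
open T3S (B1 MB1)
open T4x (Fac Fd)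

open T3S.Zero in
theorem zero : ZeroR := by
  intro F0 h1 da h2 X L g hg h0 ε hε
  by_contra hn
  push Not at hn
  obtain ⟨F, hF⟩ := h1 (Lp ℂ 2 X.μ)
    (fun H0 => {F | ∃ u ∈ CX X L H0, ε ≤ (∫ x, g x * u x ∂X.μ).re ∧ F =ᵐ[X.μ] u}) 1
    (fun H0 H1 hH F ⟨u, hu, h⟩ => ⟨u, da.anti X L H0 H1 hH hu, h⟩)
    (fun H0 => by
      obtain ⟨β, hβ, e⟩ := h2 X X.ms L (H0 + 1) g (F0.t.top X) hg hg.1
      have hu : blk X L.get (H0 + 1) β ∈ CX X L H0 :=
        subset_convexHull ℝ _ ⟨H0 + 1, β, Nat.le_succ _, fun i τ => (hβ i τ).1, rfl⟩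
      have m := da.cx X L H0 _ hu
      exact ⟨(MemLp.of_bound m.1.aestronglyMeasurable 1 (Eventually.of_forall m.2)).toLp _, _,
        hu, e ▸ (hn _ (Nat.le_add_left _ _)).le, MemLp.coeFn_toLp _⟩)
    (fun H0 F ⟨u, hu, e1, e2⟩ F' ⟨u', hu', e1', e2'⟩ a c ha hc hac => by
      refine ⟨a • u + c • u', convex_convexHull ℝ _ hu hu' ha hc hac, ?_, ?_⟩
      · have e : ∀ x, g x * (a • u + c • u') x = a * (g x * u x) + c * (g x * u' x) := fun x => by
          simp only [Pi.add_apply, Pi.smul_apply, Complex.real_smul]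
          ring
        simp only [e]
        rw [integral_add (((hg.mul (da.cx X L H0 _ hu)).integrable X.μ).const_mul _)
          (((hg.mul (da.cx X L H0 _ hu')).integrable X.μ).const_mul _), integral_const_mul,
          integral_const_mul, Complex.add_re, Complex.re_ofReal_mul, Complex.re_ofReal_mul]
        have := mul_le_mul_of_nonneg_left e1 ha
        have := mul_le_mul_of_nonneg_left e1' hc
        calc ε = a * ε + c * ε := by rw [← add_mul, hac, one_mul]
          _ ≤ _ := by linarith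
      · filter_upwards [Lp.coeFn_add (a • F) (c • F'), Lp.coeFn_smul a F, Lp.coeFn_smul c F', e2, e2']
          with x p1 p2 p3 p4 p5
        simp only [p1, Pi.add_apply, p2, p3, Pi.smul_apply, p4, p5])
    (fun H0 F ⟨u, hu, _, e⟩ => by
      have := Lp.norm_le_of_ae_bound (f := F) zero_le_one (by
        filter_upwards [e] with x h
        rw [h]
        exact (da.cx X L H0 _ hu).2 x)
      simpa [measureUnivNNReal] using this)
  have key : ∀ H0 δ, 0 < δ → ∃ u ∈ CX X L H0, ε ≤ (∫ x, g x * u x ∂X.μ).re ∧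
      ∫ x, ‖clip (F x) - u x‖ ∂X.μ ≤ δ := fun H0 δ hδ => by
    obtain ⟨F', ⟨u, hu, e1, e2⟩, hd⟩ := Metric.mem_closure_iff.1 (hF H0) (δ / 2) (half_pos hδ)
    exact ⟨u, hu, e1, (close F F' (da.cx X L H0 _ hu) e2).trans (by linarith)⟩
  have m : MB X fun x => clip (F x) :=
    ⟨clip_meas.comp (Lp.stronglyMeasurable F).measurable, fun x => norm_clip _⟩
  have z := h0 _ ⟨m, fun H0 δ hδ => (key H0 δ hδ).imp fun u h => ⟨h.1, h.2.2⟩⟩
  obtain ⟨u, hu, e1, e2⟩ := key 0 (ε / 2) (half_pos hε)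
  have mu := da.cx X L 0 _ hu
  have e3 : ‖∫ x, g x * clip (F x) - g x * u x ∂X.μ‖ ≤ ∫ x, ‖clip (F x) - u x‖ ∂X.μ :=
    norm_integral_le_of_norm_le ((m.integrable X.μ).sub (mu.integrable X.μ)).norm
      (Eventually.of_forall fun x => by
        rw [← mul_sub, norm_mul]
        exact mul_le_of_le_one_left (norm_nonneg _) (hg.2 x))
  rw [integral_sub ((hg.mul m).integrable X.μ) ((hg.mul mu).integrable X.μ), z, zero_sub,
    norm_neg] at e3
  linarith [Complex.re_le_norm (∫ x, g x * u x ∂X.μ)]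

end T6

end

end PkZero

section PkNB

/-! Null functions and the factors of dual functions. -/

set_option autoImplicit false
set_option linter.unusedVariables false
set_option warn.classDefReducibility false

open MeasureTheory ProbabilityTheory Filter Topology Function
open scoped BigOperators ComplexConjugate

noncomputable section

namespace T6

open Pool.Agent.MP_154433_an hiding BM
open T3S (B1 MB1 PW AsInv Erg Bd Near Gr yw dif CZ)
open T4S (Gm Act ddX QX ln Spr Concl)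
open Fib27 (BM)
open T3x (nul pull gen)
open T4x (Fac Emb Inv Nice Pair Star KK Fd)

namespace NB

lemma pl {Ω : Type} {m m0 : MeasurableSpace Ω} {μ : Measure Ω}
    [IsProbabilityMeasure μ] (hm : m ≤ m0) {f u : Ω → ℂ} (hf : MemLp f 2 μ) (hu : MemLp u 2 μ)
    (hum : AEStronglyMeasurable[m] u μ) :
    ∫ x, f x * u x ∂μ = ∫ x, (μ[f | m]) x * u x ∂μ := by
  have hi : Integrable (fun x => f x * u x) μ := hf.integrable_mul hu
  have h := condExp_bilin_of_aestronglyMeasurable_right (ContinuousLinearMap.mul ℝ ℂ) hum hi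
    (hf.integrable one_le_two)
  rw [← integral_condExp hm (f := fun x => f x * u x)]
  exact integral_congr_ae h

lemma m2 {X : Sy} {f : X.X → ℂ} (hf : MB X f) : MemLp f 2 X.μ :=
  MemLp.of_bound hf.1.aestronglyMeasurable 1 (ae_of_all _ hf.2)

lemma im {X : Sy} {f g : X.X → ℂ} (hf : MB X f) (hg : MB X g) :
    Integrable (fun x => f x * g x) X.μ := (m2 hf).integrable_mul (m2 hg)

lemma mcj {X : Sy} {f : X.X → ℂ} (hf : MB X f) : MB X fun x => conj (f x) :=
  ⟨Complex.continuous_conj.measurable.comp hf.1, fun x => by simpa using hf.2 x⟩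

lemma sq0 {X : Sy} {f : X.X → ℂ} (hf : MB X f) (h : ∫ x, f x * conj (f x) ∂X.μ = 0) :
    f =ᵐ[X.μ] 0 := by
  have h1 : ∫ x, ‖f x‖ ^ 2 ∂X.μ = 0 := by
    have h2 : ((∫ x, ‖f x‖ ^ 2 ∂X.μ : ℝ) : ℂ) = 0 := by
      rw [← integral_complex_ofReal, ← h]
      refine integral_congr_ae (ae_of_all _ fun x => ?_)
      simp [Complex.mul_conj, Complex.normSq_eq_norm_sq]
    exact_mod_cast h2
  have hi : Integrable (fun x => ‖f x‖ ^ 2) X.μ := (m2 hf).integrable_norm_pow two_ne_zero
  filter_upwards [(integral_eq_zero_iff_of_nonneg (fun x => sq_nonneg _) hi).1 h1] with x hx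
  simpa using hx

/-- a function with vanishing projection is orthogonal to the factor -/
lemma orth {X : Sy} {Y : MeasurableSpace X.X} (hY : Fac X Y) {g F : X.X → ℂ} (hg : MB X g)
    (hF : MB X F) (hm : AEStronglyMeasurable[Y] F X.μ) (h0 : X.μ[g | Y] =ᵐ[X.μ] 0) :
    ∫ x, g x * F x ∂X.μ = 0 := by
  rw [pl (m0 := X.ms) hY.le (m2 hg) (m2 hF) hm]
  refine integral_eq_zero_of_ae ?_
  filter_upwards [h0] with x hx
  simp [hx]

/-- the projection moves to the other factor of a product -/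
lemma move {X : Sy} {Y : MeasurableSpace X.X} (hY : Fac X Y) {g g' F F' : X.X → ℂ} (hg : MB X g)
    (hF : MB X F) (vg : Ver X Y g g') (vF : Ver X Y F F') :
    ∫ x, g x * F' x ∂X.μ = ∫ x, g' x * F x ∂X.μ := by
  have a1 : AEStronglyMeasurable[Y] F' X.μ :=
    stronglyMeasurable_condExp.aestronglyMeasurable.congr vF.2.symm
  have a2 : AEStronglyMeasurable[Y] g' X.μ :=
    stronglyMeasurable_condExp.aestronglyMeasurable.congr vg.2.symm
  have b1 := pl (m0 := X.ms) hY.le (m2 hg) (m2 vF.1) a1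
  have b2 := pl (m0 := X.ms) hY.le (m2 hF) (m2 vg.1) a2
  simp_rw [mul_comm (g' _)]
  rw [b1, b2]
  refine integral_congr_ae ?_
  filter_upwards [vg.2, vF.2] with x h1 h2
  rw [← h1, ← h2, mul_comm]

end NB

open NB

theorem nb : NBR := by
  intro _ vb qb _ zf gc ze mo
  have iff : ∀ X L g, L ≠ [] → MB X g → (Nul X L g ↔ X.μ[g | ZL X L] =ᵐ[X.μ] 0) := by
    intro X L g hL hg
    constructor
    · intro h
      refine zf.perp X L g hg fun D hD => ?_
      have h1 : ‖∫ x, g x * D x ∂X.μ‖ ^ 2 ^ L.length ≤ 0 := le_of_forall_pos_le_add fun ε hε => by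
        obtain ⟨H, hH, h2⟩ := h ε hε
        linarith [gc X L H g D hL hH hg hD]
      exact norm_eq_zero.1 (pow_eq_zero_iff (by positivity) |>.1
        (le_antisymm h1 (by positivity)))
    · intro h
      exact ze X L g hg fun D hD =>
        orth (zf.fac X L) hg (zf.dd X L D hD).1 (zf.dd X L D hD).2.1 h
  have perm : ∀ X (L L' : List (Gm 2)) g, L.Perm L' → Nul X L g → Nul X L' g := by
    intro X L L' g hp h ε hε
    obtain ⟨H, hH, h2⟩ := h ε hε
    exact ⟨H, hH, qb.perm X L L' H g hp ▸ h2⟩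
  have drop : ∀ X L L' g, L ≠ [] → MB X g → Nul X (L' ++ L) g → Nul X L g := by
    intro X L L' g _ hg
    induction L' with
    | nil => exact id
    | cons u L' ih =>
      intro h
      refine ih fun ε hε => ?_
      obtain ⟨H, hH, h2⟩ := h (ε ^ 2) (by positivity)
      exact ⟨H, hH, le_of_pow_le_pow_left₀ two_ne_zero hε.le
        ((qb.mono X u (L' ++ L) H g hH hg).trans h2)⟩
  have perp : ∀ X L F g, L ≠ [] → InZ X L F → MB X g → Nul X L g →
      ∫ x, g x * F x ∂X.μ = 0 := fun X L F g hL hF hg h =>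
    orth (zf.fac X L) hg hF.1 hF.2.1 ((iff X L g hL hg).1 h)
  have char : ∀ X L F, L ≠ [] → MB X F →
      (∀ g, MB X g → Nul X L g → ∫ x, g x * F x ∂X.μ = 0) → InZ X L F := by
    intro X L F hL hF h
    obtain ⟨F', v, mF⟩ := vb.ver X (ZL X L) F (zf.fac X L) hF
    obtain ⟨h1, h2⟩ := vb.half X (ZL X L) F F' (zf.fac X L) hF v
    have n1 := (iff X L _ hL h1).2 h2
    have n2 : Nul X L fun x => conj ((2⁻¹ : ℂ) * (F x - F' x)) := fun ε hε => by
      obtain ⟨H, hH, h3⟩ := n1 ε hε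
      exact ⟨H, hH, by rw [qb.cj X L H fun x => (2⁻¹ : ℂ) * (F x - F' x)]; exact h3⟩
    have z' : InZ X L F' := ⟨v.1, mF.aestronglyMeasurable, 1, ae_of_all _ v.1.2⟩
    have i1 := h _ (mcj h1) n2
    have i2 := perp X L F' _ hL z' (mcj h1) n2
    have i3 := sq0 h1 (by
      have e : ∀ x, (2⁻¹ : ℂ) * (F x - F' x) * conj ((2⁻¹ : ℂ) * (F x - F' x)) =
          2⁻¹ * (conj ((2⁻¹ : ℂ) * (F x - F' x)) * F x -
            conj ((2⁻¹ : ℂ) * (F x - F' x)) * F' x) := fun x => by ring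
      simp_rw [e]
      rw [integral_const_mul, integral_sub (im (mcj h1) hF) (im (mcj h1) v.1), i1, i2, sub_self, mul_zero])
    have i4 : F' =ᵐ[X.μ] F := by
      filter_upwards [i3] with x hx
      have h5 : (2⁻¹ : ℂ) * (F x - F' x) = 0 := hx
      rcases mul_eq_zero.1 h5 with h6 | h6
      · norm_num at h6
      · exact (sub_eq_zero.1 h6).symm
    exact ⟨hF, z'.2.1.congr i4, 1, ae_of_all _ hF.2⟩
  refine ⟨iff, perm, fun X L1 u L2 g h => ?_, drop, perp, char, fun X L L' F hL hF => ?_,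
    fun X Y L F F' hL hY hF v => ?_, fun X L F hL hF h => ?_⟩
  · refine perm X _ _ g List.perm_middle.symm fun ε hε => ?_
    obtain ⟨H, hH, h2⟩ := perm X _ _ g List.perm_middle h ε hε
    exact ⟨H, hH, by rw [qb.neg]; exact h2⟩
  · exact char X _ F (by simp [hL]) hF.1 fun g hg h =>
      perp X L F g hL hF hg (drop X L L' g hL hg h)
  · refine char X L F' hL v.1 fun g hg h => ?_
    obtain ⟨g', vg, -⟩ := vb.ver X Y g hY hg
    rw [move hY hg hF.1 vg v]
    refine perp X L F g' hL hF vg.1 fun ε hε => ?_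
    obtain ⟨H, hH, h2⟩ := h (ε ^ 2 ^ L.length) (by positivity)
    exact ⟨H, hH, le_of_pow_le_pow_left₀ (by positivity) hε.le
      ((mo X Y L H g g' hY hL hH hg vg).trans h2)⟩
  · exact sq0 hF.1 (perp X L _ F hL (zf.cj X L F hF) hF.1 h)

end T6

end

end PkNB
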