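import Pool.Agent.MP_154433_an.t6.Spec
import Pool.Agent.MP_154433_an.h31.Tw2

/-! Two maps from uniform twisted averages, part 3 (packed). -/

section PkMXa

/-! Row MXa: the maximal bound for almost invariant weights. -/

set_option autoImplicit false
set_option linter.unusedVariables false
set_option warn.classDefReducibility false

open MeasureTheory ProbabilityTheory Filter Topology Function
open scoped BigOperators ComplexConjugate

noncomputable section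

namespace T6

open Pool.Agent.MP_154433_an hiding BM
open T3S (B1 MB1 PW AsInv Erg Bd Near Gr yw dif CZ)
open T4S (Gm Act ddX QX ln Spr Concl)
open Fib27 (BM)
open T3x (nul pull gen)
open T4x (Fac Emb Inv Nice Pair Star KK Fd)

namespace MXa

variable {Ω : Type} {m : MeasurableSpace Ω}

theorem mx_nonneg (κ : ℕ → ℝ) (M : ℕ) (G : ℕ → ℂ) : 0 ≤ mx κ M G :=
  Real.iSup_nonneg fun χ => norm_nonneg _

theorem mx_sq {κ : ℕ → ℝ} {M : ℕ} {G : ℕ → ℂ} {c : ℝ}
    (h : ∀ χ : Ch M, ‖∑ d ∈ Finset.range M,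
      (κ d : ℂ) * (χ (d : ZMod (6 * (M + 1))) * G d)‖ ^ 2 ≤ c) : mx κ M G ^ 2 ≤ c := by
  have hc : 0 ≤ c := (sq_nonneg _).trans (h 0)
  have h1 : mx κ M G ≤ √c := ciSup_le fun χ => Real.le_sqrt_of_sq_le (h χ)
  exact (pow_le_pow_left₀ (mx_nonneg κ M G) h1 2).trans (Real.sq_sqrt hc).le

theorem int_exp (μ : Measure Ω) {ι : Type} (s : Finset ι) {f : ι → Ω → ℝ}
    (h : ∀ i ∈ s, Integrable (f i) μ) :
    Integrable (fun x => 𝔼 i ∈ s, f i x) μ ∧
      ∫ x, 𝔼 i ∈ s, f i x ∂μ = 𝔼 i ∈ s, ∫ x, f i x ∂μ := by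
  simp only [Finset.expect_eq_sum_div_card]
  exact ⟨(integrable_finsetSum _ h).div_const _, by rw [integral_div, integral_finsetSum _ h]⟩

/-- the average of one derivative -/
def W (X : Sy) (w : ℕ → ℕ → ℝ) (u : Gm 2) (g : X.X → ℂ) (M h h' : ℕ) : X.X → ℂ :=
  T4S.wavg X.A w (fun _ : Fin (0 + 1) => u) (fun _ => ddX X.A (((h' : ℤ) - (h : ℤ)) • u) g) M

theorem tw (X : Sy) (w : ℕ → ℕ → ℝ) (u : Gm 2) (g : X.X → ℂ) (M h h' : ℕ) (χ : Ch M) (x : X.X) :
    ‖∑ d ∈ Finset.range M, (w M d : ℂ) *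
      ((χ ((d + h' : ℕ) : ZMod (6 * (M + 1))) * g (X.A (((d + h' : ℕ) : ℤ) • u) x)) *
        conj (χ ((d + h : ℕ) : ZMod (6 * (M + 1))) * g (X.A (((d + h : ℕ) : ℤ) • u) x)))‖ =
      ‖W X w u g M h h' (X.A ((h : ℤ) • u) x)‖ := by
  have hn : ‖χ (h' : ZMod (6 * (M + 1))) * conj (χ (h : ZMod (6 * (M + 1))))‖ = 1 := by
    rw [norm_mul, RCLike.norm_conj, χ.norm_apply, χ.norm_apply, one_mul]
  rw [← one_mul ‖W X w u g M h h' _‖, ← hn, ← norm_mul, W, T4S.wavg, Finset.mul_sum]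
  refine congrArg _ (Finset.sum_congr rfl fun d _ => ?_)
  have h1 : χ (d : ZMod (6 * (M + 1))) * conj (χ (d : ZMod (6 * (M + 1)))) = 1 := by
    rw [Complex.mul_conj, Complex.normSq_eq_norm_sq, χ.norm_apply]
    simp
  have e1 : ((h' : ℤ) - (h : ℤ)) • u + ((d + h : ℕ) : ℤ) • u = ((d + h' : ℕ) : ℤ) • u := by
    push_cast
    module
  have e2 : (d : ℤ) • u + (h : ℤ) • u = ((d + h : ℕ) : ℤ) • u := by
    push_cast
    module
  simp only [Fin.prod_univ_succ, Fin.prod_univ_zero, mul_one, ddX, ← (act X).add, e1, e2]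
  simp only [Nat.cast_add, AddChar.map_add_eq_mul, map_mul]
  linear_combination ((w M d : ℂ) * (χ (h' : ZMod (6 * (M + 1))) *
    conj (χ (h : ZMod (6 * (M + 1))))) * (g (X.A (((d : ℤ) + h') • u) x) *
      conj (g (X.A (((d : ℤ) + h) • u) x)))) * h1

theorem W_int (X : Sy) (w : ℕ → ℕ → ℝ) (u : Gm 2) {g : X.X → ℂ} (hg : MB X g) (M h h' : ℕ)
    (v : Gm 2) : Integrable (fun x => ‖W X w u g M h h' (X.A v x)‖ ^ 2) X.μ ∧
      ∫ x, ‖W X w u g M h h' (X.A v x)‖ ^ 2 ∂X.μ = ∫ x, ‖W X w u g M h h' x‖ ^ 2 ∂X.μ := by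
  have hm : Measurable fun x => ‖W X w u g M h h' x‖ ^ 2 :=
    ((act X).wavg_meas w _ (fun _ => ((act X).dd hg _).1) M).norm.pow_const 2
  refine ⟨Integrable.of_bound (hm.comp ((act X).meas v)).aestronglyMeasurable
    ((∑ d ∈ Finset.range M, |w M d|) ^ 2) (Eventually.of_forall fun x => ?_),
    (act X).integral v hm.aestronglyMeasurable⟩
  rw [Real.norm_of_nonneg (sq_nonneg _)]
  exact pow_le_pow_left₀ (norm_nonneg _)
    (T4S.wavg_norm_le _ _ _ (fun _ => ((act X).dd hg _).2) M _) 2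

theorem small {K ε : ℝ} (hK : 0 ≤ K) (hε : 0 < ε) : K * (ε / (K + 1)) ≤ ε := by
  rw [← mul_div_assoc, div_le_iff₀ (by positivity)]
  nlinarith

end MXa

theorem mxa : MXaR := by
  intro hV hG hQ w hw hi ε hε
  obtain ⟨K1, hK1, h1⟩ := hQ.pw 1 (ε / 4) (by positivity)
  obtain ⟨K2, hK2, h2⟩ := hQ.pw 1 (ε / 4 / (K1 + 1)) (by positivity)
  have hK := mul_nonneg hK1 hK2
  refine ⟨K1 * K2, hK, fun X u g H hg hH => ?_⟩
  have : Nonempty (Fin H) := ⟨⟨0, hH⟩⟩
  have hg2 : ∀ᶠ M in atTop, ∀ h : Fin H, ∀ h' : Fin H, ∫ x, ‖MXa.W X w u g M h h' x‖ ^ 2 ∂X.μ ≤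
      QX X.μ X.A [ln u H] (ddX X.A ((((h' : ℕ) : ℤ) - ((h : ℕ) : ℤ)) • u) g) +
        ε / 4 / (K1 * K2 + 1) := by
    refine eventually_all.2 fun h => eventually_all.2 fun h' => ?_
    filter_upwards [hG w hw hi 2 X.X X.μ X.A (act X) 0 (fun _ => H) (fun _ => hH) (fun _ => u)
      (fun _ => ddX X.A ((((h' : ℕ) : ℤ) - ((h : ℕ) : ℤ)) • u) g) (fun _ => (act X).dd hg _)
      (ε / 4 / (K1 * K2 + 1)) (by positivity)] with M hM
    rw [pow_zero, pow_one] at hM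
    exact hM
  filter_upwards [hV w hw hi H hH (ε / 4 / (K1 + 1)) (by positivity), hg2] with M hM hM2
  have hp : ∀ x, mx (w M) M (fun d => g (X.A ((d : ℤ) • u) x)) ≤ 3 * (ε / 4) + K1 * K2 *
      𝔼 h : Fin H, 𝔼 h' : Fin H, ‖MXa.W X w u g M h h' (X.A (((h : ℕ) : ℤ) • u) x)‖ ^ 2 := by
    intro x
    have a1 : mx (w M) M (fun d => g (X.A ((d : ℤ) • u) x)) ^ 2 ≤
        (𝔼 h : Fin H, 𝔼 h' : Fin H, ‖MXa.W X w u g M h h' (X.A (((h : ℕ) : ℤ) • u) x)‖) +
          ε / 4 / (K1 + 1) := by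
      refine MXa.mx_sq fun χ => (hM (fun d => χ (d : ZMod (6 * (M + 1))) *
        g (X.A ((d : ℤ) • u) x)) fun d => ?_).trans (add_le_add_left ?_ _)
      · rw [norm_mul, χ.norm_apply, one_mul]
        exact hg.2 _
      · refine (Complex.re_le_norm _).trans ((T3S.norm_exp_le _ _).trans
          (Finset.expect_le_expect fun h _ => (T3S.norm_exp_le _ _).trans
            (Finset.expect_le_expect fun h' _ => (MXa.tw X w u g M h h' χ x).le)))
    have a2 : (𝔼 h : Fin H, 𝔼 h' : Fin H, ‖MXa.W X w u g M h h' (X.A (((h : ℕ) : ℤ) • u) x)‖) ≤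
        ε / 4 / (K1 + 1) + K2 * 𝔼 h : Fin H, 𝔼 h' : Fin H,
          ‖MXa.W X w u g M h h' (X.A (((h : ℕ) : ℤ) • u) x)‖ ^ 2 := by
      refine (Finset.expect_le_expect fun h _ => Finset.expect_le_expect fun h' _ =>
        h2 _ _ (sq_nonneg _) (le_of_eq rfl)).trans (le_of_eq ?_)
      simp only [Finset.expect_add_distrib, Fintype.expect_const, Finset.mul_expect]
    have a3 := h1 _ _ (sq_nonneg (mx (w M) M fun d => g (X.A ((d : ℤ) • u) x))) (le_of_eq rfl)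
    have a4 := MXa.small hK1 (show 0 < ε / 4 by positivity)
    have a5 := mul_le_mul_of_nonneg_left (a1.trans (add_le_add_left a2 _)) hK1
    linarith
  have hi1 := fun h : Fin H => MXa.int_exp X.μ Finset.univ fun (h' : Fin H) _ =>
    (MXa.W_int X w u hg M h h' (((h : ℕ) : ℤ) • u)).1
  have hi2 := MXa.int_exp X.μ Finset.univ fun (h : Fin H) _ => (hi1 h).1
  have b1 := integral_mono_of_nonneg (Eventually.of_forall fun x => MXa.mx_nonneg _ _ _)
    ((integrable_const (3 * (ε / 4))).add (hi2.1.const_mul (K1 * K2))) (Eventually.of_forall hp)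
  have b2 : ∫ x, 𝔼 h : Fin H, 𝔼 h' : Fin H,
      ‖MXa.W X w u g M h h' (X.A (((h : ℕ) : ℤ) • u) x)‖ ^ 2 ∂X.μ ≤
        QE X [u, u] H g + ε / 4 / (K1 * K2 + 1) := by
    rw [hi2.2]
    refine (Finset.expect_le_expect fun h _ => (hi1 h).2.le.trans
      (Finset.expect_le_expect fun h' _ =>
        (MXa.W_int X w u hg M h h' _).2.le.trans (hM2 h h'))).trans (le_of_eq ?_)
    simp only [Finset.expect_add_distrib, Fintype.expect_const]
    exact congrArg (· + _) (T4S.QX_ln X.μ X.A u H [ln u H] g).symm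
  rw [integral_add' (integrable_const _) (hi2.1.const_mul _), integral_const,
    integral_const_mul] at b1
  simp only [probReal_univ, smul_eq_mul, one_mul] at b1
  have b3 := mul_le_mul_of_nonneg_left b2 hK
  have b4 := MXa.small hK (show 0 < ε / 4 by positivity)
  linarith

end T6

end

end PkMXa

section PkMXb

/-! Row MXb: the maximal bound passes to weights with the same twisted averages. -/

set_option autoImplicit false
set_option linter.unusedVariables false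
set_option warn.classDefReducibility false

open MeasureTheory ProbabilityTheory Filter Topology Function
open scoped BigOperators ComplexConjugate

noncomputable section

namespace T6

open Pool.Agent.MP_154433_an hiding BM
open T3S (B1 MB1 PW AsInv Erg Bd Near Gr yw dif CZ)
open T4S (Gm Act ddX QX ln Spr Concl)
open Fib27 (BM)
open T3x (nul pull gen)
open T4x (Fac Emb Inv Nice Pair Star KK Fd)

namespace MXb

theorem chi_eq {M : ℕ} (χ : Ch M) (d : ℕ) :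
    χ (d : ZMod (6 * (M + 1))) = ee ((d : ℝ) * (Complex.arg (χ 1) / (2 * Real.pi))) := by
  have h1 := Complex.norm_mul_exp_arg_mul_I (χ 1)
  rw [χ.norm_apply, Complex.ofReal_one, one_mul] at h1
  have h2 : 2 * Real.pi * ((d : ℝ) * (Complex.arg (χ 1) / (2 * Real.pi))) =
      d * Complex.arg (χ 1) := by
    have := Real.pi_ne_zero
    field_simp
  rw [ee, h2, Complex.ofReal_mul, Complex.ofReal_natCast, mul_assoc, Complex.exp_nat_mul, h1,
    ← AddChar.map_nsmul_eq_pow, nsmul_one]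

variable {Ω : Type} {m : MeasurableSpace Ω}

/-- the twisted sum for one character -/
def ts (κ : ℕ → ℝ) (M : ℕ) (G : ℕ → ℂ) (χ : Ch M) : ℂ :=
  ∑ d ∈ Finset.range M, (κ d : ℂ) * (χ (d : ZMod (6 * (M + 1))) * G d)

theorem ts_meas (κ : ℕ → ℝ) (M : ℕ) {G : Ω → ℕ → ℂ} (hG : ∀ d, Measurable fun x => G x d)
    (χ : Ch M) : Measurable fun x => ‖ts κ M (G x) χ‖ :=
  (Finset.measurable_sum _ fun d _ => ((hG d).const_mul _).const_mul _).norm

theorem ts_le (κ : ℕ → ℝ) (M : ℕ) {G : ℕ → ℂ} (hG : ∀ d, ‖G d‖ ≤ 1) (χ : Ch M) :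
    ‖ts κ M G χ‖ ≤ ∑ d ∈ Finset.range M, |κ d| := by
  refine (norm_sum_le _ _).trans (Finset.sum_le_sum fun d _ => ?_)
  rw [norm_mul, norm_mul, χ.norm_apply, one_mul, Complex.norm_real, Real.norm_eq_abs]
  exact mul_le_of_le_one_right (abs_nonneg _) (hG d)

theorem le_mx (κ : ℕ → ℝ) (M : ℕ) (G : ℕ → ℂ) (χ : Ch M) : ‖ts κ M G χ‖ ≤ mx κ M G :=
  le_ciSup (f := fun χ : Ch M => ‖ts κ M G χ‖) (Set.finite_range _).bddAbove χ

theorem mx_le {κ : ℕ → ℝ} {M : ℕ} {G : ℕ → ℂ} {c : ℝ} (h : ∀ χ : Ch M, ‖ts κ M G χ‖ ≤ c) :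
    mx κ M G ≤ c := ciSup_le h

theorem mx_nonneg (κ : ℕ → ℝ) (M : ℕ) (G : ℕ → ℂ) : 0 ≤ mx κ M G :=
  (norm_nonneg _).trans (le_mx κ M G 0)

theorem mx_int (μ : Measure Ω) [IsFiniteMeasure μ] (κ : ℕ → ℝ) (M : ℕ) {G : Ω → ℕ → ℂ}
    (hG : ∀ d, Measurable fun x => G x d) (h1 : ∀ x d, ‖G x d‖ ≤ 1) :
    Integrable (fun x => mx κ M (G x)) μ := by
  refine Integrable.of_bound (Measurable.iSup (ts_meas κ M hG)).aestronglyMeasurable
    (∑ d ∈ Finset.range M, |κ d|) (Eventually.of_forall fun x => ?_)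
  rw [Real.norm_of_nonneg (mx_nonneg _ _ _)]
  exact mx_le (ts_le κ M (h1 x))

theorem pick (κ : ℕ → ℝ) (M : ℕ) {G : Ω → ℕ → ℂ} (hG : ∀ d, Measurable fun x => G x d) :
    ∃ b : Ω → ℝ, Measurable b ∧ ∀ x, mx κ M (G x) =
      ‖∑ d ∈ Finset.range M, (κ d : ℂ) * (G x d * ee ((d : ℝ) * b x))‖ := by
  classical
  obtain ⟨e, he⟩ := exists_surjective_nat (Ch M)
  have hp : ∀ x, ∃ n, x ∈ {x | ∀ χ, ‖ts κ M (G x) χ‖ ≤ ‖ts κ M (G x) (e n)‖} := fun x => by
    obtain ⟨χ, hχ⟩ := Finite.exists_max fun χ : Ch M => ‖ts κ M (G x) χ‖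
    obtain ⟨n, rfl⟩ := he χ
    exact ⟨n, hχ⟩
  have hm := measurable_find hp fun n => by
    rw [Set.ofPred_forall]
    exact MeasurableSet.iInter fun χ => measurableSet_le (ts_meas κ M hG χ) (ts_meas κ M hG _)
  refine ⟨fun x => Complex.arg (e (Nat.find (hp x)) 1) / (2 * Real.pi),
    (measurable_from_nat (f := fun n => Complex.arg (e n 1) / (2 * Real.pi))).comp hm,
    fun x => ?_⟩
  rw [le_antisymm (mx_le (Nat.find_spec (hp x))) (le_mx _ _ _ _), ts]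
  simp only [chi_eq, mul_comm (G x _)]

theorem sub (κ κ' : ℕ → ℝ) (M : ℕ) (G : ℕ → ℂ) :
    mx κ M G ≤ mx κ' M G + mx (fun d => κ d - κ' d) M G := by
  refine mx_le fun χ => le_trans ?_ (add_le_add (le_mx _ _ _ χ) (le_mx _ _ _ χ))
  refine le_trans (le_of_eq (congrArg _ ?_)) (norm_add_le _ _)
  simp only [ts, ← Finset.sum_add_distrib]
  refine Finset.sum_congr rfl fun d _ => ?_
  push_cast
  ring

end MXb

theorem mxb : MXbR := by
  intro ν ν' h hU ε hε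
  obtain ⟨K, hK, h⟩ := h (ε / 2) (by positivity)
  refine ⟨K, hK, fun X u g H hg hH => ?_⟩
  have hG : ∀ d : ℕ, Measurable fun x => g (X.A ((d : ℤ) • u) x) :=
    fun d => hg.1.comp (X.mp _).measurable
  choose b hb e using fun M => MXb.pick (df ν ν' M) M
    (G := fun x d => g (X.A ((d : ℤ) • u) x)) hG
  have i : ∀ (κ : ℕ → ℝ) (M : ℕ), Integrable
      (fun x => mx κ M fun d => g (X.A ((d : ℤ) • u) x)) X.μ :=
    fun κ M => MXb.mx_int X.μ κ M hG fun x d => hg.2 _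
  filter_upwards [h X u g H hg hH,
    (tendsto_order.1 (hU X u g b hg hb)).2 (ε / 2) (by positivity)] with M h1 h2
  simp only [← e M] at h2
  have h3 := integral_mono (i (ν M) M) ((i (ν' M) M).add (i (df ν ν' M) M))
    fun x => MXb.sub (ν M) (ν' M) M _
  rw [integral_add' (i (ν' M) M) (i (df ν ν' M) M)] at h3
  linarith

end T6

end

end PkMXb

section PkPL

/-! Products of two functions structured along their own lines. -/

set_option autoImplicit false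
set_option linter.unusedVariables false

open MeasureTheory ProbabilityTheory Filter Topology Function
open scoped BigOperators ComplexConjugate

noncomputable section

namespace T6

open Pool.Agent.MP_154433_an hiding BM
open T3S (B1 MB1 Bd CZ)
open T4S (Gm Act)

namespace PL

lemma cz_cast {n k H0 : ℕ} (h : n = k) {u : ℤ → ℂ} (hu : u ∈ CZ (fun _ : Fin n => (1 : ℤ)) H0) :
    u ∈ CZ (fun _ : Fin k => (1 : ℤ)) H0 := by
  subst h
  exact hu

lemma orb (da : DA) (X : Sy) (k : ℕ) (b : Gm 2) (H0 : ℕ) (v : X.X → ℂ) (x : X.X)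
    (hv : v ∈ CX X (List.replicate k b) H0) :
    (fun n : ℤ => v (X.A (n • b) x)) ∈ CZ (fun _ : Fin k => (1 : ℤ)) H0 :=
  cz_cast List.length_replicate (da.orb X _ b H0 v x (fun i => by simp) hv)

lemma int_exp {Y ι : Type} [MeasurableSpace Y] {μ : Measure Y} (s : Finset ι) {f : ι → Y → ℝ}
    (h : ∀ i ∈ s, Integrable (f i) μ) :
    Integrable (fun x => 𝔼 i ∈ s, f i x) μ ∧
      ∫ x, 𝔼 i ∈ s, f i x ∂μ = 𝔼 i ∈ s, ∫ x, f i x ∂μ := by
  simp only [Finset.expect_eq_sum_div_card]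
  exact ⟨(integrable_finsetSum s h).div_const _, by rw [integral_div, integral_finsetSum s h]⟩

/-- the bound for two blocks -/
lemma blocks (da : DA) (X : Sy) (a b : Gm 2) (k M : ℕ) (κ : ℕ → ℝ) (ε : ℝ) (hM : 1 ≤ M)
    (h : ∀ u v : ℕ → ℤ → ℂ, (∀ m, u m ∈ CZ (fun _ : Fin k => (1 : ℤ)) (M ^ 2)) →
      (∀ n, v n ∈ CZ (fun _ : Fin k => (1 : ℤ)) (M ^ 2)) →
      𝔼 n : Fin M, 𝔼 m : Fin M, ‖∑ d ∈ Finset.range M,
        (κ d : ℂ) * (u m (((n : ℕ) + d : ℕ) : ℤ) * v n (((m : ℕ) + d : ℕ) : ℤ))‖ ≤ ε)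
    {v1 v2 : X.X → ℂ} (h1 : v1 ∈ CX X (List.replicate k a) (M ^ 2))
    (h2 : v2 ∈ CX X (List.replicate k b) (M ^ 2)) : NN X a b κ M v1 v2 ≤ ε := by
  have hA := act X
  have m1 := da.cx X _ _ _ h1
  have m2 := da.cx X _ _ _ h2
  set Φ : X.X → ℝ := fun x => ‖∑ d ∈ Finset.range M,
    (κ d : ℂ) * (v1 (X.A ((d : ℤ) • a) x) * v2 (X.A ((d : ℤ) • b) x))‖ with hΦ
  have hi : Integrable Φ X.μ :=
    (integrable_finsetSum _ fun d _ =>
      (((hA.tz m1 _).mul (hA.tz m2 _)).integrable X.μ).const_mul _).norm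
  have hi' : ∀ v, Integrable (fun x => Φ (X.A v x)) X.μ := fun v =>
    (hA.mp v).integrable_comp_of_integrable hi
  have : Nonempty (Fin M) := ⟨⟨0, hM⟩⟩
  have hin : ∀ n : Fin M, Integrable (fun x => 𝔼 m : Fin M,
      Φ (X.A (((n : ℕ) : ℤ) • a + ((m : ℕ) : ℤ) • b) x)) X.μ ∧
      ∫ x, 𝔼 m : Fin M, Φ (X.A (((n : ℕ) : ℤ) • a + ((m : ℕ) : ℤ) • b) x) ∂X.μ =
        ∫ x, Φ x ∂X.μ := fun n => by
    obtain ⟨p, q⟩ := int_exp (μ := X.μ) (Finset.univ : Finset (Fin M))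
      (f := fun m x => Φ (X.A (((n : ℕ) : ℤ) • a + ((m : ℕ) : ℤ) • b) x)) fun m _ => hi' _
    refine ⟨p, q.trans ?_⟩
    simp only [hA.integral _ hi.aestronglyMeasurable]
    exact Finset.expect_const Finset.univ_nonempty _
  obtain ⟨p, q⟩ := int_exp (μ := X.μ) (Finset.univ : Finset (Fin M))
    (f := fun n x => 𝔼 m : Fin M, Φ (X.A (((n : ℕ) : ℤ) • a + ((m : ℕ) : ℤ) • b) x))
    fun n _ => (hin n).1
  have e : NN X a b κ M v1 v2 = ∫ x, 𝔼 n : Fin M, 𝔼 m : Fin M,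
      Φ (X.A (((n : ℕ) : ℤ) • a + ((m : ℕ) : ℤ) • b) x) ∂X.μ := by
    rw [q]
    simp only [fun n => (hin n).2]
    exact (Finset.expect_const Finset.univ_nonempty _).symm
  rw [e]
  refine (integral_mono p (integrable_const ε) fun x => ?_).trans (by simp)
  have := h (fun m t => v1 (X.A (t • a) (X.A ((m : ℤ) • b) x)))
    (fun n t => v2 (X.A (t • b) (X.A ((n : ℤ) • a) x)))
    (fun m => orb da X k a _ v1 _ h1) (fun n => orb da X k b _ v2 _ h2)
  refine le_of_eq_of_le ?_ this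
  refine Finset.expect_congr rfl fun n _ => Finset.expect_congr rfl fun m _ => ?_
  simp only [hΦ, ← hA.add]
  congr 1
  refine Finset.sum_congr rfl fun d _ => ?_
  have e1 : (d : ℤ) • a + (((n : ℕ) : ℤ) • a + ((m : ℕ) : ℤ) • b) =
      (((n : ℕ) + d : ℕ) : ℤ) • a + ((m : ℕ) : ℤ) • b := by
    push_cast
    module
  have e2 : (d : ℤ) • b + (((n : ℕ) : ℤ) • a + ((m : ℕ) : ℤ) • b) =
      (((m : ℕ) + d : ℕ) : ℤ) • b + ((n : ℕ) : ℤ) • a := by
    push_cast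
    module
  rw [e1, e2]

/-- two dual functions -/
lemma duals (vb : VB) (da : DA) {w : ℕ → ℕ → ℝ} (hw : Bd w) (hs : StL w) (X : Sy) (a b : Gm 2)
    (k : ℕ) (hk : 2 ≤ k) {D1 D2 : X.X → ℂ} (h1 : D1 ∈ DD X (List.replicate k a))
    (h2 : D2 ∈ DD X (List.replicate k b)) : Vn X a b w D1 D2 := by
  refine Metric.tendsto_nhds.2 fun ε hε => ?_
  have hδ : 0 < ε / 8 := by positivity
  filter_upwards [hw, hs k hk _ hδ, eventually_ge_atTop 1] with M hb hM h1M
  obtain ⟨v1, c1, e1⟩ := h1.2 (M ^ 2) _ hδ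
  obtain ⟨v2, c2, e2⟩ := h2.2 (M ^ 2) _ hδ
  have m1 := da.cx X _ _ _ c1
  have m2 := da.cx X _ _ _ c2
  have s1 := vb.lip X a b (w M) M D1 D2 v2 h1.1 (h2.1.integrable _) (m2.integrable _)
  have s2 := vb.lip X b a (w M) M v2 D1 v1 m2 (h1.1.integrable _) (m1.integrable _)
  have s3 := blocks da X a b k M (w M) _ h1M hM c1 c2
  rw [vb.swap X b a, vb.swap X b a] at s2
  have t1 : (∑ d ∈ Finset.range M, |w M d|) * ∫ x, ‖D2 x - v2 x‖ ∂X.μ ≤ 3 * (ε / 8) :=
    mul_le_mul hb e2 (integral_nonneg fun _ => norm_nonneg _) (by norm_num)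
  have t2 : (∑ d ∈ Finset.range M, |w M d|) * ∫ x, ‖D1 x - v1 x‖ ∂X.μ ≤ 3 * (ε / 8) :=
    mul_le_mul hb e1 (integral_nonneg fun _ => norm_nonneg _) (by norm_num)
  rw [Real.dist_eq, sub_zero, abs_of_nonneg (vb.nonneg ..)]
  linarith

/-- from dual functions to the factor they generate -/
lemma up (vb : VB) (zf : ZF) {w : ℕ → ℕ → ℝ} (hw : Bd w) (X : Sy) (a b : Gm 2)
    (L : List (Gm 2)) (hL : L ≠ []) {f g : X.X → ℂ} (hf : MB X f) (hg : InZ X L g)
    (h : ∀ D ∈ DD X L, Vn X a b w f D) : Vn X a b w f g := by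
  refine vb.span X a b w f g (DD X L) hw hf (hg.1.integrable _)
    (fun D hD => ⟨hD.1.integrable _, h D hD⟩) fun ε hε => ?_
  obtain ⟨K, -, hK⟩ := (zf.ua X L g 0 hL hg).2 ε hε
  obtain ⟨D, hD, e⟩ := hK g ⟨0, funext fun x => by rw [(act X).zero]⟩
  exact ⟨(K : ℂ) • D, Submodule.smul_mem _ _ (Submodule.subset_span hD), e⟩

lemma swap (vb : VB) {X : Sy} {a b : Gm 2} {w : ℕ → ℕ → ℝ} {f g : X.X → ℂ}
    (h : Vn X a b w f g) : Vn X b a w g f := by
  unfold Vn at h ⊢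
  simpa only [vb.swap X b a] using h

end PL

theorem pl : PLR := by
  intro vb qb da zf w hw hs X a b k f g hk hf hg
  have ne : ∀ c : Gm 2, List.replicate k c ≠ [] := fun c h => by
    have := congrArg List.length h
    simp only [List.length_replicate, List.length_nil] at this
    omega
  refine PL.up vb zf hw X a b _ (ne b) hf.1 hg fun D2 h2 => PL.swap vb ?_
  exact PL.up vb zf hw X b a _ (ne a) h2.1 hf fun D1 h1 =>
    PL.duals vb da hw hs X b a k hk h2 h1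

end T6

end

end PkPL

section PkLiftA

/-! Row LiftA: the factor generated by the projections of a class on extensions. -/

set_option autoImplicit false
set_option linter.unusedVariables false
set_option warn.classDefReducibility false

open MeasureTheory ProbabilityTheory Filter Topology Function
open scoped BigOperators ComplexConjugate

noncomputable section

namespace T6

open Pool.Agent.MP_154433_an hiding BM
open T3S (B1 MB1)
open Fib27 (BM)
open T3x (nul pull gen)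
open T4x (Fac Emb Nice Fd)

namespace LiftA

variable {𝒞 : ∀ X : Sy, Set (X.X → ℂ)}

lemma bm {X : Sy} {f : X.X → ℂ} (hf : MB X f) : BM X.μ X.ms f :=
  ⟨hf.1.aestronglyMeasurable, 1, Eventually.of_forall hf.2⟩

lemma ple (F : Fd) {X' X : Sy} {p : X'.X → X.X} (hp : Emb X' X p) : pull X'.μ p X.ms ≤ X'.ms :=
  F.a.pull_le _ _ _ _ hp.mp le_rfl

lemma ex (F : Fd) (hC : Cl 𝒞) {X' X : Sy} {p : X'.X → X.X} {G : X'.X → ℂ} (hX : Nice X')
    (hp : Emb X' X p) (hG : G ∈ 𝒞 X') :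
    ∃ e ∈ EE 𝒞 X, (fun x => e (p x)) =ᵐ[X'.μ] X'.μ[G | pull X'.μ p X.ms] := by
  obtain ⟨e, h1, h2, h3⟩ := F.a.fact X.ms X'.μ p (X'.μ[G | pull X'.μ p X.ms]) 1
    hp.mp.measurable.comap_le zero_le_one stronglyMeasurable_condExp.aestronglyMeasurable
    (ae_bdd_norm_condExp_of_ae_bdd_norm (Eventually.of_forall (hC.mb _ _ hG).2))
  exact ⟨e, ⟨⟨h1, h2⟩, X', p, G, hX, hp, hG, h3.symm⟩, h3.symm⟩

lemma self (F : Fd) (hC : Cl 𝒞) {X : Sy} (hX : Nice X) {G : X.X → ℂ} (hG : G ∈ 𝒞 X) :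
    G ∈ EE 𝒞 X :=
  ⟨hC.mb _ _ hG, X, id, G, hX, F.t.emb_id X, hG, (Fib27.BM.ce_self (ple F (F.t.emb_id X))
    (F.a.bm_comp X.ms X.μ X.μ id G (MeasurePreserving.id _) (bm (hC.mb _ _ hG)))).symm⟩

lemma prd (F : Fd) (hC : Cl 𝒞) {X : Sy} (e : Bool → X.X → ℂ) (he : ∀ i, e i ∈ EE 𝒞 X) :
    (fun x => e true x * e false x) ∈ EE 𝒞 X := by
  choose hm Y q G hY hq hG hE using he
  obtain ⟨Z, p, hZ⟩ := F.rp Bool Y X X.ms q false hY (F.t.top X) (fun i => (hq i).mp)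
    fun i n => (hq i).eqv n
  have hP : ∀ i, Emb Z X (q i ∘ p i) := fun i => F.t.emb_comp _ _ _ _ _ (hZ.emb i) (hq i)
  refine ⟨(hm true).mul (hm false), Z, q false ∘ p false, fun z => G true (p true z) *
    G false (p false z), hZ.nice, hP false, hC.mul _ _ (hC.pb _ _ _ (hZ.emb true) _ (hG true)) _
      (hC.pb _ _ _ (hZ.emb false) _ (hG false)), ?_⟩
  have h1 := hZ.ind Finset.univ G fun i _ => bm (hC.mb _ _ (hG i))
  simp only [Fintype.prod_bool] at h1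
  have h2 := fun i => (hZ.emb i).mp.quasiMeasurePreserving.ae_eq_comp (hE i)
  have h3 := F.a.keq_fun X.ms Z.μ X.μ _ _ (e true) (hP true).mp (hP false).mp (hZ.com true)
    (hm true).1.aestronglyMeasurable
  filter_upwards [h1, h2 true, h2 false, h3] with z a1 a2 a3 a4
  simp only [Function.comp_apply] at a2 a3 a4 ⊢
  rw [a1, ← a2, ← a3, a4]

lemma cj (F : Fd) (hC : Cl 𝒞) {X : Sy} {e : X.X → ℂ} (he : e ∈ EE 𝒞 X) :
    (fun x => conj (e x)) ∈ EE 𝒞 X := by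
  obtain ⟨hm, Y, q, G, hY, hq, hG, hE⟩ := he
  refine ⟨hm.cj, Y, q, _, hY, hq, hC.cj _ _ hG, ?_⟩
  filter_upwards [hE, Fib27.ce_conj (ple F hq) (bm (hC.mb _ _ hG))] with z a1 a2
  rw [a2, a1]

lemma tz (F : Fd) (hC : Cl 𝒞) {X : Sy} (v : T4S.Gm 2) {e : X.X → ℂ} (he : e ∈ EE 𝒞 X) :
    (fun x => e (X.A v x)) ∈ EE 𝒞 X := by
  obtain ⟨hm, Y, q, G, hY, hq, hG, hE⟩ := he
  refine ⟨(act X).tz hm v, Y, q, _, hY, hq, hC.tz _ v _ hG, ?_⟩
  have h1 := F.t.ce Y _ v G (F.t.fpull Y X q _ hq (F.t.top X)) (bm (hC.mb _ _ hG)).integrable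
  have h2 := (Y.mp v).quasiMeasurePreserving.ae_eq_comp hE
  have h3 := F.a.keq_fun X.ms Y.μ X.μ _ _ e (hq.mp.comp (Y.mp v)) ((X.mp v).comp hq.mp) (hq.eqv v)
    hm.1.aestronglyMeasurable
  filter_upwards [h1, h2, h3] with z a1 a2 a3
  simp only [Function.comp_apply] at a2 a3
  rw [a1, ← a2, a3]

lemma meas {X : Sy} {e : X.X → ℂ} (he : e ∈ EE 𝒞 X) : Measurable[LF 𝒞 X] e :=
  Measurable.of_comap_le (le_sup_of_le_left (le_iSup₂_of_le (f := fun F (_ : F ∈ EE 𝒞 X) =>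
    MeasurableSpace.comap (id F) inferInstance) e he le_rfl))

lemma bmL {X : Sy} {e : X.X → ℂ} (he : e ∈ EE 𝒞 X) : BM X.μ (LF 𝒞 X) e :=
  ⟨(meas he).stronglyMeasurable.aestronglyMeasurable, 1, Eventually.of_forall he.1.2⟩

lemma fac (F : Fd) (hC : Cl 𝒞) (X : Sy) : Fac X (LF 𝒞 X) := by
  refine ⟨sup_le (iSup₂_le fun e he => he.1.1.comap_le) (F.a.nul_le _), le_sup_right, fun n => ?_⟩
  rw [LF, MeasurableSpace.comap_sup, gen]
  refine sup_le ?_ (((F.t.bot X).inv n).trans le_sup_right)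
  simp only [MeasurableSpace.comap_iSup, MeasurableSpace.comap_comp]
  exact iSup₂_le fun e he => (meas (tz F hC n he)).comap_le

end LiftA

open LiftA in
theorem liftA : LiftAR := by
  intro F 𝒞 hC X hX
  have hf := fac F hC X
  refine ⟨hf, fun G hG => bmL (self F hC hX hG), fun g hg hL ε hε => ?_,
    fun g hg h0 X' p hX' hp G hG => ?_⟩
  · obtain ⟨φ, hφ, h⟩ := F.d.apx X.μ (EE 𝒞 X) (fun φ h => ⟨h.1.1, 1, h.1.2⟩)
      ⟨_, self F hC hX (hC.one X), EventuallyEq.rfl⟩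
      (fun φ h φ' h' => ⟨_, prd F hC (fun b => cond b φ φ') (fun b => by cases b <;> assumption),
        EventuallyEq.rfl⟩)
      (fun φ h => ⟨_, cj F hC h, EventuallyEq.rfl⟩) g ((bm hg).memLp 2) hL.1 (ε ^ 2) (by positivity)
    refine ⟨φ, hφ, ?_⟩
    have h2 : MemLp φ 2 X.μ := by
      refine Submodule.span_induction (p := fun φ _ => MemLp φ 2 X.μ) ?_ ?_ ?_ ?_ hφ
      · exact fun e he => (bm he.1).memLp 2
      · exact MemLp.zero
      · exact fun a b _ _ ha hb => ha.add hb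
      · exact fun c a _ ha => ha.const_smul c
    have h3 : MemLp (fun x => ‖g x - φ x‖) 2 X.μ := (((bm hg).memLp 2).sub h2).norm
    have h4 : Integrable (fun x => ‖g x - φ x‖ ^ 2) X.μ := h3.integrable_sq
    calc ∫ x, ‖g x - φ x‖ ∂X.μ ≤ ∫ x, (ε / 2 + (2 * ε)⁻¹ * ‖g x - φ x‖ ^ 2) ∂X.μ := by
          refine integral_mono (h3.integrable one_le_two)
            ((integrable_const _).add (h4.const_mul _)) fun x => ?_
          have : 0 ≤ (2 * ε)⁻¹ * (‖g x - φ x‖ - ε) ^ 2 := by positivity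
          have e : (2 * ε)⁻¹ * (‖g x - φ x‖ - ε) ^ 2 =
            ε / 2 + (2 * ε)⁻¹ * ‖g x - φ x‖ ^ 2 - ‖g x - φ x‖ := by field_simp; ring
          simp only
          linarith
      _ = ε / 2 + (2 * ε)⁻¹ * ∫ x, ‖g x - φ x‖ ^ 2 ∂X.μ := by
          rw [integral_add (integrable_const _) (h4.const_mul _), integral_const_mul]
          simp
      _ ≤ ε / 2 + (2 * ε)⁻¹ * ε ^ 2 := by gcongr
      _ = ε := by field_simp; ring
  · obtain ⟨e, he, h⟩ := ex F hC hX' hp hG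
    rw [← Fib27.int_mul_ce (ple F hp) (F.a.bm_comp X.ms X'.μ X.μ p g hp.mp (bm hg))
      (bm (hC.mb _ _ hG))]
    have h1 : ∫ x, g (p x) * e (p x) ∂X'.μ = ∫ y, g y * e y ∂X.μ := by
      rw [← hp.mp.map_eq, integral_map hp.mp.measurable.aemeasurable
        (hg.mul he.1).1.aestronglyMeasurable]
    have h2 : ∫ y, g y * e y ∂X.μ = 0 := by
      rw [← Fib27.int_ce_mul hf.le (bm hg) (bmL he)]
      refine integral_eq_zero_of_ae ?_
      filter_upwards [h0] with y hy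
      simp [hy]
    rw [← h2, ← h1]
    refine integral_congr_ae ?_
    filter_upwards [h] with x hx
    rw [hx]

end T6

end

end PkLiftA

section PkLiftB

/-! Row LiftB: goodness descends from the extensions to the lifted factor. -/

set_option autoImplicit false
set_option linter.unusedVariables false
set_option warn.classDefReducibility false

open MeasureTheory ProbabilityTheory Filter Topology Function
open scoped BigOperators ComplexConjugate

noncomputable section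

namespace T6

open Pool.Agent.MP_154433_an hiding BM
open T3S (B1 MB1 PW AsInv Erg Bd Near Gr yw dif CZ)
open T4S (Gm Act ddX QX ln Spr Concl)
open Fib27 (BM)
open T3x (nul pull gen)
open T4x (Fac Emb Inv Nice Pair Star KK Fd)

namespace LiftB

theorem bm {X : Sy} {f : X.X → ℂ} (h : MB X f) : BM X.μ X.ms f :=
  ⟨h.1.stronglyMeasurable.aestronglyMeasurable, 1, Eventually.of_forall h.2⟩

theorem mb_tz {X : Sy} {f : X.X → ℂ} (h : MB X f) (n : Gm 2) : MB X fun x => f (X.A n x) :=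
  ⟨h.1.comp (X.mp n).measurable, fun x => h.2 _⟩

theorem emb_fun (fd : Fd) {X' X : Sy} {p : X'.X → X.X} (hp : Emb X' X p) (n : Gm 2)
    {f : X.X → ℂ} (hf : MB X f) :
    (fun y => f (p (X'.A n y))) =ᵐ[X'.μ] fun y => f (X.A n (p y)) :=
  fd.a.keq_fun X.ms X'.μ X.μ (p ∘ X'.Tz n) (X.Tz n ∘ p) f (hp.mp.comp (X'.mp n))
    ((X.mp n).comp hp.mp) (hp.eqv n) (bm hf).1

theorem term (fd : Fd) {X' X : Sy} {p : X'.X → X.X} (hp : Emb X' X p) {f e : X.X → ℂ}
    {F : X'.X → ℂ} (hf : MB X f) (he : MB X e) (hF : MB X' F)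
    (h : (fun x => e (p x)) =ᵐ[X'.μ] X'.μ[F | pull X'.μ p X.ms]) (c : ℂ) (n m : Gm 2) :
    X'.μ[fun y => c * (f (p (X'.A n y)) * F (X'.A m y)) | pull X'.μ p X.ms] =ᵐ[X'.μ]
      fun y => c * (f (X.A n (p y)) * e (X.A m (p y))) := by
  have hY := fd.t.fpull X' X p X.ms hp (fd.t.top X)
  have b1 : BM X'.μ (pull X'.μ p X.ms) fun y => c * f (X.A n (p y)) :=
    (fd.a.bm_comp X.ms X'.μ X.μ p (fun x => f (X.A n x)) hp.mp (bm (mb_tz hf n))).cmul c
  have e1 : (fun y => c * (f (p (X'.A n y)) * F (X'.A m y))) =ᵐ[X'.μ]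
      fun y => c * f (X.A n (p y)) * F (X'.A m y) := by
    filter_upwards [emb_fun fd hp n hf] with y hy
    rw [hy, mul_assoc]
  filter_upwards [condExp_congr_ae (m := pull X'.μ p X.ms) e1,
    Fib27.ce_mul hY.le b1 (bm (mb_tz hF m)),
    fd.t.ce X' (pull X'.μ p X.ms) m F hY (bm hF).integrable,
    (X'.mp m).quasiMeasurePreserving.ae_eq_comp h, emb_fun fd hp m he] with y h1 h2 h3 h4 h5
  rw [h1, h2, mul_assoc, ← h5]
  congr 2
  exact h3.trans h4.symm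

theorem le (fd : Fd) {X' X : Sy} {p : X'.X → X.X} (hp : Emb X' X p) {f e : X.X → ℂ}
    {F : X'.X → ℂ} (hf : MB X f) (he : MB X e) (hF : MB X' F)
    (h : (fun x => e (p x)) =ᵐ[X'.μ] X'.μ[F | pull X'.μ p X.ms]) (a b : Gm 2) (κ : ℕ → ℝ)
    (M : ℕ) : NN X a b κ M f e ≤ NN X' a b κ M (fun y => f (p y)) F := by
  have hf' : MB X' fun y => f (p y) := ⟨hf.1.comp hp.mp.measurable, fun y => hf.2 _⟩
  have hs := condExp_finsetSum (μ := X'.μ) (s := Finset.range M)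
    (f := fun d y => (κ d : ℂ) * (f (p (X'.A ((d : ℤ) • a) y)) * F (X'.A ((d : ℤ) • b) y)))
    (fun d _ => (((bm (mb_tz hf' _)).mul (bm (mb_tz hF _))).cmul _).integrable)
    (pull X'.μ p X.ms)
  have hl := integral_norm_condExp_le (μ := X'.μ) (m := pull X'.μ p X.ms)
    (∑ d ∈ Finset.range M, fun y =>
      (κ d : ℂ) * (f (p (X'.A ((d : ℤ) • a) y)) * F (X'.A ((d : ℤ) • b) y)))
  simp only [Finset.sum_apply] at hl
  refine le_trans (le_of_eq ?_) hl
  have hm : Measurable fun x => ‖∑ d ∈ Finset.range M,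
      (κ d : ℂ) * (f (X.A ((d : ℤ) • a) x) * e (X.A ((d : ℤ) • b) x))‖ :=
    (Finset.measurable_sum _ fun d _ =>
      ((mb_tz hf _).1.mul (mb_tz he _).1).const_mul _).norm
  unfold NN
  rw [← hp.mp.map_eq, integral_map hp.mp.measurable.aemeasurable hm.aestronglyMeasurable]
  refine integral_congr_ae ?_
  filter_upwards [hs, ae_all_iff.2 fun d : ℕ =>
    term fd hp hf he hF h (κ d) ((d : ℤ) • a) ((d : ℤ) • b)] with y h1 h2
  rw [h1, Finset.sum_apply]
  exact congrArg _ (Finset.sum_congr rfl fun d _ => (h2 d).symm)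

end LiftB

theorem liftB : LiftBR := by
  intro fd vb la 𝒞 a b w hC hw hG X hX g hg bg f hf
  refine vb.span X a b w f g (EE 𝒞 X) hw hf (LiftB.bm hg).integrable ?_
    ((la 𝒞 hC X hX).span g hg bg)
  rintro e ⟨he, X', p, F, hX', hp, hF, h⟩
  refine ⟨(LiftB.bm he).integrable, ?_⟩
  exact squeeze_zero (fun M => vb.nonneg X a b (w M) M f e)
    (fun M => LiftB.le fd hp hf he (hC.mb X' F hF) h a b (w M) M)
    (hG X' hX' F hF _ ⟨hf.1.comp hp.mp.measurable, fun y => hf.2 _⟩)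

end T6

end

end PkLiftB

section PkLb

/-! The twisted square over the invariant factor. -/

set_option autoImplicit false
set_option linter.unusedVariables false
set_option warn.classDefReducibility false

open MeasureTheory ProbabilityTheory Filter Topology Function
open scoped BigOperators ComplexConjugate

noncomputable section

namespace T6

open Pool.Agent.MP_154433_an hiding BM
open T3S (B1 MB1)
open T4S (Gm Act ddX QX ln)
open Fib27 (BM)
open T3x (nul pull KEq)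
open T4x (Fac Emb Inv Nice Fd IsRP)

namespace Lb

/-- the same space with the action read through a homomorphism -/
@[reducible] def sys (X : Sy) (φ : Gm 2 →+ Gm 2) (b : Bool) : Sy :=
  { X := X.X, μ := X.μ, Tz := fun v => X.A (cond b φ (AddMonoidHom.id _) v)
    mp := fun v => X.mp _
    zero := fun x => by rw [map_zero]; exact X.zero x
    add := fun n m x => by rw [map_add]; exact X.add _ _ x }

lemma bm {X : Sy} {g : X.X → ℂ} (hg : MB X g) : BM X.μ X.ms g :=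
  ⟨hg.1.aestronglyMeasurable, 1, Eventually.of_forall hg.2⟩

lemma eqv (F : Fd) {Z Y : Sy} {p : Z.X → Y.X} (h : Emb Z Y p) (v : Gm 2) {f : Y.X → ℂ}
    (hf : MB Y f) : (fun z => f (p (Z.A v z))) =ᵐ[Z.μ] fun z => f (Y.A v (p z)) :=
  F.a.keq_fun Y.ms Z.μ Y.μ (p ∘ Z.Tz v) (Y.Tz v ∘ p) f (h.mp.comp (Z.mp v)) ((Y.mp v).comp h.mp)
    (h.eqv v) hf.1.aestronglyMeasurable

lemma zinv (X : Sy) (u : Gm 2) (A : Set X.X) (h : X.A u ⁻¹' A =ᵐ[X.μ] A) (k : ℤ) :
    X.A (k • u) ⁻¹' A =ᵐ[X.μ] A := by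
  have key : ∀ k : ℤ, X.A ((k + 1) • u) ⁻¹' A =ᵐ[X.μ] X.A (k • u) ⁻¹' A := fun k => by
    have e : X.A ((k + 1) • u) ⁻¹' A = X.A (k • u) ⁻¹' (X.A u ⁻¹' A) := by
      ext x
      rw [Set.mem_preimage, Set.mem_preimage, Set.mem_preimage, ← (act X).add, add_smul, one_smul,
        add_comm]
    rw [e]
    exact ((act X).mp _).quasiMeasurePreserving.preimage_ae_eq h
  induction k using Int.induction_on with
  | zero =>
    have e : X.A ((0 : ℤ) • u) ⁻¹' A = A := by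
      ext x
      rw [Set.mem_preimage, zero_smul, (act X).zero]
    rw [e]
  | succ k ih => exact (key k).trans ih
  | pred k ih =>
    have := key (-(k : ℤ) - 1)
    rw [sub_add_cancel] at this
    exact this.symm.trans ih

lemma base (F : Fd) {X Z : Sy} {φ : Gm 2 →+ Gm 2} (u : Gm 2) {p : Bool → Z.X → X.X}
    (h : IsRP (sys X φ) X (Inv X {u}) (fun _ => id) false Z p) {g : X.X → ℂ} (hg : MB X g) :
    (∫ z, g (p false z) * conj (g (p true z)) ∂Z.μ).re =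
      ∫ x, ‖(X.μ[g | Inv X {u}]) x‖ ^ 2 ∂X.μ := by
  have hD := F.t.finv X {u}
  have m0 : MeasurePreserving (p false) Z.μ X.μ := (h.emb false).mp
  have m1 : MeasurePreserving (p true) Z.μ X.μ := (h.emb true).mp
  have hp : pull X.μ id (Inv X {u}) = Inv X {u} := by
    rw [pull, MeasurableSpace.comap_id]
    exact sup_eq_left.2 hD.nl
  have h1 : Z.μ[fun z => ∏ i : Bool, (cond i (fun x => conj (g x)) g : X.X → ℂ) (p i z) |
      pull Z.μ (p false) (Inv X {u})] =ᵐ[Z.μ] fun z => ∏ i : Bool,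
        (X.μ[(cond i (fun x => conj (g x)) g : X.X → ℂ) | pull X.μ id (Inv X {u})]) (p i z) :=
    h.ind Finset.univ (fun i => (cond i (fun x => conj (g x)) g : X.X → ℂ)) fun i _ => by
      cases i
      · exact bm hg
      · exact bm (X := X) hg.cj
  simp only [Fintype.prod_bool, cond_true, cond_false, hp] at h1
  have h2 : (fun z => (X.μ[fun x => conj (g x) | Inv X {u}]) (p true z)) =ᵐ[Z.μ]
      fun z => (X.μ[fun x => conj (g x) | Inv X {u}]) (p false z) :=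
    F.a.keq_fun (Inv X {u}) Z.μ X.μ _ _ _ m1 m0 (h.com true)
      stronglyMeasurable_condExp.aestronglyMeasurable
  have h3 : X.μ[fun x => conj (g x) | Inv X {u}] =ᵐ[X.μ] fun x => conj ((X.μ[g | Inv X {u}]) x) :=
    ((Complex.conjCLE : ℂ →L[ℝ] ℂ).comp_condExp_comm (hg.integrable X.μ) (m := Inv X {u})).symm
  have h4 : ∫ z, g (p false z) * conj (g (p true z)) ∂Z.μ =
      ∫ z, ((‖(X.μ[g | Inv X {u}]) (p false z)‖ ^ 2 : ℝ) : ℂ) ∂Z.μ := by
    refine Eq.trans (by simp only [mul_comm]) ((integral_condExp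
      (F.a.pull_le _ Z.μ X.μ _ m0 hD.le)).symm.trans (integral_congr_ae (h1.trans ?_)))
    filter_upwards [h2, m0.quasiMeasurePreserving.ae h3] with z a1 a2
    rw [a1, a2, Complex.conj_mul', Complex.ofReal_pow]
  have hm : AEStronglyMeasurable (fun x => ‖(X.μ[g | Inv X {u}]) x‖ ^ 2) X.μ :=
    (stronglyMeasurable_condExp.mono hD.le).aestronglyMeasurable.norm.pow 2
  rw [h4, integral_complex_ofReal, Complex.ofReal_re, ← integral_map m0.measurable.aemeasurable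
    (f := fun x => ‖(X.μ[g | Inv X {u}]) x‖ ^ 2) (by rwa [m0.map_eq]), m0.map_eq]

lemma step (F : Fd) (Q : QB) {X Z : Sy} {φ : Gm 2 →+ Gm 2} (u : Gm 2) {p : Bool → Z.X → X.X}
    (h : IsRP (sys X φ) X (Inv X {u}) (fun _ => id) false Z p) (H : ℕ) (L : List (Gm 2))
    (hL : ∀ v ∈ L, φ v = v) {g : X.X → ℂ} (hg : MB X g) :
    QE Z L H (fun z => g (p false z) * conj (g (p true z))) =
      EL X H L (fun G _ => ∫ x, ‖(X.μ[G | Inv X {u}]) x‖ ^ 2 ∂X.μ) g g := by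
  induction L generalizing g with
  | nil => exact base F u h hg
  | cons v L ih =>
    rw [QE, List.map_cons, T4S.QX_ln, EL]
    refine Finset.expect_congr rfl fun a _ => Finset.expect_congr rfl fun a' _ => ?_
    rw [← ih (fun w hw => hL w (List.mem_cons_of_mem _ hw)) ((act X).dd hg _)]
    refine Q.congr Z L H _ _ ?_
    generalize ((a' : ℕ) : ℤ) - ((a : ℕ) : ℤ) = k
    have e : φ (k • v) = k • v := by rw [map_zsmul, hL v List.mem_cons_self]
    have b0 : (fun z => g (p false (Z.A (k • v) z))) =ᵐ[Z.μ] fun z => g (X.A (k • v) (p false z)) :=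
      eqv F (h.emb false) (k • v) hg
    have b1 : (fun z => g (p true (Z.A (k • v) z))) =ᵐ[Z.μ]
        fun z => g (X.A (φ (k • v)) (p true z)) := eqv F (h.emb true) (k • v) hg
    rw [e] at b1
    filter_upwards [b0, b1] with z a0 a1
    simp only [ddX, a0, a1, map_mul, Complex.conj_conj]
    ring

lemma keq (X : Sy) {u : Gm 2} {φ : Gm 2 →+ Gm 2} (hφ : Pj u φ) (n : Gm 2) :
    KEq X.μ (Inv X {u}) (X.A (φ n)) (X.A n) := by
  intro A hA
  obtain ⟨k, hk⟩ := hφ.2 n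
  have h2 : X.A n ⁻¹' A = X.A (φ n) ⁻¹' (X.A (k • u) ⁻¹' A) := by
    ext x
    rw [Set.mem_preimage, Set.mem_preimage, Set.mem_preimage, ← (act X).add, add_comm, ← hk]
  rw [h2]
  exact (((act X).mp (φ n)).quasiMeasurePreserving.preimage_ae_eq
    (zinv X u A (hA.2 u rfl) k)).symm

end Lb

theorem lb : LbR := by
  intro F V Q N X u φ hX hφ
  obtain ⟨Z, p, h⟩ := F.rp Bool (Lb.sys X φ) X (Inv X {u}) (fun _ => id) false (fun _ => hX)
    (F.t.finv X {u}) (fun _ => MeasurePreserving.id X.μ) (by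
      rintro (_ | _) n
      · exact fun A hA => EventuallyEq.rfl
      · exact Lb.keq X hφ n)
  refine ⟨Z, p false, p true, h.nice, ⟨(h.emb false).mp, (h.emb false).eqv⟩, fun g hg => ⟨⟨?_, ?_⟩,
    fun L hL hN => N X u L g hg fun ε hε => ?_⟩⟩
  · exact MB1.cj ⟨hg.1.comp (h.emb true).mp.measurable, fun z => hg.2 _⟩
  · have b1 : (fun z => g (p true (Z.A u z))) =ᵐ[Z.μ] fun z => g (X.A (φ u) (p true z)) :=
      Lb.eqv F (h.emb true) u hg
    filter_upwards [b1] with z a1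
    rw [a1, hφ.1, (act X).zero]
  · obtain ⟨H, h1, h2⟩ := hN ε hε
    exact ⟨H, h1, (Lb.step F Q u h H L hL hg).symm.le.trans h2⟩

end T6

end

end PkLb

section PkCl

/-! Row `Cl`: the two classes of products are closed under the operations. -/

set_option autoImplicit false
set_option linter.unusedVariables false
set_option warn.classDefReducibility false

open MeasureTheory ProbabilityTheory Filter Topology Function
open scoped BigOperators ComplexConjugate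

noncomputable section

namespace T6

open Pool.Agent.MP_154433_an hiding BM
open T3S (B1 MB1)
open T4S (Gm Act)
open T4x (Emb Fd)

namespace Cl

lemma one' (X : Sy) (u : Gm 2) : IvF X u fun _ => 1 :=
  ⟨⟨measurable_const, fun _ => by simp⟩, EventuallyEq.rfl⟩

lemma mul' {X : Sy} {u : Gm 2} {c c' : X.X → ℂ} (h : IvF X u c) (h' : IvF X u c') :
    IvF X u fun x => c x * c' x :=
  ⟨h.1.mul h'.1, h.2.mul h'.2⟩

lemma cj' {X : Sy} {u : Gm 2} {c : X.X → ℂ} (h : IvF X u c) : IvF X u fun x => conj (c x) :=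
  ⟨h.1.cj, h.2.fun_comp conj⟩

lemma tz' {X : Sy} {u : Gm 2} {c : X.X → ℂ} (h : IvF X u c) (v : Gm 2) :
    IvF X u fun x => c (X.A v x) := by
  refine ⟨(act X).tz h.1 v, ?_⟩
  filter_upwards [((act X).mp v).quasiMeasurePreserving.ae_eq_comp h.2] with x hx
  rw [(act X).comm v u x]
  exact hx

lemma pb' (F : Fd) {X' X : Sy} {p : X'.X → X.X} (hp : Emb X' X p) {u : Gm 2} {c : X.X → ℂ}
    (h : IvF X u c) : IvF X' u fun x => c (p x) := by
  refine ⟨⟨h.1.1.comp hp.mp.measurable, h.1.2.comp _⟩, ?_⟩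
  have h1 := F.a.keq_fun X.ms X'.μ X.μ _ _ c (hp.mp.comp (X'.mp u)) ((X.mp u).comp hp.mp)
    (hp.eqv u) h.1.1.aestronglyMeasurable
  exact h1.trans (hp.mp.quasiMeasurePreserving.ae_eq_comp h.2)

end Cl

theorem cl : ClR := by
  intro F V Z a b
  refine ⟨⟨?_, ?_, ?_, ?_, ?_, ?_⟩, ⟨?_, ?_, ?_, ?_, ?_, ?_⟩⟩
  · rintro X _ ⟨β, c, n, hβ, hc, hn, hm, rfl⟩
    exact hc.1.mul (hβ.1.mul hn.1)
  · intro X
    exact ⟨_, _, _, Z.one X _, Cl.one' X _, Z.one X _, Z.one X _, funext fun x => by simp⟩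
  · rintro X _ ⟨β, c, n, hβ, hc, hn, hm, rfl⟩ _ ⟨β', c', n', hβ', hc', hn', hm', rfl⟩
    exact ⟨_, _, _, Z.mul X _ _ _ hβ hβ', Cl.mul' hc hc', Z.mul X _ _ _ hn hn',
      Z.mul X _ _ _ hm hm', funext fun x => by ring⟩
  · rintro X _ ⟨β, c, n, hβ, hc, hn, hm, rfl⟩
    exact ⟨_, _, _, Z.cj X _ _ hβ, Cl.cj' hc, Z.cj X _ _ hn, Z.cj X _ _ hm,
      funext fun x => by simp only [map_mul]⟩
  · rintro X v _ ⟨β, c, n, hβ, hc, hn, hm, rfl⟩
    exact ⟨_, _, _, Z.tz X _ _ v hβ, Cl.tz' hc v, Z.tz X _ _ v hn, Z.tz X _ _ v hm, rfl⟩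
  · rintro X' X p hp _ ⟨β, c, n, hβ, hc, hn, hm, rfl⟩
    exact ⟨_, _, _, Z.pb X' X p _ _ hp hβ, Cl.pb' F hp hc, Z.pb X' X p _ _ hp hn,
      Z.pb X' X p _ _ hp hm, rfl⟩
  · rintro X _ ⟨β, c, hβ, hc, rfl⟩
    exact hc.1.mul hβ.1
  · intro X
    exact ⟨_, _, Z.one X _, Z.one X _, funext fun x => by simp⟩
  · rintro X _ ⟨β, c, hβ, hc, rfl⟩ _ ⟨β', c', hβ', hc', rfl⟩
    exact ⟨_, _, Z.mul X _ _ _ hβ hβ', Z.mul X _ _ _ hc hc', funext fun x => by ring⟩
  · rintro X _ ⟨β, c, hβ, hc, rfl⟩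
    exact ⟨_, _, Z.cj X _ _ hβ, Z.cj X _ _ hc, funext fun x => by simp only [map_mul]⟩
  · rintro X v _ ⟨β, c, hβ, hc, rfl⟩
    exact ⟨_, _, Z.tz X _ _ v hβ, Z.tz X _ _ v hc, rfl⟩
  · rintro X' X p hp _ ⟨β, c, hβ, hc, rfl⟩
    exact ⟨_, _, Z.pb X' X p _ _ hp hβ, Z.pb X' X p _ _ hp hc, rfl⟩

end T6

end

end PkCl

section PkV12

/-! The two vanishing statements: remove the structured factor, then control the derivatives. -/

set_option autoImplicit false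
set_option linter.unusedVariables false
set_option warn.classDefReducibility false

open MeasureTheory ProbabilityTheory Filter Topology Function
open scoped BigOperators ComplexConjugate

noncomputable section

namespace T6

open Pool.Agent.MP_154433_an hiding BM
open T3S (B1 MB1 PW AsInv Erg Bd Near Gr yw dif CZ)
open T4S (Gm Act ddX QX ln Spr Concl)
open Fib27 (BM)

namespace V12

theorem core (hV : VB) (hQ : QB) (hK : KillS) (κ : ℕ → ℕ → ℝ) (hκ : PW κ) (X : Sy) (a b : Gm 2)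
    (L : List (Gm 2)) (n g f : X.X → ℂ) (hL : L ≠ []) (hn : InZ X L n) (hg : MB X g) (hf : MB X f)
    (Ψ : ℕ → (X.X → ℂ) → (X.X → ℂ) → ℝ)
    (h1 : ∀ ε : ℝ, 0 < ε → ∃ K : ℝ, 0 ≤ K ∧ ∀ H : ℕ, 1 ≤ H → ∀ f' g', MB X f' →
      g' ∈ Der X g L.length → ∀ᶠ M in atTop, NN X a b (κ M) M f' g' ≤ ε + K * Ψ H f' g')
    (h2 : ∀ ε : ℝ, 0 < ε → ∃ H : ℕ, 1 ≤ H ∧ EL X H L (Ψ H) f g ≤ ε) :
    Vn X a b κ f fun x => g x * n x := by
  refine tendsto_order.2 ⟨fun r hr => Eventually.of_forall fun M =>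
    hr.trans_le (hV.nonneg _ _ _ _ _ _ _), fun r hr => ?_⟩
  obtain ⟨K, hK0, hK1⟩ := hK X a b L n hL hn (r / 4) (by linarith)
  have hK2 : 0 < K + 1 := by linarith
  obtain ⟨K', hK0', hK1'⟩ := h1 (r / 4 / (K + 1)) (by positivity)
  have hK2' : 0 < K' + 1 := by linarith
  obtain ⟨H, hH, hH1⟩ := h2 (r / 4 / (K + 1) / (K' + 1)) (by positivity)
  have h3 := hQ.elc X (fun M => NN X a b (κ M) M) (Ψ H) g (r / 4 / (K + 1)) K' H L hH hg
    (hK1' H hH) f hf
  filter_upwards [h3, hκ.2] with M h4 h5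
  have h6 := hK1 f g H (κ M) M hf hg hH (hκ.1 M) h5
  have h7 : K' * EL X H L (Ψ H) f g ≤ r / 4 / (K + 1) := by
    have e : (K' + 1) * (r / 4 / (K + 1) / (K' + 1)) = r / 4 / (K + 1) :=
      mul_div_cancel₀ _ hK2'.ne'
    have h8 := mul_le_mul_of_nonneg_left hH1 hK0'
    have h9 : 0 ≤ r / 4 / (K + 1) / (K' + 1) := by positivity
    nlinarith
  have h8 : EL X H L (NN X a b (κ M) M) f g ≤ 2 * (r / 4 / (K + 1)) := by linarith
  have h9 := mul_le_mul_of_nonneg_left h8 hK0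
  have e : (K + 1) * (r / 4 / (K + 1)) = r / 4 := mul_div_cancel₀ _ hK2.ne'
  have h10 : 0 ≤ r / 4 / (K + 1) := by positivity
  nlinarith

end V12

theorem v1 : V1R := by
  intro hV hQ hZ hK κ hκ hC X a b L β n f hL hβ hn hf hN
  refine V12.core hV hQ hK κ hκ X a b L n β f hL hn hβ.1 hf
    (fun H f' _ => QE X [a, a] H f') (fun ε hε => ?_) fun ε hε => ?_
  · obtain ⟨K, hK0, hK1⟩ := hC X a b _ (hZ.ua X [b, b] β L.length (by simp) hβ) ε hε
    exact ⟨K, hK0, fun H hH f' g' hf' hg' => hK1 g' hg' f' H hf' hH⟩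
  · obtain ⟨H, hH, hH1⟩ := hN ε hε
    exact ⟨H, hH, hQ.app1 X L [a, a] H f β ▸ hH1⟩

theorem v2 : V2R := by
  intro hV hQ hZ hK κ hκ hC X a b β c f hβ hc hf hN
  refine V12.core hV hQ hK κ hκ X a b [b, b] β c f (by simp) hβ hc.1 hf
    (fun H _ g' => QE X [b - a, -a, -a] H g') (fun ε hε => ?_) fun ε hε => ?_
  · obtain ⟨K, hK0, hK1⟩ :=
      hC X a b _ (hZ.ua X [b - a, b - a] c [b, b].length (by simp) hc) ε hε
    exact ⟨K, hK0, fun H hH f' g' hf' hg' => hK1 g' hg' f' H hf' hH⟩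
  · obtain ⟨H, hH, hH1⟩ := hN ε hε
    exact ⟨H, hH, hQ.app2 X [b, b] [b - a, -a, -a] H f c ▸ hH1⟩

end T6

end

end PkV12

section PkC2

/-! Control by the second function when it is dual to the box of the difference. -/

set_option autoImplicit false
set_option linter.unusedVariables false

open MeasureTheory ProbabilityTheory Filter Topology Function Finset
open scoped BigOperators ComplexConjugate

noncomputable section

namespace T6

open Pool.Agent.MP_154433_an hiding BM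
open T3S (B1 MB1 PW AsInv CZ)
open T4S (Gm ddX)

namespace C2

def chm (M : ℕ) : Ch M → ℕ → ℂ := fun χ d => χ (d : ZMod (6 * (M + 1)))

lemma mxe (κ : ℕ → ℝ) (M : ℕ) (G : ℕ → ℂ) : mx κ M G = Mau.mx (chm M) M κ G := rfl

lemma wie {M : ℕ} (hM : 1 ≤ M) {A ε : ℝ} (κ : ℕ → ℝ) (κ0 : ∀ d, 0 ≤ κ d)
    (κ1 : ∑ d ∈ range M, κ d = 1) (v : ℤ → ℂ) (c : Ch M → ℂ) (c1 : ∑ χ, ‖c χ‖ ≤ A)
    (c2 : ∀ d < M, 𝔼 j : Fin M, ‖v (((j : ℕ) + d : ℕ) : ℤ) -
      ∑ χ, c χ * χ (((j : ℕ) + d : ℕ) : ZMod (6 * (M + 1)))‖ ≤ ε)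
    (β : Fin M → ℕ → ℂ) (hβ : ∀ j d, ‖β j d‖ ≤ 1) :
    𝔼 j : Fin M, ‖∑ d ∈ range M, (κ d : ℂ) * (v (((j : ℕ) + d : ℕ) : ℤ) * β j d)‖ ≤
      ε + A * 𝔼 j : Fin M, Mau.mx (chm M) M κ (β j) := by
  have key : ∀ j : Fin M, ‖∑ d ∈ range M, (κ d : ℂ) * (v (((j : ℕ) + d : ℕ) : ℤ) * β j d)‖ ≤
      ∑ d ∈ range M, κ d * ‖v (((j : ℕ) + d : ℕ) : ℤ) -
        ∑ χ, c χ * χ (((j : ℕ) + d : ℕ) : ZMod (6 * (M + 1)))‖ +
        A * Mau.mx (chm M) M κ (β j) := fun j => by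
    refine le_trans ?_ (add_le_add le_rfl (Mau.wie_le
      (ch := chm M) (M := M) (lam := κ) (fun χ => c χ * χ ((j : ℕ) : ZMod (6 * (M + 1)))) (A := A) (by
        simpa only [norm_mul, AddChar.norm_apply, mul_one] using c1)
      (fun d => ∑ χ, c χ * χ (((j : ℕ) + d : ℕ) : ZMod (6 * (M + 1)))) (β j) fun d _ => by
        simp only [chm, mul_assoc, ← AddChar.map_add_eq_mul, Nat.cast_add]))
    rw [← sub_le_iff_le_add]
    refine (norm_sub_norm_le _ _).trans ?_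
    rw [← sum_sub_distrib]
    refine (norm_sum_le _ _).trans (sum_le_sum fun d _ => ?_)
    rw [← mul_sub, ← sub_mul, norm_mul, norm_mul, Complex.norm_real, Real.norm_of_nonneg (κ0 d)]
    exact mul_le_mul_of_nonneg_left (mul_le_of_le_one_right (norm_nonneg _) (hβ j d)) (κ0 d)
  refine (expect_le_expect fun j _ => key j).trans ?_
  rw [expect_add_distrib, ← mul_expect, expect_sum_comm]
  refine add_le_add (le_trans (sum_le_sum (g := fun d => κ d * ε) fun d hd => ?_)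
    (by rw [← sum_mul, κ1, one_mul])) le_rfl
  rw [← mul_expect]
  exact mul_le_mul_of_nonneg_left (c2 d (mem_range.1 hd)) (κ0 d)

lemma apx (X : Sy) {g D v : X.X → ℂ} (hg : MB X g) (hD : MB X D) (hv : MB X v) {K η : ℝ}
    (hK : 0 ≤ K) (hη : 0 ≤ η) (h1 : ∫ x, ‖g x - K * D x‖ ∂X.μ ≤ η)
    (h2 : ∫ x, ‖D x - v x‖ ∂X.μ ≤ η / (K + 1)) : ∫ x, ‖g x - K * v x‖ ∂X.μ ≤ 2 * η := by
  have i1 := ((hg.integrable X.μ).sub ((hD.integrable X.μ).const_mul (K : ℂ))).norm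
  have i2 := ((hD.integrable X.μ).sub (hv.integrable X.μ)).norm.const_mul K
  refine (integral_mono_of_nonneg (Eventually.of_forall fun x => norm_nonneg _) (i1.add i2)
    (Eventually.of_forall fun x => ?_)).trans ?_
  · simp only [Pi.add_apply, Pi.sub_apply]
    rw [← Mau.nm hK, mul_sub]
    exact norm_sub_le_norm_sub_add_norm_sub _ _ _
  · rw [integral_add' i1 i2, integral_const_mul]
    simp only [Pi.sub_apply]
    have h3 := mul_le_mul_of_nonneg_left h2 hK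
    have h4 : K * (η / (K + 1)) ≤ η := by
      rw [← mul_div_assoc, div_le_iff₀ (by linarith)]
      nlinarith
    linarith

lemma qe (qb : QB) (X : Sy) (s r : Gm 2) {g : X.X → ℂ} (hg : MB X g) {H : ℕ} (hH : 1 ≤ H) :
    (H : ℝ)⁻¹ * (H : ℝ)⁻¹ * ∑ i ∈ range H, ∑ i' ∈ range H, QE X [r, r] H
      (fun y => conj (g (X.A ((i : ℤ) • s) y)) * g (X.A ((i' : ℤ) • s) y)) =
      QE X [s, r, r] H g := by
  have e : QE X [s, r, r] H g = 𝔼 h : Fin H, 𝔼 h' : Fin H,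
      QE X [r, r] H (ddX X.A ((((h' : ℕ) : ℤ) - ((h : ℕ) : ℤ)) • s) g) :=
    T4S.QX_ln X.μ X.A s H _ g
  have e2 : ∀ i i' : ℕ, QE X [r, r] H
      (fun y => conj (g (X.A ((i : ℤ) • s) y)) * g (X.A ((i' : ℤ) • s) y)) =
      QE X [r, r] H (ddX X.A (((i' : ℤ) - (i : ℤ)) • s) g) := fun i i' => by
    rw [← qb.tz X [r, r] H _ ((i : ℤ) • s) ((act X).dd hg _)]
    congr 1
    funext y
    simp only [ddX, ← (act X).add, sub_smul, sub_add_cancel, mul_comm]
  rw [e]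
  simp only [e2, expect_eq_sum_div_card, card_univ, Fintype.card_fin]
  rw [← sum_div, ← Fin.sum_univ_eq_sum_range
    (fun i => ∑ i' ∈ range H, QE X [r, r] H (ddX X.A (((i' : ℤ) - (i : ℤ)) • s) g)) H]
  simp only [← Fin.sum_univ_eq_sum_range
    (fun i' => QE X [r, r] H (ddX X.A (((i' : ℤ) - _) • s) g)) H]
  ring

end C2

theorem c2 : C2R := by
  intro vb qb da wz κ ν pκ pν hν hmx hsq X a b 𝓖 hU ε hε
  obtain ⟨K1, k1, h1⟩ := hU.2 (ε ^ 2 / 8) (by positivity)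
  obtain ⟨A, hA, hw⟩ := wz (ε ^ 2 / (4 * (K1 + 1))) (by positivity)
  obtain ⟨z, z0, hz⟩ : ∃ z : ℝ, 0 < z ∧ (K1 + 1) * (A * (8 * z)) = ε ^ 2 / 2 :=
    ⟨ε ^ 2 / (16 * (K1 + 1) * A), by positivity, by field_simp; ring⟩
  obtain ⟨K2, k2, h2⟩ := hU.2 z z0
  obtain ⟨K3, k3, h3⟩ := hmx (4 * z * z) (by positivity)
  refine ⟨(2 * ε)⁻¹ * (K1 * (A * ((2 * (2 * z))⁻¹ * K3))), by positivity, fun g hg f H hf hH => ?_⟩
  have mg := hU.1 g hg
  obtain ⟨D1, d1, e1⟩ := h1 g hg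
  obtain ⟨D2, d2, e2⟩ := h2 g hg
  have hG : ∀ i i' : ℕ, MB X fun y =>
      conj (g (X.A ((i : ℤ) • (b - a)) y)) * g (X.A ((i' : ℤ) • (b - a)) y) := fun i i' =>
    ((act X).tz mg _).cj.mul ((act X).tz mg _)
  filter_upwards [pκ.2, pν.2, hw, hsq (z / (K2 + 1)) (by positivity), eventually_ge_atTop 1,
    (eventually_all_finset (range H)).2 fun i _ => hν i z z0,
    (eventually_all_finset (range H)).2 fun i _ => (eventually_all_finset (range H)).2
      fun i' _ => h3 X (-a) _ H (hG i i') hH] with M m1 m2 m3 m4 m5 m6 m7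
  obtain ⟨v1, u1, f1⟩ := d1.2 (M ^ 2) (ε ^ 2 / 8 / (K1 + 1)) (by positivity)
  obtain ⟨v2, u2, f2⟩ := (da.cj X _ _ d2).2 (M ^ 2) (z / (K2 + 1)) (by positivity)
  have b1 := da.cx X _ _ _ u1
  have b2 := da.cx X _ _ _ u2
  have orb : ∀ v ∈ CX X [b - a, b - a] (M ^ 2), ∀ x,
      (fun n : ℤ => v (X.A (n • (b - a)) x)) ∈ CZ (fun _ : Fin 2 => (1 : ℤ)) (M ^ 2) :=
    fun v hv x => da.orb X [b - a, b - a] (b - a) _ v x (fun i => by fin_cases i <;> rfl) hv
  have e2' : ∫ x, ‖conj (g x) - K2 * conj (D2 x)‖ ∂X.μ ≤ z := by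
    refine le_trans (le_of_eq (integral_congr_ae (Eventually.of_forall fun x => ?_))) e2
    simp only
    rw [← Complex.norm_conj (g x - _), map_sub, map_mul, Complex.conj_ofReal]
  simp only [C2.mxe, df] at m4 m7
  have key := Mau.tw_win (ch := C2.chm M) (η0 := ε ^ 2 / (4 * (K1 + 1))) (τ := z / (K2 + 1))
    (κ := z) (act X).mp (act X).add a b hf.1 mg.1 hf.2 mg.2 b1.1 b2.1 b1.2 b2.2
    (fun ξ ξ' => ⟨ξ - ξ', fun d => by
      simp only [C2.chm]
      rw [AddChar.sub_apply, AddChar.map_neg_eq_conj]⟩)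
    (fun χ d => (χ.norm_apply _).le) m5 (κ M) (ν M) (pκ.1 M) m1.le (pν.1 M) m2.le k1 k2 hA.le hH
    (t := 2 * z) (by positivity) (C2.apx X mg d1.1 b1 k1 (by positivity) e1 f1)
    (C2.apx X mg.cj (da.cj X _ _ d2).1 b2 k2 z0.le e2' f2)
    (fun x β hβ => by
      obtain ⟨c, c1, c2⟩ := m3 _ (orb v1 u1 x)
      exact C2.wie m5 (κ M) (pκ.1 M) m1 (fun n : ℤ => v1 (X.A (n • (b - a)) x)) c c1 c2 β hβ)
    (fun x U hU => m4 (κ M) U (fun d n => v2 (X.A (n • (b - a)) (x d))) (pκ.1 M) m1 hU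
      fun d => orb v2 u2 (x d))
    (fun i hi u hu => m6 i (mem_range.2 hi) ℝ u hu)
  have H0 : (0 : ℝ) < H := by exact_mod_cast hH
  have s1 := mul_le_mul_of_nonneg_left (sum_le_sum fun i hi => sum_le_sum fun i' hi' =>
    m7 i hi i' hi') (show 0 ≤ (H : ℝ)⁻¹ * (H : ℝ)⁻¹ by positivity)
  simp only [sum_add_distrib, sum_const, card_range, nsmul_eq_mul, ← mul_sum _ _ K3] at s1
  rw [mul_add, mul_left_comm _ K3, C2.qe qb X (b - a) (-a) mg hH,
    show (H : ℝ)⁻¹ * (H : ℝ)⁻¹ * (H * (H * (4 * z * z))) = 4 * z * z by field_simp] at s1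
  have s2 := mul_le_mul_of_nonneg_left s1 (show 0 ≤ (2 * (2 * z))⁻¹ by positivity)
  rw [mul_add, show (2 * (2 * z))⁻¹ * (4 * z * z) = z by field_simp; ring] at s2
  have s3 : K2 * (z / (K2 + 1)) ≤ z := by
    rw [← mul_div_assoc, div_le_iff₀ (by linarith)]
    nlinarith
  have s4 : K1 * (ε ^ 2 / (4 * (K1 + 1))) ≤ ε ^ 2 / 4 := by
    rw [← mul_div_assoc, div_le_div_iff₀ (by positivity) (by norm_num)]
    nlinarith [sq_nonneg ε]
  have s5 := key.trans (add_le_add le_rfl (mul_le_mul_of_nonneg_left (add_le_add le_rfl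
    (mul_le_mul_of_nonneg_left (add_le_add (show 2 * (2 * z) + K2 * (z / (K2 + 1)) + z + 2 * z / 2
      ≤ 7 * z by linarith) s2) hA.le)) k1))
  have mS : Measurable fun x => ∑ d ∈ range M,
      (κ M d : ℂ) * (f (X.A ((d : ℤ) • a) x) * g (X.A ((d : ℤ) • b) x)) :=
    Finset.measurable_sum _ fun d _ => (((act X).tz hf _).mul ((act X).tz mg _)).1.const_mul _
  have iS : Integrable (fun x => ‖∑ d ∈ range M,
      (κ M d : ℂ) * (f (X.A ((d : ℤ) • a) x) * g (X.A ((d : ℤ) • b) x))‖ ^ 2) X.μ :=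
    Mau.int_bd (mS.norm.pow_const 2) 1 fun x => by
      rw [norm_pow, norm_norm]
      refine pow_le_one₀ (norm_nonneg _) ((norm_sum_le _ _).trans
        (le_trans (sum_le_sum fun d _ => ?_) m1.le))
      rw [Mau.nm (pκ.1 M d)]
      exact mul_le_of_le_one_right (pκ.1 M d) (Mau.b1m (hf.2 _) (mg.2 _))
  refine (integral_mono_of_nonneg (Eventually.of_forall fun x => norm_nonneg _)
    ((integrable_const (ε / 2)).add (iS.const_mul (2 * ε)⁻¹))
    (Eventually.of_forall fun x => Mau.amgm hε _)).trans ?_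
  rw [integral_add' (integrable_const _) (iS.const_mul _), integral_const, integral_const_mul,
    probReal_univ, one_smul]
  have s6 : ∫ x, ‖∑ d ∈ range M, (κ M d : ℂ) *
      (f (X.A ((d : ℤ) • a) x) * g (X.A ((d : ℤ) • b) x))‖ ^ 2 ∂X.μ ≤
      ε ^ 2 + K1 * (A * ((2 * (2 * z))⁻¹ * K3)) * QE X [b - a, -a, -a] H g := by
    have : 0 ≤ A * (8 * z) := by positivity
    have e : ∀ w c q : ℝ, K1 * (w + A * (7 * z + (z + c * (K3 * q)))) =
        K1 * w + ((K1 + 1) * (A * (8 * z)) - A * (8 * z)) + K1 * (A * (c * K3)) * q :=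
      fun w c q => by ring
    rw [e, hz] at s5
    linarith
  have s7 := mul_le_mul_of_nonneg_left s6 (show 0 ≤ (2 * ε)⁻¹ by positivity)
  rw [mul_add, show (2 * ε)⁻¹ * ε ^ 2 = ε / 2 by field_simp, ← mul_assoc] at s7
  linarith

end T6

end

end PkC2

section PkC1

/-! Control by the first function when the partner is dual to the box of its own direction. -/

set_option autoImplicit false
set_option linter.unusedVariables false
set_option warn.classDefReducibility false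

open MeasureTheory ProbabilityTheory Filter Topology Function
open scoped BigOperators ComplexConjugate

noncomputable section

namespace T6

open Pool.Agent.MP_154433_an hiding BM
open T3S (B1 MB1 PW AsInv Erg Bd Near Gr yw dif CZ)
open T4S (Gm Act ddX QX ln Spr Concl)
open Fib27 (BM)
open T3x (nul pull gen)
open T4x (Fac Emb Inv Nice Pair Star KK Fd)

namespace C1

lemma le_mx (κ : ℕ → ℝ) (M : ℕ) (G : ℕ → ℂ) (χ : Ch M) :
    ‖∑ d ∈ Finset.range M, (κ d : ℂ) * (χ (d : ZMod (6 * (M + 1))) * G d)‖ ≤ mx κ M G :=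
  le_ciSup (f := fun χ : Ch M =>
    ‖∑ d ∈ Finset.range M, (κ d : ℂ) * (χ (d : ZMod (6 * (M + 1))) * G d)‖)
    (Finite.bddAbove_range _) χ

lemma mx_nonneg (κ : ℕ → ℝ) (M : ℕ) (G : ℕ → ℂ) : 0 ≤ mx κ M G :=
  (norm_nonneg _).trans (le_mx κ M G 0)

lemma wsum_le {κ : ℕ → ℝ} {M : ℕ} (hκ : ∀ d, 0 ≤ κ d) (hs : ∑ d ∈ Finset.range M, κ d = 1)
    {G : ℕ → ℂ} (hG : ∀ d, ‖G d‖ ≤ 1) : ‖∑ d ∈ Finset.range M, (κ d : ℂ) * G d‖ ≤ 1 := by
  refine (norm_sum_le _ _).trans ?_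
  rw [← hs]
  refine Finset.sum_le_sum fun d _ => ?_
  rw [norm_mul, Complex.norm_real, Real.norm_of_nonneg (hκ d)]
  exact mul_le_of_le_one_right (hκ d) (hG d)

lemma mx_le {κ : ℕ → ℝ} {M : ℕ} (hκ : ∀ d, 0 ≤ κ d) (hs : ∑ d ∈ Finset.range M, κ d = 1)
    {G : ℕ → ℂ} (hG : ∀ d, ‖G d‖ ≤ 1) : mx κ M G ≤ 1 :=
  ciSup_le fun χ => wsum_le hκ hs fun d => by
    rw [norm_mul, AddChar.norm_apply, one_mul]
    exact hG d

lemma mx_meas {X : Type} [MeasurableSpace X] (κ : ℕ → ℝ) (M : ℕ) {G : ℕ → X → ℂ}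
    (hG : ∀ d, Measurable (G d)) : Measurable fun x => mx κ M fun d => G d x :=
  Measurable.iSup fun χ =>
    (Finset.measurable_sum _ fun d _ => ((hG d).const_mul _).const_mul _).norm

lemma integral_rexp {X : Type} [MeasurableSpace X] {μ : Measure X} {ι : Type} (s : Finset ι)
    {f : ι → X → ℝ} (h : ∀ i ∈ s, Integrable (f i) μ) :
    ∫ x, 𝔼 i ∈ s, f i x ∂μ = 𝔼 i ∈ s, ∫ x, f i x ∂μ := by
  simp only [Finset.expect_eq_sum_div_card]
  rw [integral_div, integral_finsetSum _ h]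

lemma integrable_rexp {X : Type} [MeasurableSpace X] {μ : Measure X} {ι : Type} (s : Finset ι)
    {f : ι → X → ℝ} (h : ∀ i ∈ s, Integrable (f i) μ) :
    Integrable (fun x => 𝔼 i ∈ s, f i x) μ := by
  simp only [Finset.expect_eq_sum_div_card]
  exact (integrable_finsetSum _ h).div_const _

/-- one shift: replace the structured function by its trigonometric approximation -/
lemma one {κ : ℕ → ℝ} {M : ℕ} (hκ : ∀ d, 0 ≤ κ d) {F : ℕ → ℂ} (hF : ∀ d, ‖F d‖ ≤ 1)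
    (V : ℕ → ℂ) (c : Ch M → ℂ) {A : ℝ} (hA : ∑ χ, ‖c χ‖ ≤ A) (j : ℕ) :
    ‖∑ d ∈ Finset.range M, (κ d : ℂ) * (F d * V d)‖ ≤
      ∑ d ∈ Finset.range M, κ d * ‖V d - ∑ χ, c χ * χ ((j + d : ℕ) : ZMod (6 * (M + 1)))‖ +
        A * mx κ M F := by
  have e : ∑ d ∈ Finset.range M, (κ d : ℂ) * (F d * V d) =
      ∑ d ∈ Finset.range M, (κ d : ℂ) *
        (F d * (V d - ∑ χ, c χ * χ ((j + d : ℕ) : ZMod (6 * (M + 1))))) +
      ∑ χ : Ch M, (c χ * χ (j : ZMod (6 * (M + 1)))) *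
        ∑ d ∈ Finset.range M, (κ d : ℂ) * (χ (d : ZMod (6 * (M + 1))) * F d) := by
    simp only [Finset.mul_sum]
    rw [Finset.sum_comm (s := Finset.univ), ← Finset.sum_add_distrib]
    refine Finset.sum_congr rfl fun d _ => ?_
    rw [mul_sub, mul_sub, Finset.mul_sum, Finset.mul_sum, sub_add, ← Finset.sum_sub_distrib,
      Finset.sum_eq_zero, sub_zero]
    intro χ _
    rw [Nat.cast_add, AddChar.map_add_eq_mul]
    ring
  rw [e]
  refine (norm_add_le _ _).trans (add_le_add ?_ ?_)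
  · refine (norm_sum_le _ _).trans (Finset.sum_le_sum fun d _ => ?_)
    rw [norm_mul, norm_mul, Complex.norm_real, Real.norm_of_nonneg (hκ d)]
    exact mul_le_mul_of_nonneg_left (mul_le_of_le_one_left (norm_nonneg _) (hF d)) (hκ d)
  · refine (norm_sum_le _ _).trans ?_
    refine le_trans ?_ (mul_le_mul_of_nonneg_right hA (mx_nonneg κ M F))
    rw [Finset.sum_mul]
    refine Finset.sum_le_sum fun χ _ => ?_
    rw [norm_mul, norm_mul, AddChar.norm_apply, mul_one]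
    exact mul_le_mul_of_nonneg_left (le_mx κ M F χ) (norm_nonneg _)

/-- the mean over the shifts -/
lemma pt {κ : ℕ → ℝ} {M : ℕ} (hκ : ∀ d, 0 ≤ κ d) (hs : ∑ d ∈ Finset.range M, κ d = 1)
    {F : Fin M → ℕ → ℂ} (hF : ∀ j d, ‖F j d‖ ≤ 1) (V : ℤ → ℂ) (c : Ch M → ℂ) {A ε : ℝ}
    (hA : ∑ χ, ‖c χ‖ ≤ A) (hc : ∀ d < M, 𝔼 j : Fin M, ‖V (((j : ℕ) + d : ℕ) : ℤ) -
      ∑ χ, c χ * χ (((j : ℕ) + d : ℕ) : ZMod (6 * (M + 1)))‖ ≤ ε) :
    𝔼 j : Fin M, ‖∑ d ∈ Finset.range M, (κ d : ℂ) * (F j d * V (((j : ℕ) + d : ℕ) : ℤ))‖ ≤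
      ε + A * 𝔼 j : Fin M, mx κ M (F j) := by
  refine (Finset.expect_le_expect fun j _ =>
    one hκ (hF j) (fun d => V (((j : ℕ) + d : ℕ) : ℤ)) c hA j).trans ?_
  rw [Finset.expect_add_distrib, Finset.mul_expect]
  refine add_le_add ?_ le_rfl
  rw [Finset.expect_sum_comm]
  calc _ ≤ ∑ d ∈ Finset.range M, κ d * ε := by
        refine Finset.sum_le_sum fun d hd => ?_
        rw [← Finset.mul_expect]
        exact mul_le_mul_of_nonneg_left (hc d (Finset.mem_range.1 hd)) (hκ d)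
    _ = ε := by rw [← Finset.sum_mul, hs, one_mul]

lemma step (hD : DA) (X : Sy) (a b : Gm 2) {f v : X.X → ℂ} {κ : ℕ → ℝ} {M : ℕ} {A ε : ℝ}
    (hM : 1 ≤ M) (hκ : ∀ d, 0 ≤ κ d) (hs : ∑ d ∈ Finset.range M, κ d = 1) (hf : MB X f)
    (hv : v ∈ CX X [b, b] (M ^ 2))
    (hW : ∀ u ∈ CZ (fun _ : Fin 2 => (1 : ℤ)) (M ^ 2), ∃ c : Ch M → ℂ, ∑ χ, ‖c χ‖ ≤ A ∧ ∀ d < M,
      𝔼 j : Fin M, ‖u (((j : ℕ) + d : ℕ) : ℤ) -
        ∑ χ, c χ * χ (((j : ℕ) + d : ℕ) : ZMod (6 * (M + 1)))‖ ≤ ε) :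
    NN X a b κ M f v ≤ ε + A * ∫ x, mx κ M (fun d => f (X.A ((d : ℤ) • a) x)) ∂X.μ := by
  have hA := act X
  have hv1 : MB X v := hD.cx X _ _ v hv
  have : Nonempty (Fin M) := ⟨⟨0, hM⟩⟩
  obtain ⟨Φ, hΦ⟩ : ∃ Φ : X.X → ℝ, Φ = fun x => ‖∑ d ∈ Finset.range M,
    (κ d : ℂ) * (f (X.A ((d : ℤ) • a) x) * v (X.A ((d : ℤ) • b) x))‖ := ⟨_, rfl⟩
  obtain ⟨m, hm⟩ : ∃ m : X.X → ℝ, m = fun x => mx κ M fun d => f (X.A ((d : ℤ) • a) x) := ⟨_, rfl⟩
  have Φm : Measurable Φ := by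
    rw [hΦ]
    exact (Finset.measurable_sum _ fun d _ => ((hA.tz hf _).mul (hA.tz hv1 _)).1.const_mul _).norm
  have mm : Measurable m := by
    rw [hm]
    exact mx_meas κ M (G := fun d x => f (X.A ((d : ℤ) • a) x)) fun d => (hA.tz hf _).1
  have Φi : ∀ u, Integrable (fun x => Φ (X.A u x)) X.μ := fun u =>
    Integrable.of_bound (Φm.comp (hA.meas u)).aestronglyMeasurable 1
      (Eventually.of_forall fun x => by
        rw [hΦ, norm_norm]
        exact wsum_le hκ hs fun d => ((hA.tz hf _).mul (hA.tz hv1 _)).2 _)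
  have mi : ∀ u, Integrable (fun x => m (X.A u x)) X.μ := fun u =>
    Integrable.of_bound (mm.comp (hA.meas u)).aestronglyMeasurable 1
      (Eventually.of_forall fun x => by
        rw [hm, Real.norm_of_nonneg (mx_nonneg _ _ _)]
        exact mx_le hκ hs fun d => hf.2 _)
  have e1 : NN X a b κ M f v = ∫ x, 𝔼 j : Fin M, Φ (X.A (((j : ℕ) : ℤ) • b) x) ∂X.μ := by
    rw [integral_rexp _ fun j _ => Φi _]
    simp only [hA.integral _ Φm.aestronglyMeasurable]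
    rw [Finset.expect_const Finset.univ_nonempty, hΦ]
    rfl
  have e2 : ∫ x, (ε + A * 𝔼 j : Fin M, m (X.A (((j : ℕ) : ℤ) • b) x)) ∂X.μ =
      ε + A * ∫ x, m x ∂X.μ := by
    rw [integral_add (integrable_const _) ((integrable_rexp _ fun j _ => mi _).const_mul _),
      integral_const_mul, integral_rexp _ fun j _ => mi _]
    simp only [hA.integral _ mm.aestronglyMeasurable]
    rw [Finset.expect_const Finset.univ_nonempty]
    simp
  rw [e1, ← hm, ← e2]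
  refine integral_mono (integrable_rexp _ fun j _ => Φi _)
    ((integrable_const _).add ((integrable_rexp _ fun j _ => mi _).const_mul _)) fun x => ?_
  have ho : (fun n : ℤ => v (X.A (n • b) x)) ∈ CZ (fun _ : Fin 2 => (1 : ℤ)) (M ^ 2) :=
    hD.orb X [b, b] b _ v x (fun i => by fin_cases i <;> rfl) hv
  obtain ⟨c, hc1, hc2⟩ := hW _ ho
  have h := pt hκ hs (F := fun j d => f (X.A ((d : ℤ) • a) (X.A (((j : ℕ) : ℤ) • b) x)))
    (fun j d => hf.2 _) (fun n : ℤ => v (X.A (n • b) x)) c hc1 hc2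
  rw [hΦ, hm]
  refine le_of_eq_of_le (Finset.expect_congr rfl fun j _ => ?_) h
  refine congrArg _ (Finset.sum_congr rfl fun d _ => ?_)
  rw [Nat.cast_add, add_smul, add_comm, hA.add]

end C1

theorem c1 : C1R := by
  intro hV hQ hD hW κ hκ hX X a b 𝓖 hU ε hε
  obtain ⟨K1, hK1, hK⟩ := hU.2 (ε / 4) (by positivity)
  obtain ⟨A, hA, hWA⟩ := hW (ε / (4 * (K1 + 1))) (by positivity)
  obtain ⟨K3, hK3, hX3⟩ := hX (ε / (4 * (K1 + 1) * A)) (by positivity)
  refine ⟨K1 * A * K3, by positivity, fun g hg f H hf hH => ?_⟩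
  obtain ⟨D, hDD, hgD⟩ := hK g hg
  filter_upwards [hWA, hX3 X a f H hf hH, hκ.2, eventually_ge_atTop 1] with M h1 h2 h3 h4
  obtain ⟨v, hv, hDv⟩ := hDD.2 (M ^ 2) (ε / (4 * (K1 + 1))) (by positivity)
  have hv1 : MB X v := hD.cx X _ _ v hv
  have hab : ∑ d ∈ Finset.range M, |κ M d| = 1 := by
    rw [← h3]
    exact Finset.sum_congr rfl fun d _ => abs_of_nonneg (hκ.1 M d)
  have s1 := hV.lip X a b (κ M) M f g (fun x => (K1 : ℂ) * D x) hf ((hU.1 g hg).integrable _)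
    ((hDD.1.integrable _).const_mul _)
  have s2 := hV.smul X a b (κ M) M f D K1
  have s3 := hV.lip X a b (κ M) M f D v hf (hDD.1.integrable _) (hv1.integrable _)
  have s4 := C1.step hD X a b h4 (hκ.1 M) h3 hf hv h1
  rw [hab, one_mul] at s1 s3
  rw [Complex.norm_real, Real.norm_of_nonneg hK1] at s2
  obtain ⟨e, he⟩ : ∃ e, e = ε / (4 * (K1 + 1)) := ⟨_, rfl⟩
  have he0 : 0 ≤ e := by rw [he]; positivity
  have he1 : (K1 + 1) * e = ε / 4 := by rw [he]; field_simp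
  have he2 : A * (ε / (4 * (K1 + 1) * A)) = e := by rw [he]; field_simp
  rw [← he] at hDv s4
  have s5 := mul_le_mul_of_nonneg_left h2 hA.le
  rw [mul_add, he2] at s5
  have s6 : NN X a b (κ M) M f D ≤ 3 * e + A * (K3 * QE X [a, a] H f) := by linarith
  have s7 := mul_le_mul_of_nonneg_left s6 hK1
  rw [s2] at s1
  nlinarith

end T6

end

end PkC1
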